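import Pool.Agent.MZT.Defs

/-!
# MZT module FB: basic properties of tame closure

`Tm.iUnion`: `ι' = Σ j, ι j`. `closure_iUnion_of_finite` and `closure_closure`-type arguments: `closure (⋃ j, S j) = ⋃ j, closure (S j) =
⋃ j, closure (⋃ i, ..) = closure (⋃ (j, i), ..)`. `Tm.of_SC`: `ι = Unit`, `p = X`, `pm X = id`. `Tm.ratpts`: `E = univ` (`Bsa.univ.sc.toSC`), the rational
points are dense (`DenseRange` of `Rat.cast`, `dense_pi` or `MZ/RatD.lean`). `Tm.of_finite`: a finite union of singletons; a singleton `{x}`: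
`ι = Unit`, `τ = Empty` (or any), `E = univ`, `p a = C (x a)`.
-/

set_option autoImplicit false

open Set Topology Filter MvPolynomial

namespace Pool.Agent.MZT

open Pool.Agent.MZ Pool.Agent.QTW

theorem Tm.congr {σ : Type} {S S' : Set (σ → ℝ)} (h : Tm S) (he : closure S' = closure S) : Tm S' := by
  obtain ⟨ι, hι, τ, hτ, E, p, h1, h2⟩ := h
  exact ⟨ι, hι, τ, hτ, E, p, h1, he.trans h2⟩

private theorem fb_clU {σ κ : Type} {A B : κ → Set (σ → ℝ)}
    (h : ∀ j, closure (A j) = closure (B j)) : closure (⋃ j, A j) = closure (⋃ j, B j) := by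
  refine Subset.antisymm (closure_minimal (iUnion_subset fun j => ?_) isClosed_closure)
    (closure_minimal (iUnion_subset fun j => ?_) isClosed_closure)
  · exact subset_closure.trans ((h j).le.trans (closure_mono (subset_iUnion _ j)))
  · exact subset_closure.trans ((h j).ge.trans (closure_mono (subset_iUnion _ j)))

theorem Tm.iUnion {σ κ : Type} [Finite κ] {S : κ → Set (σ → ℝ)} (h : ∀ j, Tm (S j)) : Tm (⋃ j, S j) := by
  choose ι hι τ hτ E p h1 h2 using h
  refine ⟨Σ j, ι j, inferInstance, fun x => τ x.1 x.2, fun x => hτ x.1 x.2, fun x => E x.1 x.2,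
    fun x => p x.1 x.2, fun x => h1 x.1 x.2, ?_⟩
  rw [Set.iUnion_sigma]
  exact fb_clU h2

theorem Tm.empty {σ : Type} : Tm (∅ : Set (σ → ℝ)) := by
  refine ⟨Empty, inferInstance, fun _ => Empty, fun _ => inferInstance, fun _ => univ,
    fun _ _ => 0, fun i => i.elim, ?_⟩
  simp

theorem Tm.union {σ : Type} {S S' : Set (σ → ℝ)} (h : Tm S) (h' : Tm S') : Tm (S ∪ S') := by
  rw [Set.union_eq_iUnion]
  exact Tm.iUnion fun b => by cases b <;> assumption

theorem Tm.of_SC {σ : Type} [Finite σ] {E S : Set (σ → ℝ)} (hE : SC E) (h1 : E ⊆ closure S)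
    (h2 : S ⊆ closure E) : Tm S := by
  refine ⟨Unit, inferInstance, fun _ => σ, fun _ => inferInstance, fun _ => E, fun _ a => X a,
    fun _ => hE, ?_⟩
  have e : pm (fun a : σ => (X a : MvPolynomial σ ℝ)) = id := by
    funext x a
    simp [pm]
  rw [iUnion_const, e, image_id]
  exact Subset.antisymm (closure_minimal h2 isClosed_closure)
    (closure_minimal h1 isClosed_closure)

private theorem fb_single {σ : Type} (x : σ → ℝ) : Tm ({x} : Set (σ → ℝ)) := by
  refine ⟨Unit, inferInstance, fun _ => Empty, fun _ => inferInstance, fun _ => univ,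
    fun _ a => C (x a), fun _ => Bsa.univ.sc.toSC, ?_⟩
  rw [iUnion_const]
  congr 1
  ext y
  simp only [mem_singleton_iff, image_univ, mem_range]
  constructor
  · rintro rfl
    exact ⟨fun e => e.elim, by funext a; simp [pm]⟩
  · rintro ⟨z, rfl⟩
    funext a
    simp [pm]

theorem Tm.of_finite {σ : Type} {S : Set (σ → ℝ)} (h : S.Finite) : Tm S := by
  have : Finite S := h
  have e : S = ⋃ x : S, {(x : σ → ℝ)} := by
    ext y
    simp
  rw [e]
  exact Tm.iUnion fun x => fb_single _

theorem Tm.ratpts {n : ℕ} : Tm {x : Fin n → ℝ | IsRat x} :=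
  Tm.of_SC Bsa.univ.sc.toSC (fun x _ => dense_isRat x) (fun x _ => subset_closure (mem_univ x))

end Pool.Agent.MZT
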