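import Pool.Agent.MZT.Fc

/-!
# MZT module FD: products (plan in `Fc.lean`)
-/

set_option autoImplicit false

open Set Topology Filter MvPolynomial

namespace Pool.Agent.MZT

open Pool.Agent.MZ Pool.Agent.QTW

/-- the product as a set of functions on the sum -/
def pr {σ τ : Type} (A : Set (σ → ℝ)) (B : Set (τ → ℝ)) : Set (σ ⊕ τ → ℝ) :=
  {z | (fun a => z (Sum.inl a)) ∈ A ∧ (fun b => z (Sum.inr b)) ∈ B}

theorem closure_pr {σ τ : Type} (A : Set (σ → ℝ)) (B : Set (τ → ℝ)) :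
    closure (pr A B) = pr (closure A) (closure B) := by
  let f : (σ → ℝ) × (τ → ℝ) → (σ ⊕ τ → ℝ) := fun p => Sum.elim p.1 p.2
  have hf : Continuous f := by
    refine continuous_pi ?_
    rintro (a | b)
    · exact (continuous_apply a).comp continuous_fst
    · exact (continuous_apply b).comp continuous_snd
  have himg : ∀ (A : Set (σ → ℝ)) (B : Set (τ → ℝ)), pr A B = f '' (A ×ˢ B) := by
    intro A B
    ext z
    constructor
    · rintro ⟨h1, h2⟩
      refine ⟨(fun a => z (Sum.inl a), fun b => z (Sum.inr b)), ⟨h1, h2⟩, ?_⟩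
      funext p
      rcases p with a | b <;> rfl
    · rintro ⟨⟨x, y⟩, ⟨h1, h2⟩, rfl⟩
      exact ⟨h1, h2⟩
  refine Subset.antisymm ?_ ?_
  · have c1 : Continuous fun z : σ ⊕ τ → ℝ => (fun a => z (Sum.inl a) : σ → ℝ) :=
      continuous_pi fun a => continuous_apply _
    have c2 : Continuous fun z : σ ⊕ τ → ℝ => (fun b => z (Sum.inr b) : τ → ℝ) :=
      continuous_pi fun a => continuous_apply _
    refine closure_minimal ?_ ((isClosed_closure.preimage c1).inter (isClosed_closure.preimage c2))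
    rintro z ⟨h1, h2⟩
    exact ⟨subset_closure h1, subset_closure h2⟩
  · rw [himg, himg, ← closure_prod_eq]
    exact image_closure_subset_closure_image hf

theorem Tm.prod {σ τ : Type} {S : Set (σ → ℝ)} {S' : Set (τ → ℝ)} (h : Tm S) (h' : Tm S') :
    Tm {z : σ ⊕ τ → ℝ | (fun a => z (Sum.inl a)) ∈ S ∧ (fun b => z (Sum.inr b)) ∈ S'} := by
  obtain ⟨ι, hι, ρ, hρ, E, p, hE, he⟩ := h
  obtain ⟨ι', hι', ρ', hρ', E', p', hE', he'⟩ := h'
  refine ⟨ι × ι', inferInstance, fun i => ρ i.1 ⊕ ρ' i.2, fun i => inferInstance,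
    fun i => {z | (fun a => z (Sum.inl a)) ∈ E i.1 ∧ (fun b => z (Sum.inr b)) ∈ E' i.2},
    fun i => Sum.elim (fun a => rename Sum.inl (p i.1 a)) (fun b => rename Sum.inr (p' i.2 b)),
    ?_, ?_⟩
  · intro i
    have h1 := (hE i.1).preimage (τ := ρ i.1 ⊕ ρ' i.2) (fun a => X (Sum.inl a))
    have h2 := (hE' i.2).preimage (τ := ρ i.1 ⊕ ρ' i.2) (fun a => X (Sum.inr a))
    simp only [eval_X] at h1 h2
    exact h1.inter h2
  · have e0 : {z : σ ⊕ τ → ℝ | (fun a => z (Sum.inl a)) ∈ S ∧ (fun b => z (Sum.inr b)) ∈ S'} =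
        pr S S' := rfl
    have e1 : ∀ i : ι × ι', pm (Sum.elim (fun a => rename Sum.inl (p i.1 a))
        (fun b => rename Sum.inr (p' i.2 b)) : σ ⊕ τ → MvPolynomial (ρ i.1 ⊕ ρ' i.2) ℝ) ''
        {z | (fun a => z (Sum.inl a)) ∈ E i.1 ∧ (fun b => z (Sum.inr b)) ∈ E' i.2} =
        pr (pm (p i.1) '' E i.1) (pm (p' i.2) '' E' i.2) := by
      intro i
      have ev1 : ∀ z : ρ i.1 ⊕ ρ' i.2 → ℝ, ∀ a, eval z (rename Sum.inl (p i.1 a)) =
          pm (p i.1) (fun a => z (Sum.inl a)) a := by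
        intro z a
        rw [eval_rename]
        rfl
      have ev2 : ∀ z : ρ i.1 ⊕ ρ' i.2 → ℝ, ∀ b, eval z (rename Sum.inr (p' i.2 b)) =
          pm (p' i.2) (fun b => z (Sum.inr b)) b := by
        intro z b
        rw [eval_rename]
        rfl
      ext w
      constructor
      · rintro ⟨z, ⟨h1, h2⟩, rfl⟩
        refine ⟨⟨fun a => z (Sum.inl a), h1, ?_⟩, ⟨fun b => z (Sum.inr b), h2, ?_⟩⟩
        · funext a
          exact (ev1 z a).symm
        · funext b
          exact (ev2 z b).symm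
      · rintro ⟨⟨x, hx, hx2⟩, ⟨y, hy, hy2⟩⟩
        refine ⟨Sum.elim x y, ⟨hx, hy⟩, ?_⟩
        funext c
        rcases c with a | b
        · have h3 := congrFun hx2 a
          exact (ev1 (Sum.elim x y) a).trans h3
        · have h3 := congrFun hy2 b
          exact (ev2 (Sum.elim x y) b).trans h3
    rw [e0, closure_pr, he, he', ← closure_pr]
    congr 1
    rw [iUnion_congr e1]
    ext z
    simp only [pr, mem_ofPred_eq, mem_iUnion, Prod.exists]
    constructor
    · rintro ⟨⟨i, hi⟩, j, hj⟩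
      exact ⟨i, j, hi, hj⟩
    · rintro ⟨i, j, hi, hj⟩
      exact ⟨⟨i, hi⟩, j, hj⟩

end Pool.Agent.MZT
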