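import Pool.Agent.MZT.Defs

/-!
# MZT module FC: images, products, open subsets

`Tm.image`: `closure (pm p '' S) = closure (pm p '' closure S)` (`image_closure_subset_closure_image`, `closure_mono`), and
`pm p ∘ pm (q i) = pm (fun a => bind₁ (q i) (p a))`. `Tm.restrict`: `W = {eval x D ≠ 0}` is open; `closure (S ∩ W) = closure (closure S ∩ W)`
(`IsOpen.inter_closure` / `closure_inter_open..`), so it equals `closure (W ∩ ⋃ pm '' E i) = closure (⋃ pm (p i) '' (E i ∩ {eval (pm (p i) z) D ≠ 0}))`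
and `E i ∩ {..}` is `SC` (`SC.inter`; `{D' ≠ 0} = {0 < D'} ∪ {0 < -D'}`, `Bsa.pos`). `Tm.prod`: index set `ι × ι'`, variables `τ i ⊕ τ' j`,
`E = {z | z ∘ inl ∈ E i ∧ z ∘ inr ∈ E' j}` (`SC.preimage` with `X (Sum.inl a)`, `SC.inter`), polynomials `rename Sum.inl (p i a)`,
`rename Sum.inr (p' j b)`; closures: `{z | z ∘ inl ∈ A ∧ z ∘ inr ∈ B}` has closure `{z | z ∘ inl ∈ closure A ∧ z ∘ inr ∈ closure B}`
(`Homeomorph.sumArrowHomeomorphProdArrow` and `closure_prod_eq`, or by hand).
`Tm.ratmap`: let `S₁ = {x ∈ S | D x ≠ 0}` (`Tm.restrict`: `closure S₁ = closure (⋃ pm (p i) '' E i)` where one may take all points of `E i` with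
`D (pm (p i) z) ≠ 0`). Add a variable `w` (index `Option (τ i)` or `τ i ⊕ Unit`) with the equation `w * D (pm (p i) z) = 1` (`Bsa.zero`), and use the
polynomials `w * (q a)(pm (p i) z)`. The map `ψ x = (q a x / D x)` is continuous on the open set `{D ≠ 0}`: for `T ⊆ closure T'`,
`T, T' ⊆ {D ≠ 0}`: `ψ '' T ⊆ closure (ψ '' T')`.
-/

set_option autoImplicit false

open Set Topology Filter MvPolynomial

namespace Pool.Agent.MZT

open Pool.Agent.MZ Pool.Agent.QTW

theorem cont_pm {σ τ : Type} (p : τ → MvPolynomial σ ℝ) : Continuous (pm p) :=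
  continuous_pi fun a => MvPolynomial.continuous_eval (p a)

theorem eval_bind' {σ τ : Type} (F : σ → MvPolynomial τ ℝ) (P : MvPolynomial σ ℝ)
    (x : τ → ℝ) : eval x (bind₁ F P) = eval (pm F x) P := by
  induction P using MvPolynomial.induction_on with
  | C a => simp
  | add p q hp hq => rw [map_add, map_add, map_add, hp, hq]
  | mul_X p i hp =>
    rw [map_mul, map_mul, map_mul, hp, bind₁_X_right, eval_X]
    rfl

theorem pm_comp {ρ σ τ : Type} (q : τ → MvPolynomial σ ℝ) (p : σ → MvPolynomial ρ ℝ) (z : ρ → ℝ) :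
    pm q (pm p z) = pm (fun a => bind₁ p (q a)) z := by
  funext a
  exact (eval_bind' p (q a) z).symm

theorem closure_image_closure {X Y : Type*} [TopologicalSpace X] [TopologicalSpace Y] {f : X → Y}
    (hf : Continuous f) (S : Set X) : closure (f '' closure S) = closure (f '' S) := by
  refine Subset.antisymm ?_ (closure_mono (image_mono subset_closure))
  exact closure_minimal (image_closure_subset_closure_image hf) isClosed_closure

theorem closure_inter_closure {X : Type*} [TopologicalSpace X] {W : Set X} (hW : IsOpen W)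
    {S S' : Set X} (h : closure S = closure S') : closure (W ∩ S) = closure (W ∩ S') := by
  have key : ∀ {A B : Set X}, closure A = closure B → closure (W ∩ A) ⊆ closure (W ∩ B) := by
    intro A B hAB
    refine closure_minimal ?_ isClosed_closure
    rintro x ⟨hx1, hx2⟩
    have h1 : x ∈ closure B := by
      rw [← hAB]
      exact subset_closure hx2
    exact hW.inter_closure ⟨hx1, h1⟩
  exact Subset.antisymm (key h) (key h.symm)

theorem sc_ne1 {σ : Type} (D : MvPolynomial σ ℝ) : SC {x : σ → ℝ | eval x D ≠ 0} := by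
  have e : {x : σ → ℝ | eval x D ≠ 0} = {x | 0 < eval x D} ∪ {x | 0 < eval x (-D)} := by
    ext x
    simp only [mem_ofPred_eq, mem_union, map_neg]
    constructor
    · intro h
      rcases lt_or_gt_of_ne h with h | h
      · right; linarith
      · exact Or.inl h
    · rintro (h | h)
      · exact h.ne'
      · intro h0
        rw [h0] at h
        simp at h
  rw [e]
  exact (Bsa.pos _).sc.toSC.union (Bsa.pos _).sc.toSC

theorem Tm.image {σ τ : Type} {S : Set (σ → ℝ)} (h : Tm S) (q : τ → MvPolynomial σ ℝ) :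
    Tm (pm q '' S) := by
  obtain ⟨ι, hι, ρ, hρ, E, p, hE, he⟩ := h
  refine ⟨ι, hι, ρ, hρ, E, fun i a => bind₁ (p i) (q a), hE, ?_⟩
  rw [← closure_image_closure (cont_pm q), he, closure_image_closure (cont_pm q), image_iUnion]
  congr 1
  refine iUnion_congr fun i => ?_
  rw [image_image]
  refine image_congr fun z _ => ?_
  exact pm_comp q (p i) z

theorem Tm.restrict {σ : Type} {S : Set (σ → ℝ)} (h : Tm S) (D : MvPolynomial σ ℝ) :
    Tm {x | x ∈ S ∧ eval x D ≠ 0} := by
  obtain ⟨ι, hι, ρ, hρ, E, p, hE, he⟩ := h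
  refine ⟨ι, hι, ρ, hρ, fun i => E i ∩ {z | eval z (bind₁ (p i) D) ≠ 0}, p,
    fun i => (hE i).inter (sc_ne1 _), ?_⟩
  have hW : IsOpen {x : σ → ℝ | eval x D ≠ 0} :=
    isOpen_ne_fun (MvPolynomial.continuous_eval _) continuous_const
  have e1 : {x | x ∈ S ∧ eval x D ≠ 0} = {x : σ → ℝ | eval x D ≠ 0} ∩ S := by
    ext x
    exact and_comm
  rw [e1, closure_inter_closure hW he, inter_iUnion]
  congr 1
  refine iUnion_congr fun i => ?_
  ext x
  constructor
  · rintro ⟨hx, z, hz, rfl⟩
    refine ⟨z, ⟨hz, ?_⟩, rfl⟩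
    show eval z (bind₁ (p i) D) ≠ 0
    rw [eval_bind']
    exact hx
  · rintro ⟨z, ⟨hz, hD⟩, rfl⟩
    refine ⟨?_, z, hz, rfl⟩
    show eval (pm (p i) z) D ≠ 0
    rw [← eval_bind']
    exact hD

end Pool.Agent.MZT
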