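import Pool.Agent.MZT.Fb
import Pool.Agent.MZT.Fc

/-!
# MZT module GA: rational affine subspaces

Let `S` be a set of rational points closed under `s + t (y - s)`, `t` rational. If `S` is empty: `Tm.empty`. Otherwise let `s ∈ S` and
`W = {q : Fin n → ℚ | rv q + s ∈ S}`: this is a `ℚ`-linear subspace of `Fin n → ℚ` (multiples: the hypothesis; sums: `a + b` is the midpoint of `2 a`
and `2 b`: `s + 2 a`, `s + 2 b ∈ S`, `t = 1/2`). Let `b_1, ..., b_k` be a finite basis (or spanning family, `Submodule.fg_top`, `Module.Finite`) of `W`. Then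
`S` is the image of the rational points of `ℝ^k` under the polynomial map `t ↦ s + ∑ t_j rv b_j`: `Tm.image Tm.ratpts`.
-/

set_option autoImplicit false

open Set Topology Filter MvPolynomial

namespace Pool.Agent.MZT

open Pool.Agent.MZ Pool.Agent.QTW

theorem Tm.affine {n : ℕ} {S : Set (Fin n → ℝ)} (hQ : ∀ x ∈ S, IsRat x)
    (h : ∀ s ∈ S, ∀ y ∈ S, ∀ t : ℚ, s + (t : ℝ) • (y - s) ∈ S) : Tm S := by
  rcases S.eq_empty_or_nonempty with rfl | ⟨s, hs⟩
  · exact Tm.empty
  obtain ⟨q₀, hq₀⟩ := hQ s hs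
  have hsm : ∀ (c : ℚ) (q : Fin n → ℚ), rv q + s ∈ S → rv (c • q) + s ∈ S := by
    intro c q hq
    have h1 := h s hs _ hq c
    have h2 : s + (c : ℝ) • (rv q + s - s) = rv (c • q) + s := by
      ext i
      simp [rv]
      ring
    rwa [h2] at h1
  let W : Submodule ℚ (Fin n → ℚ) :=
    { carrier := {q | rv q + s ∈ S}
      zero_mem' := by
        have : rv (0 : Fin n → ℚ) + s = s := by
          ext i
          simp [rv]
        show rv (0 : Fin n → ℚ) + s ∈ S
        rw [this]
        exact hs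
      smul_mem' := fun c q hq => hsm c q hq
      add_mem' := by
        intro a b ha hb
        have h1 := hsm 2 a ha
        have h2 := hsm 2 b hb
        have h3 := h _ h1 _ h2 (1 / 2)
        have h4 : rv ((2 : ℚ) • a) + s + ((1 / 2 : ℚ) : ℝ) • (rv ((2 : ℚ) • b) + s -
            (rv ((2 : ℚ) • a) + s)) = rv (a + b) + s := by
          ext i
          simp [rv]
          ring
        rw [h4] at h3
        exact h3 }
  have hW : ∀ q, q ∈ W ↔ rv q + s ∈ S := fun q => Iff.rfl
  obtain ⟨k, b, hb⟩ := Submodule.fg_iff_exists_fin_generating_family.1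
    (IsNoetherian.noetherian W)
  let p : Fin n → MvPolynomial (Fin k) ℝ := fun a => C (s a) + ∑ j, X j * C ((b j a : ℚ) : ℝ)
  have hp : ∀ c : Fin k → ℚ, pm p (rv c) = rv (∑ j, c j • b j) + s := by
    intro c
    ext a
    simp only [pm, p, map_add, map_sum, map_mul, eval_C, eval_X, rv, Pi.add_apply,
      Finset.sum_apply, Pi.smul_apply, smul_eq_mul]
    push_cast
    ring
  have hS : S = pm p '' {x : Fin k → ℝ | IsRat x} := by
    ext x
    constructor
    · intro hx
      obtain ⟨q, hq⟩ := hQ x hx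
      have hx1 : rv (q - q₀) + s = x := by
        rw [hq, hq₀]
        ext i
        simp [rv]
      have hmem : q - q₀ ∈ W := by
        rw [hW, hx1]
        exact hx
      rw [← hb, Submodule.mem_span_range_iff_exists_fun] at hmem
      obtain ⟨c, hc⟩ := hmem
      exact ⟨rv c, ⟨c, rfl⟩, by rw [hp, hc, hx1]⟩
    · rintro ⟨_, ⟨c, rfl⟩, rfl⟩
      rw [hp, ← hW, ← hb, Submodule.mem_span_range_iff_exists_fun]
      exact ⟨c, rfl⟩
  rw [hS]
  exact Tm.image Tm.ratpts p

end Pool.Agent.MZT
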