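import Pool.Agent.MZT.Fb
import Pool.Agent.MZT.Fc

/-!
# MZT module GC: degrees of substitutions; hyperplane sections (plan in `Gb.lean`)
-/

set_option autoImplicit false

open Set Topology Filter MvPolynomial

namespace Pool.Agent.MZT

open Pool.Agent.MZ Pool.Agent.QTW

/-- substituting polynomials of degree at most 1 does not raise the degree -/
theorem deg_subst {n m : ℕ} (F : MvPolynomial (Fin n) ℚ) (g : Fin n → MvPolynomial (Fin m) ℚ)
    (hg : ∀ i, (g i).totalDegree ≤ 1) : (aeval g F).totalDegree ≤ F.totalDegree := by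
  rw [aeval_def, eval₂_eq']
  refine totalDegree_finsetSum_le fun d hd => ?_
  refine (totalDegree_mul _ _).trans ?_
  have h1 : (algebraMap ℚ (MvPolynomial (Fin m) ℚ) (coeff d F)).totalDegree = 0 := by
    rw [algebraMap_eq, totalDegree_C]
  rw [h1, zero_add]
  refine (totalDegree_finset_prod _ _).trans ?_
  have h2 : ∑ j, (g j ^ d j).totalDegree ≤ ∑ j, d j := by
    refine Finset.sum_le_sum fun j _ => (totalDegree_pow _ _).trans ?_
    calc d j * (g j).totalDegree ≤ d j * 1 := Nat.mul_le_mul_left _ (hg j)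
      _ = d j := mul_one _
  refine h2.trans ?_
  have h3 : ∑ j, d j = d.sum fun _ e => e :=
    (Finsupp.sum_fintype d (fun _ e => e) fun _ => rfl).symm
  rw [h3]
  exact le_totalDegree hd

theorem sub0_deg {n : ℕ} (a : ℚ) (F : MvPolynomial (Fin (n + 1)) ℚ) :
    (sub0 a F).totalDegree ≤ F.totalDegree := by
  refine deg_subst F _ fun i => ?_
  refine Fin.cases ?_ (fun j => ?_) i
  · rw [Fin.cons_zero, totalDegree_C]
    exact Nat.zero_le 1
  · rw [Fin.cons_succ, totalDegree_X]

theorem tr_deg {n : ℕ} (s : Fin n → ℚ) (F : MvPolynomial (Fin n) ℚ) :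
    (tr s F).totalDegree ≤ F.totalDegree := by
  refine deg_subst F _ fun i => ?_
  refine (totalDegree_add _ _).trans ?_
  rw [totalDegree_X, totalDegree_C]
  simp

theorem tm_hyp {n k : ℕ} (F : Fin k → MvPolynomial (Fin (n + 1)) ℚ) (l : Fin (n + 1) → ℚ)
    {i : Fin (n + 1)} (hl : l i ≠ 0)
    (h : ∀ F' : Fin k → MvPolynomial (Fin n) ℚ, (∀ j, (F' j).totalDegree ≤ (F j).totalDegree) →
      Tm (QZF F')) :
    Tm {x | x ∈ QZF F ∧ ∑ j, (l j : ℝ) * x j = 0} := by
  -- the linear parametrisation of the hyperplane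
  set g : Fin (n + 1) → MvPolynomial (Fin n) ℚ :=
    i.insertNth (-(C (l i)⁻¹ * ∑ j, C (l (i.succAbove j)) * X j)) X with hg
  have hgi : g i = -(C (l i)⁻¹ * ∑ j, C (l (i.succAbove j)) * X j) := by
    rw [hg, Fin.insertNth_apply_same]
  have hgj : ∀ j : Fin n, g (i.succAbove j) = X j := fun j => by
    rw [hg, Fin.insertNth_apply_succAbove]
  have hg1 : ∀ j, (g j).totalDegree ≤ 1 := by
    intro j
    rcases Fin.eq_self_or_eq_succAbove i j with rfl | ⟨j, rfl⟩
    · rw [hgi, totalDegree_neg]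
      refine (totalDegree_mul _ _).trans ?_
      rw [totalDegree_C, zero_add]
      refine totalDegree_finsetSum_le fun j _ => ?_
      refine (totalDegree_mul _ _).trans ?_
      rw [totalDegree_C, totalDegree_X]
    · rw [hgj, totalDegree_X]
  have h1 := h (fun j => aeval g (F j)) fun j => deg_subst (F j) g hg1
  -- the values
  have hgv : ∀ q : Fin n → ℚ, (fun a => eval q (g a)) =
      (i.insertNth (-((l i)⁻¹ * ∑ j, l (i.succAbove j) * q j)) q : Fin (n + 1) → ℚ) := by
    intro q
    funext a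
    rcases Fin.eq_self_or_eq_succAbove i a with rfl | ⟨j, rfl⟩
    · rw [hgi, Fin.insertNth_apply_same, map_neg, map_mul, eval_C, map_sum]
      simp only [map_mul, eval_C, eval_X]
    · rw [hgj, Fin.insertNth_apply_succAbove, eval_X]
  have hev : ∀ (q : Fin n → ℚ) (j : Fin k), eval q (aeval g (F j)) =
      eval (i.insertNth (-((l i)⁻¹ * ∑ j, l (i.succAbove j) * q j)) q : Fin (n + 1) → ℚ) (F j) := by
    intro q j
    rw [← hgv q]
    have h2 : eval q (aeval g (F j)) = eval q (bind₁ g (F j)) := rfl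
    rw [h2]
    induction (F j) using MvPolynomial.induction_on with
    | C a => simp
    | add p q hp hq => rw [map_add, map_add, map_add, hp, hq]
    | mul_X p i hp => rw [map_mul, map_mul, map_mul, hp, bind₁_X_right, eval_X]
  -- real polynomials
  let G : Fin (n + 1) → MvPolynomial (Fin n) ℝ := fun a => map (algebraMap ℚ ℝ) (g a)
  have hG : ∀ q : Fin n → ℚ, pm G (rv q) =
      rv (i.insertNth (-((l i)⁻¹ * ∑ j, l (i.succAbove j) * q j)) q : Fin (n + 1) → ℚ) := by
    intro q
    rw [← hgv q]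
    funext a
    show eval (rv q) (map (algebraMap ℚ ℝ) (g a)) = ((eval q (g a) : ℚ) : ℝ)
    rw [eval_map, ← aeval_rv, aeval_def]
  have h3 := h1.image G
  convert h3 using 1
  ext x
  constructor
  · rintro ⟨⟨q, hq, rfl⟩, hx⟩
    have hx' : ∑ j, l j * q j = 0 := by
      have : ((∑ j, l j * q j : ℚ) : ℝ) = 0 := by
        push_cast
        exact hx
      exact_mod_cast this
    rw [Fin.sum_univ_succAbove _ i] at hx'
    have hqi : q i = -((l i)⁻¹ * ∑ j, l (i.succAbove j) * q (i.succAbove j)) := by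
      field_simp
      linarith
    have hqe : (i.insertNth (-((l i)⁻¹ * ∑ j, l (i.succAbove j) * q (i.succAbove j)))
        (fun j => q (i.succAbove j)) : Fin (n + 1) → ℚ) = q := by
      funext a
      rcases Fin.eq_self_or_eq_succAbove i a with rfl | ⟨j, rfl⟩
      · rw [Fin.insertNth_apply_same, ← hqi]
      · rw [Fin.insertNth_apply_succAbove]
    refine ⟨rv fun j => q (i.succAbove j), ⟨fun j => q (i.succAbove j), fun j => ?_, rfl⟩, ?_⟩
    · rw [hev, hqe]
      exact hq j
    · rw [hG, hqe]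
  · rintro ⟨_, ⟨q, hq, rfl⟩, rfl⟩
    rw [hG]
    refine ⟨⟨_, fun j => ?_, rfl⟩, ?_⟩
    · rw [← hev]
      exact hq j
    · have h4 : ∑ j, l j * (i.insertNth (-((l i)⁻¹ * ∑ j, l (i.succAbove j) * q j)) q :
          Fin (n + 1) → ℚ) j = 0 := by
        rw [Fin.sum_univ_succAbove _ i, Fin.insertNth_apply_same]
        simp only [Fin.insertNth_apply_succAbove]
        field_simp
        ring
      have h5 : ((∑ j, l j * (i.insertNth (-((l i)⁻¹ * ∑ j, l (i.succAbove j) * q j)) q :
          Fin (n + 1) → ℚ) j : ℚ) : ℝ) = 0 := by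
        rw [h4, Rat.cast_zero]
      push_cast at h5
      exact h5

end Pool.Agent.MZT
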