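import Pool.Agent.MZT.Kc

/-!
# MZT module KD: smooth zeros are limits of `S2` (plan in `Kc.lean`)
-/

set_option autoImplicit false

open Set Topology Filter MvPolynomial

namespace Pool.Agent.MZT

open Pool.Agent.MZ Pool.Agent.QTW

variable {n : ℕ} {P : MvPolynomial (Fin n) ℚ} {C : Cub (n + 1)}

private theorem kd_expand
    (hPC : ∀ x : Fin n → ℝ, (aeval x P : ℝ) = C.T (hx 1 x) (hx 1 x) (hx 1 x))
    {s : Fin n → ℚ} (hs : ∀ u, C.T (hx 1 (rv s)) (hx 1 (rv s)) u = 0) (v : Fin n → ℝ) :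
    (aeval (rv s + v) P : ℝ) = 3 * C.T (hx 1 (rv s)) (hx 0 v) (hx 0 v) +
      C.T (hx 0 v) (hx 0 v) (hx 0 v) := by
  have e : hx 1 (rv s + v) = hx 1 (rv s) + hx 0 v := by rw [← hx_add, add_zero]
  have i1 : C.T (hx 1 (rv s)) (hx 0 v) (hx 1 (rv s)) = 0 := by rw [C.sym₂, hs]
  have i2 : C.T (hx 0 v) (hx 1 (rv s)) (hx 1 (rv s)) = 0 := by
    rw [C.sym₁, i1]
  have i3 : C.T (hx 0 v) (hx 1 (rv s)) (hx 0 v) = C.T (hx 1 (rv s)) (hx 0 v) (hx 0 v) :=
    C.sym₁ _ _ _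
  have i4 : C.T (hx 0 v) (hx 0 v) (hx 1 (rv s)) = C.T (hx 1 (rv s)) (hx 0 v) (hx 0 v) := by
    rw [C.sym₂, i3]
  rw [hPC, e]
  simp only [map_add, LinearMap.add_apply, i1, i2, i3, i4, hs]
  ring

private theorem kd_smul (t : ℝ) (v : Fin n → ℝ) : hx 0 (t • v) = t • hx 0 v := by
  rw [← hx_smul, mul_zero]

private theorem kd_polyR0 (i : Fin (n + 1)) : PolyR n fun v => hx 0 v i := by
  refine Fin.cases ?_ (fun j => ?_) i
  · have h : (fun v : Fin n → ℝ => hx 0 v 0) = fun _ => (0 : ℝ) := by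
      funext v
      simp [hx]
    rw [h]
    exact PolyR.const 0
  · have h : (fun v : Fin n → ℝ => hx 0 v j.succ) = fun v => v j := by
      funext v
      simp [hx]
    rw [h]
    exact PolyR.coord j

private theorem kd_mem (y : Fin n → ℝ) :
    y ∈ QZ P ↔ IsRat y ∧ (aeval y P : ℝ) = 0 := by
  constructor
  · rintro ⟨q, hq, rfl⟩
    refine ⟨IsRat.rv q, ?_⟩
    rw [aeval_rv, hq, Rat.cast_zero]
  · rintro ⟨⟨q, rfl⟩, h2⟩
    rw [aeval_rv] at h2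
    exact ⟨q, by exact_mod_cast h2, rfl⟩

/-- the open set of parameters is mapped into the closure of `S2` -/
private theorem kd_mem_S2
    (hPC : ∀ x : Fin n → ℝ, (aeval x P : ℝ) = C.T (hx 1 x) (hx 1 x) (hx 1 x))
    {s : Fin n → ℚ} (hs : ∀ u, C.T (hx 1 (rv s)) (hx 1 (rv s)) u = 0) {v : Fin n → ℝ}
    (hr : IsRat v) (hA : C.T (hx 1 (rv s)) (hx 0 v) (hx 0 v) ≠ 0)
    (hB : C.T (hx 0 v) (hx 0 v) (hx 0 v) ≠ 0) :
    rv s + (-(3 * C.T (hx 1 (rv s)) (hx 0 v) (hx 0 v) / C.T (hx 0 v) (hx 0 v) (hx 0 v))) • v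
      ∈ S2 P C s := by
  have hr1 : IsRat (hx 1 (rv s)) := isRat_hx.mpr ⟨IsQ.one, ⟨s, rfl⟩⟩
  have hv' : IsRat (hx 0 v) := isRat_hx.mpr ⟨IsQ.zero, hr⟩
  have hqA : IsQ (C.T (hx 1 (rv s)) (hx 0 v) (hx 0 v)) := C.rat _ _ _ hr1 hv' hv'
  have hqB : IsQ (C.T (hx 0 v) (hx 0 v) (hx 0 v)) := C.rat _ _ _ hv' hv' hv'
  set a := C.T (hx 1 (rv s)) (hx 0 v) (hx 0 v) with ha
  set b := C.T (hx 0 v) (hx 0 v) (hx 0 v) with hb
  set t := -(3 * a / b) with ht
  have t0 : t ≠ 0 := neg_ne_zero.2 (div_ne_zero (mul_ne_zero (by norm_num) hA) hB)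
  have hqt : IsQ t := ((IsQ.mul ⟨3, by norm_num⟩ hqA).div hqB).neg
  have htb : t * b = -(3 * a) := by
    rw [ht]
    field_simp
  refine ⟨(kd_mem _).2 ⟨(IsRat.rv s).add (hr.smul hqt), ?_⟩, ?_⟩
  · rw [kd_expand hPC hs]
    simp only [kd_smul, map_smul, LinearMap.smul_apply, smul_eq_mul]
    rw [← ha, ← hb]
    have : 3 * (t * (t * a)) + t * (t * (t * b)) = t ^ 2 * (3 * a + t * b) := by ring
    rw [this, htb]
    ring
  · show C.T (hx 1 (rv s)) (hx 0 (rv s + t • v - rv s)) (hx 0 (rv s + t • v - rv s)) ≠ 0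
    rw [add_sub_cancel_left]
    simp only [kd_smul, map_smul, LinearMap.smul_apply, smul_eq_mul]
    rw [← ha]
    exact mul_ne_zero t0 (mul_ne_zero t0 hA)

theorem S2_real (hPC : ∀ x : Fin n → ℝ, (aeval x P : ℝ) = C.T (hx 1 x) (hx 1 x) (hx 1 x))
    {s : Fin n → ℚ} (hs : ∀ u, C.T (hx 1 (rv s)) (hx 1 (rv s)) u = 0) {y : Fin n → ℝ}
    (hy : (aeval y P : ℝ) = 0)
    (hA : C.T (hx 1 (rv s)) (hx 0 (y - rv s)) (hx 0 (y - rv s)) ≠ 0) : y ∈ closure (S2 P C s) := by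
  have hAc : Continuous fun v : Fin n → ℝ => C.T (hx 1 (rv s)) (hx 0 v) (hx 0 v) :=
    C.continuous_comp continuous_const (continuous_hx 0) (continuous_hx 0)
  have hBc : Continuous fun v : Fin n → ℝ => C.T (hx 0 v) (hx 0 v) (hx 0 v) :=
    C.continuous_comp (continuous_hx 0) (continuous_hx 0) (continuous_hx 0)
  set V : Set (Fin n → ℝ) := {v | C.T (hx 1 (rv s)) (hx 0 v) (hx 0 v) *
    C.T (hx 0 v) (hx 0 v) (hx 0 v) ≠ 0} with hV
  have hVo : IsOpen V := isOpen_ne_fun (hAc.mul hBc) continuous_const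
  set φ : (Fin n → ℝ) → Fin n → ℝ := fun v => rv s +
    (-(3 * C.T (hx 1 (rv s)) (hx 0 v) (hx 0 v) / C.T (hx 0 v) (hx 0 v) (hx 0 v))) • v with hφ
  have hφc : ContinuousOn φ V := by
    have h1 : ContinuousOn (fun v : Fin n → ℝ => 3 * C.T (hx 1 (rv s)) (hx 0 v) (hx 0 v) /
        C.T (hx 0 v) (hx 0 v) (hx 0 v)) V :=
      (continuous_const.mul hAc).continuousOn.div hBc.continuousOn
        (fun v hv => right_ne_zero_of_mul hv)
    exact continuousOn_const.add (h1.neg.smul continuousOn_id)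
  have h2 := kd_expand hPC hs (y - rv s)
  rw [add_sub_cancel, hy] at h2
  have hB : C.T (hx 0 (y - rv s)) (hx 0 (y - rv s)) (hx 0 (y - rv s)) =
      -(3 * C.T (hx 1 (rv s)) (hx 0 (y - rv s)) (hx 0 (y - rv s))) := by linarith
  have hA3 : 3 * C.T (hx 1 (rv s)) (hx 0 (y - rv s)) (hx 0 (y - rv s)) ≠ 0 :=
    mul_ne_zero (by norm_num) hA
  have hyV : y ∈ φ '' V := by
    refine ⟨y - rv s, ?_, ?_⟩
    · show _ * _ ≠ 0
      rw [hB]
      exact mul_ne_zero hA (neg_ne_zero.2 hA3)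
    · show rv s + (-(3 * C.T (hx 1 (rv s)) (hx 0 (y - rv s)) (hx 0 (y - rv s)) /
        C.T (hx 0 (y - rv s)) (hx 0 (y - rv s)) (hx 0 (y - rv s)))) • (y - rv s) = y
      rw [hB, div_neg, neg_neg, div_self hA3, one_smul]
      exact add_sub_cancel _ _
  refine closure_mono ?_ (image_subset_closure hVo hφc hyV)
  rintro _ ⟨v, ⟨hv, hvr⟩, rfl⟩
  exact kd_mem_S2 hPC hs hvr (left_ne_zero_of_mul hv) (right_ne_zero_of_mul hv)

/-- the quadratic form as a polynomial of degree at most two in the point -/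
private theorem kd_pol {s : Fin n → ℚ} (hs : ∀ u, C.T (hx 1 (rv s)) (hx 1 (rv s)) u = 0) :
    ∃ G : MvPolynomial (Fin n) ℚ, G.totalDegree ≤ 2 ∧ ∀ y : Fin n → ℝ,
      (aeval y G : ℝ) = C.T (hx 1 (rv s)) (hx 0 (y - rv s)) (hx 0 (y - rv s)) := by
  have hr1 : IsRat (hx 1 (rv s)) := isRat_hx.mpr ⟨IsQ.one, ⟨s, rfl⟩⟩
  obtain ⟨G, hG2, hG⟩ := C.polyQ₂ hr1
  refine ⟨aeval (Fin.cons 1 X : Fin (n + 1) → MvPolynomial (Fin n) ℚ) G,
    (totalDegree_dehom_le G).trans hG2, fun y => ?_⟩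
  have hG' : (aeval (hx 1 y) G : ℝ) = C.T (hx 1 (rv s)) (hx 1 y) (hx 1 y) := hG (hx 1 y)
  have e : (aeval y (aeval (Fin.cons 1 X : Fin (n + 1) → MvPolynomial (Fin n) ℚ) G) : ℝ) =
      aeval (hx 1 y) G := by
    rw [← AlgHom.comp_apply]
    congr 1
    apply MvPolynomial.algHom_ext
    intro i
    refine Fin.cases ?_ (fun j => ?_) i
    · simp [hx]
    · simp [hx]
  rw [e, hG']
  have e1 : hx 1 y = hx 1 (rv s) + hx 0 (y - rv s) := by
    rw [← hx_add, add_zero, add_sub_cancel]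
  have i1 : C.T (hx 1 (rv s)) (hx 0 (y - rv s)) (hx 1 (rv s)) = 0 := by rw [C.sym₂, hs]
  rw [e1]
  simp only [map_add, LinearMap.add_apply, i1, hs]
  ring

theorem S2_smooth (hP : Irreducible P) (h3 : P.totalDegree = 3)
    (hPC : ∀ x : Fin n → ℝ, (aeval x P : ℝ) = C.T (hx 1 x) (hx 1 x) (hx 1 x))
    {s : Fin n → ℚ} (hs : ∀ u, C.T (hx 1 (rv s)) (hx 1 (rv s)) u = 0)
    (hA : ∃ v, C.T (hx 1 (rv s)) (hx 0 v) (hx 0 v) ≠ 0) {y : Fin n → ℝ}
    (hy : (aeval y P : ℝ) = 0) (hsm : SmoothAt P y) : y ∈ closure (S2 P C s) := by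
  by_contra hcl
  obtain ⟨G, hG2, hG⟩ := kd_pol (C := C) hs
  have hev : ∀ᶠ z in 𝓝 y, (aeval z P : ℝ) = 0 → (aeval z G : ℝ) = 0 := by
    filter_upwards [isClosed_closure.isOpen_compl.mem_nhds hcl] with z hz hz0
    by_contra hne
    rw [hG] at hne
    exact hz (S2_real hPC hs hz0 hne)
  have hdvd := dvd_of_vanish hP hy hsm hev
  obtain ⟨v, hv⟩ := hA
  have hG0 : G ≠ 0 := by
    intro h
    apply hv
    have h1 := hG (rv s + v)
    rw [h, map_zero, add_sub_cancel_left] at h1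
    exact h1.symm
  have hdeg := totalDegree_le_of_dvd_of_isDomain hdvd hG0
  omega

theorem S2_ne (h3 : P.totalDegree = 3)
    (hPC : ∀ x : Fin n → ℝ, (aeval x P : ℝ) = C.T (hx 1 x) (hx 1 x) (hx 1 x))
    {s : Fin n → ℚ} (hs : ∀ u, C.T (hx 1 (rv s)) (hx 1 (rv s)) u = 0)
    (hA : ∃ v, C.T (hx 1 (rv s)) (hx 0 v) (hx 0 v) ≠ 0) : (S2 P C s).Nonempty := by
  obtain ⟨FA, hFA⟩ : PolyR n fun v => C.T (hx 1 (rv s)) (hx 0 v) (hx 0 v) :=
    C.polyR (fun i => PolyR.const _) kd_polyR0 kd_polyR0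
  obtain ⟨FB, hFB⟩ : PolyR n fun v => C.T (hx 0 v) (hx 0 v) (hx 0 v) :=
    C.polyR kd_polyR0 kd_polyR0 kd_polyR0
  have hFA0 : FA ≠ 0 := by
    obtain ⟨v, hv⟩ := hA
    intro h
    apply hv
    have h1 := hFA v
    rw [h, map_zero] at h1
    exact h1.symm
  have hFB0 : FB ≠ 0 := by
    intro h
    obtain ⟨G, hG2, hG⟩ := kd_pol (C := C) hs
    have hPG : P = MvPolynomial.C 3 * G := by
      apply MvPolynomial.funext
      intro q
      have h1 := kd_expand hPC hs (rv q - rv s)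
      rw [add_sub_cancel, aeval_rv, ← hG, aeval_rv] at h1
      have h2 := hFB (rv q - rv s)
      rw [h, map_zero] at h2
      beta_reduce at h2
      rw [← h2, add_zero] at h1
      rw [map_mul, eval_C]
      exact_mod_cast h1
    have h4 : P.totalDegree ≤ 2 := by
      rw [hPG]
      refine (totalDegree_mul _ _).trans ?_
      rw [totalDegree_C, zero_add]
      exact hG2
    omega
  obtain ⟨x, hx0⟩ : ∃ x : Fin n → ℝ, eval x (FA * FB) ≠ 0 := by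
    by_contra hne
    push Not at hne
    apply mul_ne_zero hFA0 hFB0
    apply MvPolynomial.funext
    intro q
    rw [hne q, map_zero]
  have hVo : IsOpen {v : Fin n → ℝ | eval v (FA * FB) ≠ 0} :=
    isOpen_ne_fun (MvPolynomial.continuous_eval _) continuous_const
  obtain ⟨v, hvV, hvr⟩ := dense_isRat.inter_open_nonempty _ hVo ⟨x, hx0⟩
  have h1 : eval v FA * eval v FB ≠ 0 := by
    rw [← map_mul]
    exact hvV
  rw [hFA, hFB] at h1
  exact ⟨_, kd_mem_S2 hPC hs hvr (left_ne_zero_of_mul h1) (right_ne_zero_of_mul h1)⟩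

end Pool.Agent.MZT
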