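import Pool.Agent.MZT.Kb
import Pool.Agent.MZT.Kd
import Pool.Agent.MZT.Ga
import Pool.Agent.MZT.Gc

/-!
# MZT module KE: irreducible cubics with a rational singular point: assembly

`tm_sing`. Case `A = 0` (`T ŝ v̂ v̂ = 0` for all `v`): `P (s + v) = T v̂ v̂ v̂`, so `tr s P` is homogeneous of degree 3 (its value at `t v` is `t³` times the
value at `v`; or compare with the cubic form of `C` restricted to `x₀ = 0`: `tr s P = sub0 0 C.pol` by evaluation at all real points, `IsHomogeneous`), `tm_tr`, `tm_cone` and `ih`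
(`sub0_deg`, `tr_deg`).
Case `A ≠ 0`: let `S₂ = S2 P C s` (`tm_S2`). If `QZ P ⊆ closure S₂`: `Tm.congr`. Otherwise there is a rational zero `x ∉ closure S₂`; it is not smooth (`S2_smooth`), so
`T x̂ x̂ u = 0` for all `u` (`smoothAt_chart`); the complement of `closure S₂` is a neighbourhood of `x` without smooth zeros (`S2_smooth`): `hU`; `S2_ne`: a point `y ∈ S₂` is a
smooth zero: `T ŷ ŷ ŝ = T ŝ v̂ v̂ ≠ 0`, `v = y - s` (`ŷ = ŝ + v̂`). Let `Λ = {x + v | v rational, T x̂ v̂ v̂ = 0}`: `Λ ⊆ QZ P` (`bad_b`, `bad_expand`, `aeval_rv`), `Tm Λ` by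
`Tm.affine` and `bad_lin`. Every rational zero `x'` is smooth (so in `closure S₂`) or in `Λ` (`bad_c`). So `closure (QZ P) = closure (S₂ ∪ Λ)`.
-/

set_option autoImplicit false

open Set Topology Filter MvPolynomial

namespace Pool.Agent.MZT

open Pool.Agent.MZ Pool.Agent.QTW

private theorem ke_QZF_one {n : ℕ} (P : MvPolynomial (Fin n) ℚ) :
    QZF (fun _ : Fin 1 => P) = QZ P := by
  ext x
  constructor
  · rintro ⟨q, h, rfl⟩
    exact ⟨q, h 0, rfl⟩
  · rintro ⟨q, h, rfl⟩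
    exact ⟨q, fun _ => h, rfl⟩

private theorem ke_eval_tr {n : ℕ} (s q : Fin n → ℚ) (P : MvPolynomial (Fin n) ℚ) :
    eval q (tr s P) = eval (s + q) P := by
  unfold tr
  induction P using MvPolynomial.induction_on with
  | C a => simp
  | add p r hp hr => simp only [map_add, hp, hr]
  | mul_X p i hp =>
    simp only [map_mul, hp, aeval_X, map_add, eval_X, eval_C, Pi.add_apply]
    ring

private theorem ke_eval_sub0 {n : ℕ} (q : Fin n → ℚ) (P : MvPolynomial (Fin (n + 1)) ℚ) :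
    eval q (sub0 0 P) = eval (Fin.cons 0 q : Fin (n + 1) → ℚ) P := by
  unfold sub0
  induction P using MvPolynomial.induction_on with
  | C a => simp
  | add p r hp hr => simp only [map_add, hp, hr]
  | mul_X p i hp =>
    simp only [map_mul, hp, aeval_X, eval_X]
    congr 1
    refine Fin.cases ?_ (fun j => ?_) i
    · simp
    · simp

private theorem ke_rv_cons {n : ℕ} (q : Fin n → ℚ) :
    rv (Fin.cons 0 q : Fin (n + 1) → ℚ) = hx 0 (rv q) := by
  funext i
  refine Fin.cases ?_ (fun j => ?_) i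
  · simp [rv, hx]
  · simp [rv, hx]

private theorem ke_rv_add {n : ℕ} (s q : Fin n → ℚ) : rv (s + q) = rv s + rv q := by
  funext i
  simp [rv]

private theorem ke_zero {n : ℕ} {P : MvPolynomial (Fin n) ℚ} {x : Fin n → ℝ} (hx : x ∈ QZ P) :
    (aeval x P : ℝ) = 0 := by
  obtain ⟨q, hq, rfl⟩ := hx
  rw [aeval_rv, hq, Rat.cast_zero]

/-- the cone case -/
private theorem ke_cone {n : ℕ} {P : MvPolynomial (Fin (n + 1)) ℚ}
    (h3 : P.totalDegree = 3) {C : Cub (n + 2)}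
    (hPC : ∀ x : Fin (n + 1) → ℝ, (aeval x P : ℝ) = C.T (hx 1 x) (hx 1 x) (hx 1 x))
    {s : Fin (n + 1) → ℚ} (hs : ∀ u, C.T (hx 1 (rv s)) (hx 1 (rv s)) u = 0)
    (hA : ∀ v, C.T (hx 1 (rv s)) (hx 0 v) (hx 0 v) = 0)
    (ih : ∀ P' : MvPolynomial (Fin n) ℚ, P'.totalDegree ≤ 3 → Tm (QZ P')) : Tm (QZ P) := by
  have hpol : tr s P = sub0 0 C.pol := by
    apply MvPolynomial.funext
    intro q
    have h1 : ((eval q (tr s P) : ℚ) : ℝ) = ((eval q (sub0 0 C.pol) : ℚ) : ℝ) := by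
      rw [ke_eval_tr, ke_eval_sub0, ← aeval_rv, ← aeval_rv, ke_rv_add, ke_rv_cons,
        bad_expand hPC hs, hA, C.pol_eval]
      ring
    exact_mod_cast h1
  have hhom : (tr s P).IsHomogeneous 3 := by
    rw [hpol]
    unfold sub0
    have h1 := C.hom.aeval (Fin.cons (MvPolynomial.C 0) X : Fin (n + 2) → MvPolynomial (Fin (n + 1)) ℚ)
      (n := 1) (fun i => by
        refine Fin.cases ?_ (fun j => ?_) i
        · simp only [Fin.cons_zero, map_zero]
          exact isHomogeneous_zero _ _ _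
        · simp only [Fin.cons_succ]
          exact isHomogeneous_X _ _)
    simpa using h1
  have hd : (tr s P).totalDegree ≤ 3 := (tr_deg s P).trans h3.le
  have h1 : Tm (QZF fun _ : Fin 1 => tr s P) := by
    apply tm_cone (fun _ : Fin 1 => tr s P) (fun _ => 3) (fun _ => hhom)
    · have := ih (sub0 1 (tr s P)) ((sub0_deg _ _).trans hd)
      rw [← ke_QZF_one] at this
      exact this
    · have := ih (sub0 0 (tr s P)) ((sub0_deg _ _).trans hd)
      rw [← ke_QZF_one] at this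
      exact this
  have h2 := tm_tr (fun _ : Fin 1 => P) s h1
  rw [ke_QZF_one] at h2
  exact h2

theorem tm_sing {n : ℕ} {P : MvPolynomial (Fin (n + 1)) ℚ} (hP : Irreducible P)
    (h3 : P.totalDegree = 3) {C : Cub (n + 2)}
    (hPC : ∀ x : Fin (n + 1) → ℝ, (aeval x P : ℝ) = C.T (hx 1 x) (hx 1 x) (hx 1 x))
    {s : Fin (n + 1) → ℚ} (hs : ∀ u, C.T (hx 1 (rv s)) (hx 1 (rv s)) u = 0)
    (ih : ∀ P' : MvPolynomial (Fin n) ℚ, P'.totalDegree ≤ 3 → Tm (QZ P')) : Tm (QZ P) := by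
  by_cases hA : ∀ v, C.T (hx 1 (rv s)) (hx 0 v) (hx 0 v) = 0
  · exact ke_cone h3 hPC hs hA ih
  push Not at hA
  have hT : Tm (S2 P C s) := tm_S2 hPC hs
  have hS2 : S2 P C s ⊆ QZ P := fun y hy => hy.1
  by_cases hsub : QZ P ⊆ closure (S2 P C s)
  · exact hT.congr (Subset.antisymm (closure_minimal hsub isClosed_closure) (closure_mono hS2))
  obtain ⟨x, hxQ, hxn⟩ := Set.not_subset.1 hsub
  have hx0 : (aeval x P : ℝ) = 0 := ke_zero hxQ
  have hsing : ∀ y : Fin (n + 1) → ℝ, (aeval y P : ℝ) = 0 → y ∉ closure (S2 P C s) →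
      ∀ u, C.T (hx 1 y) (hx 1 y) u = 0 := by
    intro y hy hyn
    by_contra hcon
    push Not at hcon
    exact hyn (S2_smooth hP h3 hPC hs hA hy ((smoothAt_chart hPC hy).2 hcon))
  have hsx := hsing x hx0 hxn
  have hU : ∀ᶠ y in 𝓝 x, (aeval y P : ℝ) = 0 → ∀ u, C.T (hx 1 y) (hx 1 y) u = 0 := by
    filter_upwards [isClosed_closure.isOpen_compl.mem_nhds hxn] with y hy h0
    exact hsing y h0 hy
  have hne : ∃ y : Fin (n + 1) → ℝ, (aeval y P : ℝ) = 0 ∧ ∃ u, C.T (hx 1 y) (hx 1 y) u ≠ 0 := by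
    obtain ⟨y, hyQ, hyA⟩ := S2_ne h3 hPC hs hA
    refine ⟨y, ke_zero hyQ, hx 1 (rv s), ?_⟩
    have e : hx 1 y = hx 1 (rv s) + hx 0 (y - rv s) := by
      rw [← hx_add, add_zero, add_sub_cancel]
    have i1 : C.T (hx 1 (rv s)) (hx 0 (y - rv s)) (hx 1 (rv s)) = 0 := by
      rw [C.sym₂, hs]
    have i2 : C.T (hx 0 (y - rv s)) (hx 1 (rv s)) (hx 1 (rv s)) = 0 := by
      rw [C.sym₁, i1]
    have i4 : C.T (hx 0 (y - rv s)) (hx 0 (y - rv s)) (hx 1 (rv s)) =
        C.T (hx 1 (rv s)) (hx 0 (y - rv s)) (hx 0 (y - rv s)) := by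
      rw [C.sym₂, C.sym₁]
    rw [e]
    simp only [map_add, LinearMap.add_apply, hs, i1, i2, i4, zero_add]
    exact hyA
  have ha := bad_a hPC hsx hU
  set L : Set (Fin (n + 1) → ℝ) :=
    {z | IsRat z ∧ C.T (hx 1 x) (hx 0 (z - x)) (hx 0 (z - x)) = 0} with hL
  have hxR : IsRat x := by
    obtain ⟨q, -, rfl⟩ := hxQ
    exact ⟨q, rfl⟩
  have hLQ : L ⊆ QZ P := by
    rintro z ⟨⟨q, rfl⟩, hz⟩
    refine ⟨q, ?_, rfl⟩
    have h1 := bad_b hPC hsx hU hne hz
    have h2 := bad_expand hPC hsx (rv q - x)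
    rw [add_sub_cancel, hz, h1, mul_zero, add_zero, aeval_rv] at h2
    exact_mod_cast h2
  have hTL : Tm L := by
    apply Tm.affine (fun z hz => hz.1)
    rintro z ⟨hz1, hz2⟩ y ⟨hy1, hy2⟩ t
    refine ⟨hz1.add (IsRat.smul (IsQ.cast t) (hy1.sub hz1)), ?_⟩
    have h1 : z + (t : ℝ) • (y - z) - x = (1 - (t : ℝ)) • (z - x) + (t : ℝ) • (y - x) := by
      module
    rw [h1]
    exact bad_lin ha hz2 hy2 _ _
  refine (hT.union hTL).congr (Subset.antisymm ?_ ?_)
  · apply closure_minimal _ isClosed_closure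
    intro y hy
    have hy0 := ke_zero hy
    by_cases hyc : y ∈ closure (S2 P C s)
    · exact closure_mono Set.subset_union_left hyc
    · apply subset_closure
      right
      refine ⟨?_, bad_c hsx (hsing y hy0 hyc)⟩
      obtain ⟨q, -, rfl⟩ := hy
      exact ⟨q, rfl⟩
  · exact closure_mono (Set.union_subset hS2 hLQ)

end Pool.Agent.MZT
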