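import Pool.Agent.MZT.Fb
import Pool.Agent.MZT.Fc
import Pool.Agent.MZT.Fd

/-!
# MZT module GB: cones, cylinders, translations, hyperplane sections
-/

set_option autoImplicit false

open Set Topology Filter MvPolynomial

namespace Pool.Agent.MZT

open Pool.Agent.MZ Pool.Agent.QTW

private theorem gb_ev {n m : ℕ} (g : Fin m → MvPolynomial (Fin n) ℚ) (F : MvPolynomial (Fin m) ℚ)
    (q : Fin n → ℚ) : eval q (aeval g F) = eval (fun i => eval q (g i)) F := by
  induction F using MvPolynomial.induction_on with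
  | C a => simp [aeval_C]
  | add p r hp hr => simp only [map_add, hp, hr]
  | mul_X p i hp => simp only [map_mul, hp, aeval_X, eval_X]

private theorem gb_sub0 {n : ℕ} (a : ℚ) (F : MvPolynomial (Fin (n + 1)) ℚ) (q : Fin n → ℚ) :
    eval q (sub0 a F) = eval (Fin.cons a q : Fin (n + 1) → ℚ) F := by
  unfold sub0
  rw [gb_ev]
  congr 2
  funext i
  refine Fin.cases ?_ (fun i => ?_) i
  · simp
  · simp

private theorem gb_hom {n d : ℕ} {P : MvPolynomial (Fin n) ℚ} (hP : P.IsHomogeneous d)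
    (w : Fin n → ℚ) (t : ℚ) : eval (fun j => t * w j) P = eval w P * t ^ d := by
  rw [eval_eq, eval_eq, Finset.sum_mul]
  refine Finset.sum_congr rfl fun e he => ?_
  have h1 : ∑ i ∈ e.support, e i = d := by
    have h2 := hP (mem_support_iff.1 he)
    rw [Finsupp.weight_apply] at h2
    simpa [Finsupp.sum] using h2
  simp_rw [mul_pow]
  rw [Finset.prod_mul_distrib, Finset.prod_pow_eq_pow_sum, h1]
  ring

/-- `ℚ` times a set -/
private def gbP {n : ℕ} (S : Set (Fin n → ℝ)) : Set (Fin 1 ⊕ Fin n → ℝ) :=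
  {z | (fun a => z (Sum.inl a)) ∈ {x : Fin 1 → ℝ | IsRat x} ∧ (fun b => z (Sum.inr b)) ∈ S}

private theorem gbP_tm {n : ℕ} {S : Set (Fin n → ℝ)} (h : Tm S) : Tm (gbP S) :=
  Tm.prod Tm.ratpts h

theorem tm_cone {n k : ℕ} (F : Fin k → MvPolynomial (Fin (n + 1)) ℚ) (d : Fin k → ℕ)
    (hF : ∀ j, (F j).IsHomogeneous (d j)) (h1 : Tm (QZF fun j => sub0 1 (F j)))
    (h0 : Tm (QZF fun j => sub0 0 (F j))) : Tm (QZF F) := by
  have a1 := ((gbP_tm h1).restrict (X (Sum.inl 0))).image
    (Fin.cons (X (Sum.inl 0)) (fun i => X (Sum.inl 0) * X (Sum.inr i)) :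
      Fin (n + 1) → MvPolynomial (Fin 1 ⊕ Fin n) ℝ)
  have a0 := h0.image (Fin.cons 0 X : Fin (n + 1) → MvPolynomial (Fin n) ℝ)
  have hS : QZF F = (pm (Fin.cons (X (Sum.inl 0)) (fun i => X (Sum.inl 0) * X (Sum.inr i)) :
      Fin (n + 1) → MvPolynomial (Fin 1 ⊕ Fin n) ℝ) '' {x | x ∈ gbP (QZF fun j => sub0 1 (F j)) ∧
        eval x (X (Sum.inl 0)) ≠ 0}) ∪
      (pm (Fin.cons 0 X : Fin (n + 1) → MvPolynomial (Fin n) ℝ) '' (QZF fun j => sub0 0 (F j))) := by
    ext x
    constructor
    · rintro ⟨q, hq, rfl⟩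
      by_cases h : q 0 = 0
      · right
        refine ⟨rv (fun i => q i.succ), ⟨fun i => q i.succ, fun j => ?_, rfl⟩, ?_⟩
        · rw [gb_sub0]
          have e : (Fin.cons 0 (fun i => q i.succ) : Fin (n + 1) → ℚ) = q := by
            funext i
            refine Fin.cases ?_ (fun i => ?_) i
            · simp [h]
            · simp
          rw [e]
          exact hq j
        · funext i
          refine Fin.cases ?_ (fun i => ?_) i
          · simp [pm, rv, h]
          · simp [pm, rv]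
      · left
        refine ⟨Sum.elim (fun _ => ((q 0 : ℚ) : ℝ)) (rv fun i => q i.succ / q 0),
          ⟨⟨⟨fun _ => q 0, rfl⟩, ⟨fun i => q i.succ / q 0, fun j => ?_, rfl⟩⟩, ?_⟩, ?_⟩
        · rw [gb_sub0]
          have e : q = fun i => q 0 * (Fin.cons 1 (fun i => q i.succ / q 0) : Fin (n + 1) → ℚ) i := by
            funext i
            refine Fin.cases ?_ (fun i => ?_) i
            · simp
            · simp only [Fin.cons_succ]
              field_simp
          have e2 := gb_hom (hF j) (Fin.cons 1 (fun i => q i.succ / q 0) : Fin (n + 1) → ℚ) (q 0)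
          rw [← e, hq j] at e2
          rcases mul_eq_zero.1 e2.symm with e3 | e3
          · exact e3
          · exact absurd e3 (pow_ne_zero _ h)
        · simp only [eval_X, Sum.elim_inl]
          exact_mod_cast h
        · funext i
          refine Fin.cases ?_ (fun i => ?_) i
          · simp [pm, rv]
          · simp only [pm, rv, Fin.cons_succ, map_mul, eval_X, Sum.elim_inl, Sum.elim_inr]
            push_cast
            have h' : ((q 0 : ℚ) : ℝ) ≠ 0 := by exact_mod_cast h
            field_simp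
    · rintro (⟨z, ⟨⟨⟨t, ht⟩, ⟨q, hq, hz⟩⟩, h⟩, rfl⟩ | ⟨z, ⟨q, hq, rfl⟩, rfl⟩)
      · have ht0 : z (Sum.inl 0) = ((t 0 : ℚ) : ℝ) := congrFun ht 0
        refine ⟨fun i => t 0 * (Fin.cons 1 q : Fin (n + 1) → ℚ) i, fun j => ?_, ?_⟩
        · rw [gb_hom (hF j), ← gb_sub0, hq j, zero_mul]
        · funext i
          refine Fin.cases ?_ (fun i => ?_) i
          · simp [pm, rv, ht0]
          · have hz' : z (Sum.inr i) = ((q i : ℚ) : ℝ) := congrFun hz i
            simp [pm, rv, ht0, hz']
      · refine ⟨(Fin.cons 0 q : Fin (n + 1) → ℚ), fun j => ?_, ?_⟩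
        · rw [← gb_sub0]
          exact hq j
        · funext i
          refine Fin.cases ?_ (fun i => ?_) i
          · simp [pm, rv]
          · simp [pm, rv]
  rw [hS]
  exact a1.union a0

theorem tm_cyl {n k : ℕ} (F : Fin k → MvPolynomial (Fin n) ℚ) (h : Tm (QZF F)) :
    Tm (QZF fun j => rename Fin.succ (F j)) := by
  have a1 := (gbP_tm h).image (Fin.cons (X (Sum.inl 0)) (fun i => X (Sum.inr i)) :
      Fin (n + 1) → MvPolynomial (Fin 1 ⊕ Fin n) ℝ)
  have hS : (QZF fun j => rename Fin.succ (F j)) =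
      pm (Fin.cons (X (Sum.inl 0)) (fun i => X (Sum.inr i)) :
      Fin (n + 1) → MvPolynomial (Fin 1 ⊕ Fin n) ℝ) '' gbP (QZF F) := by
    ext x
    constructor
    · rintro ⟨q, hq, rfl⟩
      refine ⟨Sum.elim (fun _ => ((q 0 : ℚ) : ℝ)) (rv fun i => q i.succ),
        ⟨⟨fun _ => q 0, rfl⟩, ⟨fun i => q i.succ, fun j => ?_, rfl⟩⟩, ?_⟩
      · have := hq j
        rw [eval_rename] at this
        exact this
      · funext i
        refine Fin.cases ?_ (fun i => ?_) i
        · simp [pm, rv]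
        · simp [pm, rv]
    · rintro ⟨z, ⟨⟨t, ht⟩, ⟨q, hq, hz⟩⟩, rfl⟩
      have ht0 : z (Sum.inl 0) = ((t 0 : ℚ) : ℝ) := congrFun ht 0
      refine ⟨(Fin.cons (t 0) q : Fin (n + 1) → ℚ), fun j => ?_, ?_⟩
      · rw [eval_rename]
        have e : (Fin.cons (t 0) q : Fin (n + 1) → ℚ) ∘ Fin.succ = q := by
          funext i
          simp
        rw [e]
        exact hq j
      · funext i
        refine Fin.cases ?_ (fun i => ?_) i
        · simp [pm, rv, ht0]
        · have hz' : z (Sum.inr i) = ((q i : ℚ) : ℝ) := congrFun hz i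
          simp [pm, rv, hz']
  rw [hS]
  exact a1

private theorem gb_tr {n : ℕ} (s : Fin n → ℚ) (F : MvPolynomial (Fin n) ℚ) (q : Fin n → ℚ) :
    eval q (tr s F) = eval (fun i => q i + s i) F := by
  unfold tr
  rw [gb_ev]
  congr 2
  funext i
  simp

theorem tm_tr {n k : ℕ} (F : Fin k → MvPolynomial (Fin n) ℚ) (s : Fin n → ℚ)
    (h : Tm (QZF fun j => tr s (F j))) : Tm (QZF F) := by
  have a1 := h.image (fun i => X i + C ((s i : ℚ) : ℝ) : Fin n → MvPolynomial (Fin n) ℝ)
  have hS : QZF F = pm (fun i => X i + C ((s i : ℚ) : ℝ) : Fin n → MvPolynomial (Fin n) ℝ) ''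
      (QZF fun j => tr s (F j)) := by
    ext x
    constructor
    · rintro ⟨q, hq, rfl⟩
      refine ⟨rv (fun i => q i - s i), ⟨fun i => q i - s i, fun j => ?_, rfl⟩, ?_⟩
      · rw [gb_tr]
        have e : (fun i => q i - s i + s i) = q := by
          funext i
          ring
        rw [e]
        exact hq j
      · funext i
        simp [pm, rv]
    · rintro ⟨z, ⟨q, hq, rfl⟩, rfl⟩
      refine ⟨fun i => q i + s i, fun j => ?_, ?_⟩
      · rw [← gb_tr]
        exact hq j
      · funext i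
        simp [pm, rv]
  rw [hS]
  exact a1

end Pool.Agent.MZT
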