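import Pool.Agent.MZT.Fa
import Pool.Agent.MZT.Fb
import Pool.Agent.MZT.Gb
import Pool.Agent.MZT.Gc

/-!
# MZT module LA: a rational singular point at infinity

Copy the proofs of `MZ/LinDir.lean`, `MZ/InvDir.lean`, `fc_infinity` (`MZ/Main.lean`).
`tm_lindir`: `A = {P = 0, R ≠ 0}` satisfies `A ⊆ closure (QZ P)`, `QZ P ⊆ closure A` (proof of `fc_lindir`), and it is `SC` (`Bsa.zero`, `sc_ne` of `Fa.lean` for the real
polynomials `map (algebraMap ℚ ℝ) P`, `R`): `Tm.of_SC`.
`tm_invdir`: as in `fc_invdir`, `QZ P` is the image of `{(z, t) | z ∈ QZ P', t rational}` (`Tm.prod` with `Tm.ratpts (n := 1)`, `Tm.image`; or `tm_cyl` and a linear map).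
-/

set_option autoImplicit false

open Set Topology Filter MvPolynomial

namespace Pool.Agent.MZT

open Pool.Agent.MZ Pool.Agent.QTW

private theorem la_ev_map {n : ℕ} (f : MvPolynomial (Fin n) ℚ) (x : Fin n → ℝ) :
    eval x (map (algebraMap ℚ ℝ) f) = aeval x f := by
  rw [eval_map]
  rfl

theorem tm_lindir {n : ℕ} {P R : MvPolynomial (Fin n) ℚ} (hP : Irreducible P) (hR : R ≠ 0)
    (hdeg : R.totalDegree < P.totalDegree) {s : Fin n → ℚ}
    (hlin : ∀ (x : Fin n → ℝ) (t : ℝ),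
      (aeval (x + t • rv s) P : ℝ) = aeval x P + t * aeval x R)
    (hsm : ∀ q : Fin n → ℚ, eval q P = 0 → SmoothAt P (rv q)) :
    Tm (QZ P) := by
  -- the values of `R` are constant in the direction `s`
  have hRs : ∀ (x : Fin n → ℝ) (t : ℝ), (aeval (x + t • rv s) R : ℝ) = aeval x R := by
    intro x t
    have h1 := hlin x (t + 1)
    have h2 := hlin (x + t • rv s) 1
    have h3 := hlin x t
    have h4 : x + t • rv s + (1 : ℝ) • rv s = x + (t + 1) • rv s := by
      rw [add_smul, add_assoc]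
    rw [h4, h1, h3] at h2
    linarith
  have hPc : Continuous fun x : Fin n → ℝ => (aeval x P : ℝ) := (PolyR.of_aeval P).continuous
  have hRc : Continuous fun x : Fin n → ℝ => (aeval x R : ℝ) := (PolyR.of_aeval R).continuous
  set V : Set (Fin n → ℝ) := {x | (aeval x R : ℝ) ≠ 0} with hV
  have hVo : IsOpen V := isOpen_ne.preimage hRc
  set φ : (Fin n → ℝ) → (Fin n → ℝ) :=
    fun x => x - ((aeval x P : ℝ) / aeval x R) • rv s with hφ
  have hφc : ContinuousOn φ V :=
    continuousOn_id.sub ((hPc.continuousOn.div hRc.continuousOn fun x hx => hx).smul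
      continuousOn_const)
  have hφe : ∀ x, φ x = x + (-((aeval x P : ℝ) / aeval x R)) • rv s := by
    intro x
    rw [hφ]
    simp only [neg_smul, sub_eq_add_neg]
  have hφP : ∀ x ∈ V, (aeval (φ x) P : ℝ) = 0 := by
    intro x hx
    rw [hφe, hlin, neg_mul, div_mul_cancel₀ _ hx, add_neg_cancel]
  have hφR : ∀ x, (aeval (φ x) R : ℝ) = aeval x R := by
    intro x
    rw [hφe, hRs]
  set A : Set (Fin n → ℝ) := {x | (aeval x P : ℝ) = 0 ∧ (aeval x R : ℝ) ≠ 0} with hA
  have hAV : A = φ '' V := by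
    apply Set.Subset.antisymm
    · rintro x ⟨hx1, hx2⟩
      refine ⟨x, hx2, ?_⟩
      rw [hφ]
      simp only [hx1, zero_div, zero_smul, sub_zero]
    · rintro _ ⟨x, hx, rfl⟩
      refine ⟨hφP x hx, ?_⟩
      rw [hφR]
      exact hx
  have hAS : SC A := by
    have e : A = {x : Fin n → ℝ | eval x (map (algebraMap ℚ ℝ) P) = 0} ∩
        {x : Fin n → ℝ | eval x (map (algebraMap ℚ ℝ) R) ≠ 0} := by
      ext x
      rw [hA]
      simp only [mem_inter_iff, mem_ofPred_eq, la_ev_map]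
    rw [e]
    exact (Bsa.zero _).sc.toSC.inter (sc_ne1 _)
  have h1 : A ⊆ closure (QZ P) := by
    rw [hAV]
    refine (image_subset_closure hVo hφc).trans (closure_mono ?_)
    rintro _ ⟨x, ⟨hxV, q, rfl⟩, rfl⟩
    have h2 : φ (rv q) = rv (q - (eval q P / eval q R) • s) := by
      rw [hφ]
      simp only [aeval_rv]
      funext i
      simp [rv]
    refine ⟨_, ?_, h2⟩
    have h3 := hφP _ hxV
    rw [h2, aeval_rv] at h3
    exact_mod_cast h3
  have h2 : QZ P ⊆ closure A := by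
    rintro _ ⟨q, hq, rfl⟩
    by_contra hn
    have h3 : ∀ᶠ x in 𝓝 (rv q), (aeval x P : ℝ) = 0 → (aeval x R : ℝ) = 0 := by
      have h4 : (closure A)ᶜ ∈ 𝓝 (rv q) := isClosed_closure.isOpen_compl.mem_nhds hn
      filter_upwards [h4] with x hx hx1
      by_contra hx2
      exact hx (subset_closure ⟨hx1, hx2⟩)
    have h4 : (aeval (rv q) P : ℝ) = 0 := by
      rw [aeval_rv, hq, Rat.cast_zero]
    obtain ⟨Q, hQ⟩ := dvd_of_vanish hP h4 (hsm q hq) h3
    have hQ0 : Q ≠ 0 := by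
      rintro rfl
      exact hR (by rw [hQ, mul_zero])
    have h5 := MvPolynomial.totalDegree_mul_of_isDomain hP.ne_zero hQ0
    rw [← hQ] at h5
    omega
  exact Tm.of_SC hAS h1 h2

/-- Substitution of polynomials of degree at most one does not increase the degree. -/
private theorem invdir_deg {n k : ℕ} (g : Fin k → MvPolynomial (Fin n) ℚ)
    (hg : ∀ j, (g j).totalDegree ≤ 1) (P : MvPolynomial (Fin k) ℚ) :
    (aeval g P).totalDegree ≤ P.totalDegree := by
  rw [aeval_def, eval₂_eq']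
  refine totalDegree_finsetSum_le fun d hd => ?_
  refine (totalDegree_mul _ _).trans ?_
  have h1 : (algebraMap ℚ (MvPolynomial (Fin n) ℚ) (coeff d P)).totalDegree = 0 := by
    rw [algebraMap_eq, totalDegree_C]
  rw [h1, zero_add]
  refine (totalDegree_finsetProd _ _).trans ?_
  have h2 : ∑ j, (g j ^ d j).totalDegree ≤ ∑ j, d j := by
    refine Finset.sum_le_sum fun j _ => (totalDegree_pow _ _).trans ?_
    calc d j * (g j).totalDegree ≤ d j * 1 := Nat.mul_le_mul_left _ (hg j)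
      _ = d j := mul_one _
  refine h2.trans ?_
  have h3 : ∑ j, d j = d.sum fun _ e => e :=
    (Finsupp.sum_fintype d (fun _ e => e) fun _ => rfl).symm
  rw [h3]
  exact le_totalDegree hd

theorem tm_invdir {n : ℕ} {P : MvPolynomial (Fin (n + 1)) ℚ} {s : Fin (n + 1) → ℚ} (hs : s ≠ 0)
    (hinv : ∀ (x : Fin (n + 1) → ℝ) (t : ℝ), (aeval (x + t • rv s) P : ℝ) = aeval x P)
    (ih : ∀ P' : MvPolynomial (Fin n) ℚ, P'.totalDegree ≤ P.totalDegree → Tm (QZ P')) :
    Tm (QZ P) := by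
  obtain ⟨i, hi⟩ : ∃ i, s i ≠ 0 := by
    by_contra hcon
    push Not at hcon
    exact hs (funext hcon)
  set g : Fin (n + 1) → MvPolynomial (Fin n) ℚ := i.insertNth 0 X with hg
  have hgi : g i = 0 := by rw [hg, Fin.insertNth_apply_same]
  have hgj : ∀ j : Fin n, g (i.succAbove j) = X j := fun j => by
    rw [hg, Fin.insertNth_apply_succAbove]
  have hg1 : ∀ j, (g j).totalDegree ≤ 1 := by
    intro j
    rcases Fin.eq_self_or_eq_succAbove i j with rfl | ⟨j, rfl⟩
    · rw [hgi, totalDegree_zero]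
      exact Nat.zero_le 1
    · rw [hgj, totalDegree_X]
  set P' : MvPolynomial (Fin n) ℚ := aeval g P with hP'
  have hTm := ih P' (invdir_deg g hg1 P)
  have hev : ∀ z : Fin n → ℝ, (aeval z P' : ℝ) = aeval (i.insertNth (0 : ℝ) z : Fin (n + 1) → ℝ) P := by
    intro z
    rw [hP']
    have h1 : (aeval z : MvPolynomial (Fin n) ℚ →ₐ[ℚ] ℝ) (aeval g P) =
        ((aeval z : MvPolynomial (Fin n) ℚ →ₐ[ℚ] ℝ).comp (aeval g)) P := rfl
    rw [h1, comp_aeval]
    congr 2
    funext j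
    rcases Fin.eq_self_or_eq_succAbove i j with rfl | ⟨j, rfl⟩
    · rw [hgi, map_zero, Fin.insertNth_apply_same]
    · rw [hgj, aeval_X, Fin.insertNth_apply_succAbove]
  set Φ : (Fin n → ℝ) × ℝ → (Fin (n + 1) → ℝ) := fun p =>
    (i.insertNth (0 : ℝ) p.1 : Fin (n + 1) → ℝ) + p.2 • rv s with hΦ
  have hΦc : Continuous Φ := by
    have h1 : Continuous fun p : (Fin n → ℝ) × ℝ => (i.insertNth (0 : ℝ) p.1 : Fin (n + 1) → ℝ) :=
      Continuous.finInsertNth i continuous_const continuous_fst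
    exact h1.add (continuous_snd.smul continuous_const)
  have hΦe : ∀ z t, (aeval (Φ (z, t)) P : ℝ) = aeval z P' := by
    intro z t
    rw [hΦ, hev]
    exact hinv _ _
  have hQZ : QZ P = Φ '' (QZ P' ×ˢ {t | IsQ t}) := by
    apply Set.Subset.antisymm
    · rintro _ ⟨q, hq, rfl⟩
      have hsi : (s i : ℝ) ≠ 0 := by exact_mod_cast hi
      have hx : Φ (rv (fun j => q (i.succAbove j) - q i / s i * s (i.succAbove j)),
          ((q i / s i : ℚ) : ℝ)) = rv q := by
        funext j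
        rcases Fin.eq_self_or_eq_succAbove i j with rfl | ⟨j, rfl⟩
        · simp only [hΦ, Pi.add_apply, Fin.insertNth_apply_same, Pi.smul_apply, smul_eq_mul, rv]
          push_cast
          field_simp
          ring
        · simp only [hΦ, Pi.add_apply, Fin.insertNth_apply_succAbove, Pi.smul_apply, smul_eq_mul,
            rv]
          push_cast
          ring
      refine ⟨_, ⟨⟨_, ?_, rfl⟩, ⟨q i / s i, rfl⟩⟩, hx⟩
      have h1 := hΦe (rv (fun j => q (i.succAbove j) - q i / s i * s (i.succAbove j)))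
        ((q i / s i : ℚ) : ℝ)
      rw [hx, aeval_rv, aeval_rv, hq] at h1
      exact_mod_cast h1.symm
    · rintro _ ⟨⟨z, t⟩, ⟨⟨q, hq, rfl⟩, ⟨r, rfl⟩⟩, rfl⟩
      have hx : Φ (rv q, (r : ℝ)) = rv ((i.insertNth 0 q : Fin (n + 1) → ℚ) + r • s) := by
        funext j
        rcases Fin.eq_self_or_eq_succAbove i j with rfl | ⟨j, rfl⟩
        · simp only [hΦ, Pi.add_apply, Fin.insertNth_apply_same, Pi.smul_apply, smul_eq_mul, rv]
          push_cast
          ring
        · simp only [hΦ, Pi.add_apply, Fin.insertNth_apply_succAbove, Pi.smul_apply, smul_eq_mul,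
            rv]
          push_cast
          ring
      refine ⟨_, ?_, hx⟩
      have h1 := hΦe (rv q) (r : ℝ)
      rw [hx, aeval_rv, aeval_rv, hq] at h1
      exact_mod_cast h1
  have hT := hTm.prod (Tm.ratpts (n := 1))
  have hI := hT.image (fun a : Fin (n + 1) =>
    (i.insertNth 0 (fun j => X (Sum.inl j)) : Fin (n + 1) → MvPolynomial (Fin n ⊕ Fin 1) ℝ) a +
      C ((s a : ℚ) : ℝ) * X (Sum.inr 0))
  have hpm : ∀ z : Fin n ⊕ Fin 1 → ℝ, pm (fun a : Fin (n + 1) =>
      (i.insertNth 0 (fun j => X (Sum.inl j)) : Fin (n + 1) → MvPolynomial (Fin n ⊕ Fin 1) ℝ) a +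
      C ((s a : ℚ) : ℝ) * X (Sum.inr 0)) z = Φ (fun j => z (Sum.inl j), z (Sum.inr 0)) := by
    intro z
    funext a
    rcases Fin.eq_self_or_eq_succAbove i a with rfl | ⟨j, rfl⟩
    · simp [pm, hΦ, rv, mul_comm]
    · simp [pm, hΦ, rv, mul_comm]
  have he : QZ P = pm (fun a : Fin (n + 1) =>
      (i.insertNth 0 (fun j => X (Sum.inl j)) : Fin (n + 1) → MvPolynomial (Fin n ⊕ Fin 1) ℝ) a +
      C ((s a : ℚ) : ℝ) * X (Sum.inr 0)) '' {z : Fin n ⊕ Fin 1 → ℝ |
        (fun a => z (Sum.inl a)) ∈ QZ P' ∧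
          (fun b => z (Sum.inr b)) ∈ {x : Fin 1 → ℝ | IsRat x}} := by
    rw [hQZ]
    apply Set.Subset.antisymm
    · rintro _ ⟨⟨z, t⟩, ⟨hz, ⟨r, hr⟩⟩, rfl⟩
      refine ⟨Sum.elim z (fun _ => t), ⟨hz, ⟨fun _ => r, ?_⟩⟩, ?_⟩
      · funext b
        exact hr
      · rw [hpm]
        rfl
    · rintro _ ⟨z, ⟨hz1, ⟨r, hr⟩⟩, rfl⟩
      rw [hpm]
      refine ⟨(fun j => z (Sum.inl j), z (Sum.inr 0)), ⟨hz1, ⟨r 0, ?_⟩⟩, rfl⟩
      exact congrFun hr 0
  rw [he]
  exact hI

end Pool.Agent.MZT
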