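import Pool.Agent.MZT.Lb

/-!
# MZT module LC: `O` empty (plan in `Lb.lean`)
-/

set_option autoImplicit false

open Set Topology Filter MvPolynomial

namespace Pool.Agent.MZT

open Pool.Agent.MZ Pool.Agent.QTW

private theorem lc_xyx {m : ℕ} (C : Cub m) (x y : Fin m → ℝ) : C.T x y x = C.T x x y := C.sym₂ x y x

private theorem lc_yxx {m : ℕ} (C : Cub m) (x y : Fin m → ℝ) : C.T y x x = C.T x x y := by
  rw [C.sym₁ y x x, C.sym₂ x y x]

private theorem lc_yyx {m : ℕ} (C : Cub m) (x y : Fin m → ℝ) : C.T y y x = C.T x y y := by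
  rw [C.sym₂ y y x, C.sym₁ y x y]

theorem tm_typeE {m : ℕ} {C : Cub m} (hns : C.NoSing)
    (hE : ∀ p, IsRat p → C.T p p p = 0 → ∀ v, C.T p p v = 0 → C.T p v v = 0)
    (ell : (Fin m → ℝ) →ₗ[ℝ] ℝ) : Tm (C.XQ ∩ {x | ell x = 1}) := by
  by_cases h : ∃ p ∈ C.XQ, ∃ p' ∈ C.XQ, C.T p p p' ≠ 0
  · obtain ⟨p, hp, p', hp', hb⟩ := h
    have ha := Cub.typeE_a hE hp' hb
    set r := p - (C.T p p p' / C.T p' p' p) • p' with hr
    have hsub : C.XQ ∩ {x | ell x = 1} ⊆
        {(ell p')⁻¹ • p', (ell p)⁻¹ • p, (ell r)⁻¹ • r} := by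
      rintro y ⟨hy, hy1⟩
      obtain ⟨s, s', hys, hss⟩ := Cub.no_three_lines hns hE hp hp' hb hy
      have hl : ell y = 1 := hy1
      simp only [Set.mem_insert_iff, Set.mem_singleton_iff]
      rcases mul_eq_zero.1 hss with h1 | h1
      · rcases mul_eq_zero.1 h1 with h2 | h2
        · left
          rw [h2, zero_smul, zero_add] at hys
          rw [hys, map_smul, smul_eq_mul] at hl
          rw [hys]
          congr 1
          exact eq_inv_of_mul_eq_one_left hl
        · right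
          left
          rw [h2, zero_smul, add_zero] at hys
          rw [hys, map_smul, smul_eq_mul] at hl
          rw [hys]
          congr 1
          exact eq_inv_of_mul_eq_one_left hl
      · right
        right
        have h3 : s' = -(C.T p p p' / C.T p' p' p) * s := by
          field_simp
          linarith
        have h4 : y = s • r := by
          rw [hys, h3, hr, smul_sub, smul_smul, sub_eq_add_neg, ← neg_smul]
          congr 2
          ring
        rw [h4, map_smul, smul_eq_mul] at hl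
        rw [h4]
        congr 1
        exact eq_inv_of_mul_eq_one_left hl
    have hfin : (C.XQ ∩ {x | ell x = 1}).Finite :=
      Set.Finite.subset (by simp) hsub
    exact Tm.of_finite hfin
  · push Not at h
    apply Tm.affine (fun x hx => hx.1.1)
    intro s hs y hy t
    have h1 := h s hs.1 y hy.1
    have h2 := h y hy.1 s hs.1
    rw [lc_yyx C s y] at h2
    refine ⟨⟨?_, ?_⟩, ?_⟩
    · exact hs.1.1.add (IsRat.smul (IsQ.cast t) (hy.1.1.sub hs.1.1))
    · simp only [map_add, map_sub, map_smul, LinearMap.add_apply, LinearMap.sub_apply,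
        LinearMap.smul_apply, smul_eq_mul]
      rw [lc_xyx C s y, lc_yxx C s y, C.sym₁ y s y, lc_yyx C s y, h1, h2, hs.1.2, hy.1.2]
      ring
    · have h3 : ell s = 1 := hs.2
      have h4 : ell y = 1 := hy.2
      change ell (s + (t : ℝ) • (y - s)) = 1
      rw [map_add, map_smul, map_sub, h3, h4, sub_self, smul_zero, add_zero]

theorem tm_typeN {m : ℕ} {C : Cub m} (hm : 4 ≤ m) (hirr : Irreducible C.pol) (hns : C.NoSing)
    (hO : C.O = ∅) {p : Fin m → ℝ} (hp : IsRat p) (hp0 : C.T p p p = 0) {u₀ : Fin m → ℝ}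
    (hu : C.T p p u₀ = 0) (hq : C.T p u₀ u₀ ≠ 0) (ell : (Fin m → ℝ) →ₗ[ℝ] ℝ) :
    Tm (C.XQ ∩ {x | ell x = 1}) := by
  have hpne : p ≠ 0 := by
    rintro rfl
    apply hq
    rw [map_zero, LinearMap.zero_apply, LinearMap.zero_apply]
  obtain ⟨lam, e, hlQ, hlp, hst, he, hpe, hle, hee, he3, han⟩ :=
    Cub.typeN_data hm hirr hns hO hp hp0 (hns p hp hpne hp0) hu hq
  obtain ⟨g, hg, hcov⟩ := Cub.exists_plane hm hns hO hlQ hp hp0 hlp hst he hpe hle hee he3 han
  set S : Set (Fin m → ℝ) := {x | IsRat x ∧ C.T p p x = 0 ∧ lam x = 0 ∧ ell x = 1} with hS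
  set F' : Set (Fin m → ℝ) := {x | (∃ α β : ℝ, x = α • p + β • g) ∧ C.T x x x = 0 ∧ ell x = 1}
    with hF'
  have hfin : F'.Finite := Cub.finite_plane hp0 hg ell
  have hSX : S ⊆ C.XQ ∩ {x | ell x = 1} := by
    rintro x ⟨h1, h2, h3, h4⟩
    refine ⟨⟨h1, ?_⟩, h4⟩
    rw [hst x h2 h3, h3, mul_zero]
  have hsub : C.XQ ∩ {x | ell x = 1} = S ∪ (F' ∩ (C.XQ ∩ {x | ell x = 1})) := by
    ext x
    constructor
    · rintro ⟨hx, hlx⟩
      rcases hcov x hx with ⟨h1, h2⟩ | h
      · exact Or.inl ⟨hx.1, h1, h2, hlx⟩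
      · exact Or.inr ⟨⟨h, hx.2, hlx⟩, hx, hlx⟩
    · rintro (h | h)
      · exact hSX h
      · exact h.2
  rw [hsub]
  refine Tm.union ?_ ?_
  · apply Tm.affine (fun x hx => hx.1)
    intro s hs y hy t
    refine ⟨hs.1.add ((hy.1.sub hs.1).smul (IsQ.cast t)), ?_, ?_, ?_⟩
    · rw [map_add, map_smul, map_sub, hs.2.1, hy.2.1, sub_zero, smul_zero, add_zero]
    · rw [map_add, map_smul, map_sub, hs.2.2.1, hy.2.2.1, sub_zero, smul_zero, add_zero]
    · rw [map_add, map_smul, map_sub, hs.2.2.2, hy.2.2.2, sub_self, smul_zero, add_zero]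
  · exact Tm.of_finite (hfin.subset (inter_subset_left (t := C.XQ ∩ {x | ell x = 1})))

theorem tm_case4 {n : ℕ} {P : MvPolynomial (Fin n) ℚ} (hP : Irreducible P) {C : Cub (n + 1)}
    (hPC : ∀ x : Fin n → ℝ, (aeval x P : ℝ) = C.T (hx 1 x) (hx 1 x) (hx 1 x))
    (hirr : Irreducible C.pol) (hns : C.NoSing) : Tm (QZ P) := by
  by_cases hO : C.O.Nonempty
  · exact tm_open hP hPC hirr hns hO
  have hO' : C.O = ∅ := Set.not_nonempty_iff_eq_empty.1 hO
  have htail : Continuous fun z : Fin (n + 1) → ℝ => Fin.tail z :=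
    continuous_pi fun i => continuous_apply i.succ
  have hq : (pm (fun a : Fin n => (X a.succ : MvPolynomial (Fin (n + 1)) ℝ))) =
      fun z : Fin (n + 1) → ℝ => Fin.tail z := by
    funext z a
    simp [pm, Fin.tail]
  have key : Tm (C.XQ ∩ {z : Fin (n + 1) → ℝ | z 0 = 1}) := by
    let ell : (Fin (n + 1) → ℝ) →ₗ[ℝ] ℝ := LinearMap.proj 0
    have hell : ({z | z 0 = 1} : Set (Fin (n + 1) → ℝ)) = {x | ell x = 1} := rfl
    rw [hell]
    by_cases hE : ∀ p, IsRat p → C.T p p p = 0 → ∀ v, C.T p p v = 0 → C.T p v v = 0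
    · exact tm_typeE hns hE ell
    push Not at hE
    obtain ⟨p, hp, hp0, v, hv, hq⟩ := hE
    have hpne : p ≠ 0 := by
      rintro rfl
      simp at hq
    obtain ⟨u, hu⟩ := hns p hp hpne hp0
    have h3 := case_small hp0 hv hq hu
    by_cases h4 : 4 ≤ n + 1
    · exact tm_typeN h4 hirr hns hO' hp hp0 hv hq ell
    obtain rfl : n = 2 := by omega
    have hfin : (C.XQ ∩ {x | ell x = 1}).Finite := by
      by_contra h
      exact hO (Cub.m3 hirr hns h)
    exact Tm.of_finite hfin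
  refine (Tm.image key (fun a : Fin n => X a.succ)).congr ?_
  rw [hq, closure_QZ_eq_image hPC]
  apply Subset.antisymm
  · exact image_closure_subset_closure_image htail
  · rw [← closure_QZ_eq_image hPC]
    apply closure_minimal _ isClosed_closure
    rw [closure_QZ_eq_image hPC]
    exact image_mono subset_closure

end Pool.Agent.MZT
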