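import Pool.Agent.MZT.Ha
import Pool.Agent.MZT.Ke
import Pool.Agent.MZT.La
import Pool.Agent.MZT.Lc

/-!
# MZT main theorem: the rational zeros of a polynomial of degree at most 3 have tame closure

Same case distinction as `fc_main` in `MZ/Main.lean`.
-/

set_option autoImplicit false

open Set Topology Filter MvPolynomial

namespace Pool.Agent.MZT

open Pool.Agent.MZ Pool.Agent.QTW

theorem tm_reducible {n : ℕ} {P : MvPolynomial (Fin n) ℚ} (h3 : P.totalDegree = 3)
    (hirr : ¬ Irreducible P) : Tm (QZ P) := by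
  have hP0 : P ≠ 0 := by
    rintro rfl
    simp at h3
  have hu : ¬ IsUnit P := by
    intro h
    rw [MvPolynomial.isUnit_iff_eq_C_of_isReduced] at h
    obtain ⟨r, -, hr⟩ := h
    rw [hr, totalDegree_C] at h3
    omega
  rw [irreducible_iff] at hirr
  push Not at hirr
  obtain ⟨A, B, hAB, hA, hB⟩ := hirr hu
  have hA0 : A ≠ 0 := by
    rintro rfl
    exact hP0 (by rw [hAB, zero_mul])
  have hB0 : B ≠ 0 := by
    rintro rfl
    exact hP0 (by rw [hAB, mul_zero])
  have h1 := totalDegree_mul_of_isDomain hA0 hB0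
  rw [← hAB, h3] at h1
  have h2 := one_le_totalDegree hA0 hA
  have h4 := one_le_totalDegree hB0 hB
  rw [hAB, QZ_mul]
  exact (tm_deg_two (by omega)).union (tm_deg_two (by omega))

/-- a rational singular point at infinity -/
theorem tm_infinity {n : ℕ} {P : MvPolynomial (Fin (n + 1)) ℚ} (hP : Irreducible P)
    (h3 : P.totalDegree = 3) {C : Cub (n + 2)}
    (hPC : ∀ x : Fin (n + 1) → ℝ, (aeval x P : ℝ) = C.T (hx 1 x) (hx 1 x) (hx 1 x))
    {s : Fin (n + 1) → ℚ} (hs0 : s ≠ 0) (hs : ∀ u, C.T (hx 0 (rv s)) (hx 0 (rv s)) u = 0)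
    (ih : ∀ P' : MvPolynomial (Fin n) ℚ, P'.totalDegree ≤ 3 → Tm (QZ P'))
    (hsm : ∀ q : Fin (n + 1) → ℚ, eval q P = 0 → SmoothAt P (rv q)) :
    Tm (QZ P) := by
  have hrat : IsRat (hx 0 (rv s)) := isRat_hx.mpr ⟨IsQ.zero, ⟨s, rfl⟩⟩
  obtain ⟨G, hG2, hG⟩ := C.polyQ₂ hrat
  set R : MvPolynomial (Fin (n + 1)) ℚ := MvPolynomial.C 3 *
    aeval (Fin.cons 1 X : Fin (n + 2) → MvPolynomial (Fin (n + 1)) ℚ) G with hR
  have hRdeg : R.totalDegree ≤ 2 := by
    refine (totalDegree_mul _ _).trans ?_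
    rw [totalDegree_C, zero_add]
    exact (totalDegree_dehom_le G).trans hG2
  have hReval : ∀ x : Fin (n + 1) → ℝ, (aeval x R : ℝ) =
      3 * C.T (hx 0 (rv s)) (hx 1 x) (hx 1 x) := by
    intro x
    have hG' : (aeval (hx 1 x) G : ℝ) = C.T (hx 0 (rv s)) (hx 1 x) (hx 1 x) := hG (hx 1 x)
    have e : (aeval x (aeval (Fin.cons 1 X : Fin (n + 2) → MvPolynomial (Fin (n + 1)) ℚ) G) : ℝ) =
        aeval (hx 1 x) G := by
      rw [← AlgHom.comp_apply]
      congr 1
      apply MvPolynomial.algHom_ext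
      intro i
      refine Fin.cases ?_ (fun j => ?_) i
      · simp [hx]
      · simp [hx]
    rw [hR, map_mul, e, hG']
    congr 1
    simp
  have hlin : ∀ (x : Fin (n + 1) → ℝ) (t : ℝ),
      (aeval (x + t • rv s) P : ℝ) = aeval x P + t * aeval x R := by
    intro x t
    have e1 : hx 1 (x + t • rv s) = hx 1 x + t • hx 0 (rv s) := by
      rw [← hx_smul, mul_zero, ← hx_add, add_zero]
    rw [hPC, hPC, hReval, e1]
    simp only [map_add, map_smul, LinearMap.add_apply, LinearMap.smul_apply, smul_eq_mul, hs]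
    have e2 : C.T (hx 1 x) (hx 0 (rv s)) (hx 1 x) = C.T (hx 0 (rv s)) (hx 1 x) (hx 1 x) :=
      C.sym₁ _ _ _
    have e3 : C.T (hx 1 x) (hx 1 x) (hx 0 (rv s)) = C.T (hx 0 (rv s)) (hx 1 x) (hx 1 x) := by
      rw [C.sym₂, C.sym₁]
    have e4 : C.T (hx 1 x) (hx 0 (rv s)) (hx 0 (rv s)) = 0 := by
      rw [C.sym₁, C.sym₂, hs]
    have e5 : C.T (hx 0 (rv s)) (hx 1 x) (hx 0 (rv s)) = 0 := by
      rw [C.sym₂, hs]
    rw [e2, e3, e4, e5]
    ring
  by_cases hR0 : R = 0
  · refine tm_invdir hs0 (fun x t => ?_) (fun P' hP' => ih P' (by omega))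
    rw [hlin, hR0, map_zero, mul_zero, add_zero]
  · exact tm_lindir hP hR0 (by omega) hlin hsm

theorem tm_main : ∀ (n : ℕ) (P : MvPolynomial (Fin n) ℚ), P.totalDegree ≤ 3 →
    Tm (QZ P) := by
  intro n
  induction n with
  | zero =>
    intro P _
    exact Tm.of_finite (Set.toFinite _)
  | succ n ih =>
    intro P hP
    by_cases h2 : P.totalDegree ≤ 2
    · exact tm_deg_two h2
    have h3 : P.totalDegree = 3 := by omega
    by_cases hirr : Irreducible P
    swap
    · exact tm_reducible h3 hirr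
    obtain ⟨C, hPC, hdeh, -⟩ := exists_cub hP
    have hCirr : Irreducible C.pol := irr_of_dehom C.hom hdeh hirr h3
    by_cases hsing : ∃ s : Fin (n + 1) → ℚ, ∀ u, C.T (hx 1 (rv s)) (hx 1 (rv s)) u = 0
    · obtain ⟨s, hs⟩ := hsing
      exact tm_sing hirr h3 hPC hs ih
    push Not at hsing
    by_cases hns : C.NoSing
    · exact tm_case4 hirr hPC hCirr hns
    unfold Cub.NoSing at hns
    push Not at hns
    obtain ⟨x, ⟨q, rfl⟩, hx0, -, hxs⟩ := hns
    by_cases hq : q 0 = 0
    · have e : rv q = hx 0 (rv (Fin.tail q)) := by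
        funext i
        refine Fin.cases ?_ (fun j => ?_) i
        · simp [rv, hx, hq]
        · simp [rv, hx, Fin.tail]
      refine tm_infinity hirr h3 hPC (s := Fin.tail q) ?_ ?_ ih ?_
      · intro h
        apply hx0
        rw [e, h]
        funext i
        refine Fin.cases ?_ (fun j => ?_) i
        · simp [hx]
        · simp [rv, hx]
      · rw [← e]; exact hxs
      · intro q' hq'
        have h1 : (aeval (rv q') P : ℝ) = 0 := by rw [aeval_rv, hq', Rat.cast_zero]
        exact (smoothAt_chart hPC h1).mpr (hsing q')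
    · exfalso
      obtain ⟨u, hu⟩ := hsing (fun i => q i.succ / q 0)
      have hq' : (q 0 : ℝ) ≠ 0 := by exact_mod_cast hq
      have e : hx 1 (rv (fun i : Fin (n + 1) => q i.succ / q 0)) = (q 0 : ℝ)⁻¹ • rv q := by
        funext i
        refine Fin.cases ?_ (fun j => ?_) i
        · simp [rv, hx, hq]
        · simp [rv, hx]
          ring
      apply hu
      rw [e]
      simp only [map_smul, LinearMap.smul_apply, hxs, smul_zero]

end Pool.Agent.MZT
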