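import Pool.Agent.MZT.Fc

/-!
# MZT module PA: finite products
-/

set_option autoImplicit false

open Set Topology Filter MvPolynomial

namespace Pool.Agent.MZT

open Pool.Agent.MZ Pool.Agent.QTW

/-- the product of the sets `S i`, as a set of functions on the disjoint union -/
def pp {r : ℕ} {N : Fin r → ℕ} (S : ∀ i, Set (Fin (N i) → ℝ)) : Set ((Σ i, Fin (N i)) → ℝ) :=
  {z | ∀ i, (fun j => z ⟨i, j⟩) ∈ S i}

theorem closure_pp {r : ℕ} {N : Fin r → ℕ} (S : ∀ i, Set (Fin (N i) → ℝ)) :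
    closure (pp S) = pp fun i => closure (S i) := by
  let f : (∀ i, Fin (N i) → ℝ) → ((Σ i, Fin (N i)) → ℝ) := fun w p => w p.1 p.2
  have hf : Continuous f :=
    continuous_pi fun p => (continuous_apply p.2).comp (continuous_apply p.1)
  have himg : ∀ S : ∀ i, Set (Fin (N i) → ℝ), pp S = f '' (Set.pi univ S) := by
    intro S
    ext z
    constructor
    · intro h
      exact ⟨fun i j => z ⟨i, j⟩, fun i _ => h i, rfl⟩
    · rintro ⟨w, hw, rfl⟩ i
      exact hw i (mem_univ i)
  refine Subset.antisymm ?_ ?_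
  · have hc : ∀ i, Continuous fun z : (Σ i, Fin (N i)) → ℝ => (fun j => z ⟨i, j⟩ : Fin (N i) → ℝ) :=
      fun i => continuous_pi fun j => continuous_apply _
    have hcl : IsClosed (pp fun i => closure (S i)) := by
      have e : (pp fun i => closure (S i)) =
          ⋂ i, {z : (Σ i, Fin (N i)) → ℝ | (fun j => z ⟨i, j⟩ : Fin (N i) → ℝ) ∈ closure (S i)} := by
        ext z
        simp only [pp, mem_ofPred_eq, mem_iInter]
      rw [e]
      exact isClosed_iInter fun i => isClosed_closure.preimage (hc i)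
    refine closure_minimal ?_ hcl
    intro z hz i
    exact subset_closure (hz i)
  · rw [himg, himg, ← closure_pi_set]
    exact image_closure_subset_closure_image hf

theorem Tm.pi {r : ℕ} {N : Fin r → ℕ} {S : ∀ i, Set (Fin (N i) → ℝ)} (h : ∀ i, Tm (S i)) :
    Tm (pp S) := by
  choose ι hι ρ hρ E p hE he using h
  have e1 : ∀ i : (∀ i, ι i), pm (fun a : Σ i, Fin (N i) =>
      rename (fun b => (⟨a.1, b⟩ : Σ j, ρ j (i j))) (p a.1 (i a.1) a.2)) ''
      {z : (Σ j, ρ j (i j)) → ℝ | ∀ j, (fun b => z ⟨j, b⟩) ∈ E j (i j)} =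
      pp fun j => pm (p j (i j)) '' E j (i j) := by
    intro i
    have ev : ∀ (z : (Σ j, ρ j (i j)) → ℝ) (a : Σ i, Fin (N i)),
        eval z (rename (fun b => (⟨a.1, b⟩ : Σ j, ρ j (i j))) (p a.1 (i a.1) a.2)) =
        pm (p a.1 (i a.1)) (fun b => z ⟨a.1, b⟩) a.2 := by
      intro z a
      rw [eval_rename]
      rfl
    ext w
    constructor
    · rintro ⟨z, hz, rfl⟩ j
      refine ⟨fun b => z ⟨j, b⟩, hz j, ?_⟩
      funext a
      exact (ev z ⟨j, a⟩).symm
    · intro hw
      choose x hx hx2 using hw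
      refine ⟨fun c => x c.1 c.2, fun j => hx j, ?_⟩
      funext a
      exact (ev (fun c => x c.1 c.2) a).trans (congrFun (hx2 a.1) a.2)
  refine ⟨∀ i, ι i, inferInstance, fun i => Σ j, ρ j (i j), fun i => inferInstance,
    fun i => {z | ∀ j, (fun b => z ⟨j, b⟩) ∈ E j (i j)},
    fun i a => rename (fun b => (⟨a.1, b⟩ : Σ j, ρ j (i j))) (p a.1 (i a.1) a.2), ?_, ?_⟩
  · intro i
    have e2 : {z : (Σ j, ρ j (i j)) → ℝ | ∀ j, (fun b => z ⟨j, b⟩) ∈ E j (i j)} =
        ⋂ j, {z | (fun b => z ⟨j, b⟩) ∈ E j (i j)} := by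
      ext z
      simp only [mem_ofPred_eq, mem_iInter]
    show SC {z : (Σ j, ρ j (i j)) → ℝ | ∀ j, (fun b => z ⟨j, b⟩) ∈ E j (i j)}
    rw [e2]
    refine SC.iInter fun j => ?_
    have h1 := (hE j (i j)).preimage (τ := Σ j, ρ j (i j)) (fun b => X ⟨j, b⟩)
    simpa only [eval_X] using h1
  · rw [closure_pp]
    have e3 : (pp fun i => closure (S i)) =
        closure (pp fun i => ⋃ k, pm (p i k) '' E i k) := by
      rw [closure_pp]
      congr 1
      funext i
      exact he i
    rw [e3]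
    congr 1
    rw [iUnion_congr e1]
    ext z
    simp only [pp, mem_ofPred_eq, mem_iUnion]
    constructor
    · intro hz
      choose i hi using hz
      exact ⟨i, hi⟩
    · rintro ⟨i, hi⟩ j
      exact ⟨i j, hi j⟩

end Pool.Agent.MZT
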