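import Pool.Agent.CTW.Qf
import Pool.Agent.CTW.Qg
import Pool.Agent.MZT.Fb
import Pool.Agent.MZT.Fd
import Pool.Agent.MZT.Pa
import Pool.Agent.MZT.Main

/-!
# MZT module CA: bundles of diagonal cubics: tame closure
-/

set_option autoImplicit false

open Set Topology Filter MvPolynomial

namespace Pool.Agent.MZT

open Pool.Agent.MZ Pool.Agent.QTW Pool.Agent.CTW

variable {r s g : ℕ} {N : Fin r → ℕ}

/-- the rational points with all `f i` not zero -/
theorem tm_XQ (B : CTW.Qb r s g N) : Tm B.XQ := by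
  obtain ⟨κ, hκ, d, hd, he⟩ := B.closure_XQ
  have h1 : SC {z | z ∈ closure B.XQ ∧ (fun p => z (Sum.inl p)) ∈ CTW.Om B.f} := by
    rw [he]
    refine B.eq_sc.inter (SC.iUnion fun τ => (B.pt_sc τ).inter ?_)
    have := hκ τ
    refine SC.iUnion fun j => ?_
    have := (CTW.AT_SC B.deg (hd τ j)).preimage
      (fun p : (Σ i, Fin (N i)) => (X (Sum.inl p) : MvPolynomial ((Σ i, Fin (N i)) ⊕ Fin s) ℝ))
    simpa only [eval_X] using this
  refine Tm.of_SC h1 (fun z hz => hz.1) ?_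
  intro z hz
  exact subset_closure ⟨subset_closure hz, hz.1⟩

/-- zeros of the `f i`, `i ∈ I`, blocks set to zero otherwise -/
theorem tm_Wz (B : CTW.Qb r s g N) (I : Finset (Fin r)) (i : Fin r) : Tm (B.Wz I i) := by
  unfold CTW.Qb.Wz
  by_cases h : i ∈ I
  · rw [if_pos h]
    exact tm_main _ _ (B.deg i)
  · rw [if_neg h]
    exact Tm.of_finite (Set.finite_singleton _)

theorem tm_St (B : CTW.Qb r s g N) (I : Finset (Fin r)) : Tm (B.St I) := by
  classical
  have h1 := (tm_XQ (B.red I)).prod (Tm.pi (tm_Wz B I))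
  let q : (Σ i, Fin (N i)) ⊕ Fin s →
      MvPolynomial (((Σ i, Fin (N i)) ⊕ Fin s) ⊕ (Σ i, Fin (N i))) ℝ := fun a =>
    match a with
    | Sum.inl p => if p.1 ∈ I then X (Sum.inr p) else X (Sum.inl (Sum.inl p))
    | Sum.inr k => X (Sum.inl (Sum.inr k))
  have hq : ∀ z : ((Σ i, Fin (N i)) ⊕ Fin s) ⊕ (Σ i, Fin (N i)) → ℝ,
      pm q z = CTW.Qb.ins (N := N) (s := s) I (fun a => z (Sum.inl a), fun i j => z (Sum.inr ⟨i, j⟩)) := by
    intro z
    funext a
    rcases a with p | k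
    · show eval z (if p.1 ∈ I then X (Sum.inr p) else X (Sum.inl (Sum.inl p))) =
        if p.1 ∈ I then z (Sum.inr ⟨p.1, p.2⟩) else z (Sum.inl (Sum.inl p))
      split_ifs
      · rw [eval_X]
      · rw [eval_X]
    · show eval z (X (Sum.inl (Sum.inr k))) = z (Sum.inl (Sum.inr k))
      rw [eval_X]
  have h2 := h1.image q
  convert h2 using 1
  ext z
  constructor
  · intro hz
    obtain ⟨a, ha1, ha2, ha3⟩ := B.st_sub hz
    refine ⟨Sum.elim a.1 fun p => a.2 p.1 p.2, ⟨ha1, fun i => ha2 i⟩, ?_⟩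
    rw [hq]
    exact ha3
  · rintro ⟨w, ⟨hw1, hw2⟩, rfl⟩
    rw [hq]
    exact B.ins_mem hw1 fun i => hw2 i

theorem tm_all (B : CTW.Qb r s g N) : Tm B.XA := by
  classical
  have e : B.XA = ⋃ I : Finset (Fin r), B.St I := by
    ext z
    rw [mem_iUnion]
    constructor
    · intro hz
      refine ⟨Finset.univ.filter fun i => B.F (fun p => z (Sum.inl p)) i = 0, hz, fun i => ?_⟩
      simp
    · rintro ⟨I, hz⟩
      exact hz.1
  rw [e]
  exact Tm.iUnion fun I => tm_St B I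

end Pool.Agent.MZT
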