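import Pool.Agent.MZT.Defs

/-!
# MZT module FA: tame closure implies finiteness

PROOF of `Tm.strong`. Let `closure S = closure (⋃ i, pm (p i) '' E i)`. Put `A i = pm (p i) '' {z ∈ E i | ∃ l, eval (pm (p i) z) (G l) ≠ 0}`.
`{z | ∃ l, eval (pm (p i) z) (G l) ≠ 0}` is `SC` (finite union over `l` of `{0 < G'} ∪ {0 < -G'}`, `G' = bind₁ (p i) (G l)`; see the proof of `h2` in
`CTW/Qc.lean`, `fc_main`), so `{..} ∩ E i` is `SC` (`SC.inter`), `FC` (`SC.fc`), and so is its image (`FC.image`, `pm` is continuous), and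
`⋃ i, A i` (`FC.iUnion`). `FC.sandwich`: `⋃ A i ⊆ {x ∈ closure S | ∃ l, ..}` clear; and if `x ∈ closure S = closure (⋃ pm '' E i)` and
`G l x ≠ 0`, then `x ∈ closure (W ∩ ⋃ pm '' E i)` for the open set `W = {∃ l, eval x (G l) ≠ 0}` (`IsOpen.inter_closure`), and
`W ∩ ⋃ pm (p i) '' E i = ⋃ A i`.
-/

set_option autoImplicit false

open Set Topology Filter MvPolynomial

namespace Pool.Agent.MZT

open Pool.Agent.MZ Pool.Agent.QTW

theorem continuous_pm {σ τ : Type} (p : τ → MvPolynomial σ ℝ) : Continuous (pm p) :=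
  continuous_pi fun a => MvPolynomial.continuous_eval (p a)

theorem sc_ne {σ : Type} {m : ℕ} (G : Fin m → MvPolynomial σ ℝ) :
    SC {x : σ → ℝ | ∃ l, eval x (G l) ≠ 0} := by
  have e : {x : σ → ℝ | ∃ l, eval x (G l) ≠ 0} =
      ⋃ l, ({x : σ → ℝ | 0 < eval x (G l)} ∪ {x : σ → ℝ | 0 < eval x (-G l)}) := by
    ext x
    simp only [mem_ofPred_eq, mem_iUnion, mem_union, map_neg, Left.neg_pos_iff]
    exact exists_congr fun l => ⟨fun h => (lt_or_gt_of_ne h).symm, fun h => h.elim ne_of_gt ne_of_lt⟩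
  rw [e]
  exact SC.iUnion fun l => (Bsa.pos _).sc.toSC.union (Bsa.pos _).sc.toSC

theorem Tm.strong {σ : Type} [Finite σ] {S : Set (σ → ℝ)} (h : Tm S) {m : ℕ}
    (G : Fin m → MvPolynomial σ ℝ) : FC {x | x ∈ closure S ∧ ∃ l, eval x (G l) ≠ 0} := by
  obtain ⟨ι, hι, τ, hτ, E, p, hE, hS⟩ := h
  have hW : IsOpen {x : σ → ℝ | ∃ l, eval x (G l) ≠ 0} := by
    have e : {x : σ → ℝ | ∃ l, eval x (G l) ≠ 0} = ⋃ l, {x : σ → ℝ | eval x (G l) ≠ 0} := by
      ext x; simp only [mem_ofPred_eq, mem_iUnion]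
    rw [e]
    exact isOpen_iUnion fun l =>
      (isClosed_singleton (x := (0 : ℝ))).isOpen_compl.preimage (MvPolynomial.continuous_eval (G l))
  have hA : ∀ i, FC (pm (p i) '' (E i ∩ {z | pm (p i) z ∈ {x : σ → ℝ | ∃ l, eval x (G l) ≠ 0}})) := by
    intro i
    have := hτ i
    exact (((hE i).inter ((sc_ne G).preimage (p i))).fc).image (continuous_pm (p i)).continuousOn
  have hU := FC.iUnion hA
  refine hU.sandwich ?_ ?_
  · intro x hx
    obtain ⟨i, z, ⟨hz, hz'⟩, rfl⟩ := mem_iUnion.1 hx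
    refine ⟨?_, hz'⟩
    rw [hS]
    exact subset_closure (mem_iUnion.2 ⟨i, z, hz, rfl⟩)
  · rintro x ⟨hx, hx'⟩
    rw [hS] at hx
    refine closure_mono ?_ (hW.inter_closure ⟨hx', hx⟩)
    rintro y ⟨hy, hy'⟩
    obtain ⟨i, z, hz, rfl⟩ := mem_iUnion.1 hy'
    exact mem_iUnion.2 ⟨i, z, ⟨hz, hy⟩, rfl⟩

end Pool.Agent.MZT
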