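import Pool.Agent.MZ.Main
import Pool.Agent.QTW.Sa3

/-!
# Project MZT (problem MP_4d3b00_ag): sets of rational points with tame closure

`Tm S`: the closure of `S` is the closure of a finite union of polynomial images of sets `E` that are finite unions of relatively clopen
subsets of basic semialgebraic sets (`SC`, file `QTW/Sa3.lean`). This implies that the closure of `S` minus any real algebraic set has
finitely many connected components, and it is stable under products, polynomial maps and open subsets.
-/

set_option autoImplicit false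

open Set Topology Filter MvPolynomial

namespace Pool.Agent.MZT

open Pool.Agent.MZ Pool.Agent.QTW

/-- the polynomial map with components `p a` -/
noncomputable def pm {σ τ : Type} (p : τ → MvPolynomial σ ℝ) (x : σ → ℝ) : τ → ℝ :=
  fun a => eval x (p a)

/-- tame closure -/
def Tm {σ : Type} (S : Set (σ → ℝ)) : Prop :=
  ∃ (ι : Type) (_ : Finite ι) (τ : ι → Type) (_ : ∀ i, Finite (τ i)) (E : ∀ i, Set (τ i → ℝ))
    (p : ∀ i, σ → MvPolynomial (τ i) ℝ), (∀ i, SC (E i)) ∧
      closure S = closure (⋃ i, pm (p i) '' E i)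

/-- common rational zeros of a family -/
def QZF {n k : ℕ} (F : Fin k → MvPolynomial (Fin n) ℚ) : Set (Fin n → ℝ) :=
  {x | ∃ q : Fin n → ℚ, (∀ j, eval q (F j) = 0) ∧ x = rv q}

/-- set `x₀ = a` in a polynomial -/
noncomputable def sub0 {n : ℕ} (a : ℚ) (F : MvPolynomial (Fin (n + 1)) ℚ) : MvPolynomial (Fin n) ℚ :=
  aeval (Fin.cons (C a) X : Fin (n + 1) → MvPolynomial (Fin n) ℚ) F

/-- translate of a polynomial: `x ↦ F (x + s)` -/
noncomputable def tr {n : ℕ} (s : Fin n → ℚ) (F : MvPolynomial (Fin n) ℚ) : MvPolynomial (Fin n) ℚ :=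
  aeval (fun i => X i + C (s i) : Fin n → MvPolynomial (Fin n) ℚ) F

end Pool.Agent.MZT
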