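import Pool.Agent.MZT.Fc

/-!
# MZT module FE: rational maps (plan in `Fc.lean`)
-/

set_option autoImplicit false

open Set Topology Filter MvPolynomial

namespace Pool.Agent.MZT

open Pool.Agent.MZ Pool.Agent.QTW

/-- continuous maps on an open set and closures -/
theorem closure_image_open {X Y : Type*} [TopologicalSpace X] [TopologicalSpace Y] {f : X → Y}
    {W : Set X} (hW : IsOpen W) (hf : ContinuousOn f W) {A B : Set X} (h : closure A = closure B) :
    closure (f '' (W ∩ A)) = closure (f '' (W ∩ B)) := by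
  have key : ∀ {A B : Set X}, closure A = closure B →
      closure (f '' (W ∩ A)) ⊆ closure (f '' (W ∩ B)) := by
    intro A B hAB
    refine closure_minimal ?_ isClosed_closure
    rintro _ ⟨x, ⟨hx1, hx2⟩, rfl⟩
    have h1 : x ∈ closure (W ∩ B) := by
      refine hW.inter_closure ⟨hx1, ?_⟩
      rw [← hAB]
      exact subset_closure hx2
    have h2 : ContinuousWithinAt f (W ∩ B) x := (hf x hx1).mono inter_subset_left
    exact h2.mem_closure_image h1
  exact Subset.antisymm (key h) (key h.symm)

theorem Tm.ratmap {σ τ : Type} {S : Set (σ → ℝ)} (h : Tm S) (D : MvPolynomial σ ℝ)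
    (q : τ → MvPolynomial σ ℝ) :
    Tm ((fun x a => eval x (q a) / eval x D) '' {x | x ∈ S ∧ eval x D ≠ 0}) := by
  obtain ⟨ι, hι, ρ, hρ, E, p, hE, he⟩ := h
  set ψ : (σ → ℝ) → (τ → ℝ) := fun x a => eval x (q a) / eval x D with hψ
  set W : Set (σ → ℝ) := {x | eval x D ≠ 0} with hWdef
  have hW : IsOpen W := isOpen_ne_fun (MvPolynomial.continuous_eval _) continuous_const
  have hψc : ContinuousOn ψ W := by
    refine continuousOn_pi.2 fun a => ?_
    exact (MvPolynomial.continuous_eval _).continuousOn.div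
      (MvPolynomial.continuous_eval _).continuousOn fun x hx => hx
  have e0 : {x | x ∈ S ∧ eval x D ≠ 0} = W ∩ S := by
    ext x
    exact and_comm
  -- the equation `w * D = 1`
  let Eq : ∀ i, MvPolynomial (ρ i ⊕ Unit) ℝ := fun i =>
    X (Sum.inr ()) * rename Sum.inl (bind₁ (p i) D) - 1
  have hEq : ∀ i (z : ρ i ⊕ Unit → ℝ), eval z (Eq i) =
      z (Sum.inr ()) * eval (pm (p i) fun a => z (Sum.inl a)) D - 1 := by
    intro i z
    show eval z (X (Sum.inr ()) * rename Sum.inl (bind₁ (p i) D) - 1) = _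
    rw [map_sub, map_mul, eval_X, map_one, eval_rename, ← eval_bind']
    rfl
  refine ⟨ι, hι, fun i => ρ i ⊕ Unit, fun i => inferInstance,
    fun i => {z | (fun a => z (Sum.inl a)) ∈ E i} ∩ {z | eval z (Eq i) = 0},
    fun i a => X (Sum.inr ()) * rename Sum.inl (bind₁ (p i) (q a)), ?_, ?_⟩
  · intro i
    have h1 := (hE i).preimage (τ := ρ i ⊕ Unit) (fun a => X (Sum.inl a))
    simp only [eval_X] at h1
    exact h1.inter (Bsa.zero (Eq i)).sc.toSC
  · rw [e0, closure_image_open hW hψc he, inter_iUnion, image_iUnion]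
    congr 1
    refine iUnion_congr fun i => ?_
    ext y
    constructor
    · rintro ⟨_, ⟨hx, z, hz, rfl⟩, rfl⟩
      have hD : eval (pm (p i) z) D ≠ 0 := hx
      refine ⟨Sum.elim z fun _ => (eval (pm (p i) z) D)⁻¹, ⟨hz, ?_⟩, ?_⟩
      · show eval _ (Eq i) = 0
        rw [hEq]
        show (eval (pm (p i) z) D)⁻¹ * eval (pm (p i) z) D - 1 = 0
        rw [inv_mul_cancel₀ hD, sub_self]
      · funext a
        show eval _ (X (Sum.inr ()) * rename Sum.inl (bind₁ (p i) (q a))) =
          eval (pm (p i) z) (q a) / eval (pm (p i) z) D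
        rw [map_mul, eval_X, eval_rename]
        show (eval (pm (p i) z) D)⁻¹ * eval z (bind₁ (p i) (q a)) = _
        rw [eval_bind', div_eq_inv_mul]
    · rintro ⟨z, ⟨hz, hz2⟩, rfl⟩
      have h2 : z (Sum.inr ()) * eval (pm (p i) fun a => z (Sum.inl a)) D - 1 = 0 := by
        rw [← hEq]
        exact hz2
      have hD : eval (pm (p i) fun a => z (Sum.inl a)) D ≠ 0 := by
        intro h0
        rw [h0, mul_zero, zero_sub] at h2
        norm_num at h2
      refine ⟨pm (p i) fun a => z (Sum.inl a), ⟨hD, _, hz, rfl⟩, ?_⟩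
      funext a
      show eval (pm (p i) fun a => z (Sum.inl a)) (q a) / eval (pm (p i) fun a => z (Sum.inl a)) D =
        eval z (X (Sum.inr ()) * rename Sum.inl (bind₁ (p i) (q a)))
      rw [map_mul, eval_X, eval_rename]
      show _ = z (Sum.inr ()) * eval (fun a => z (Sum.inl a)) (bind₁ (p i) (q a))
      rw [eval_bind', div_eq_iff hD]
      have h3 : z (Sum.inr ()) * eval (pm (p i) fun a => z (Sum.inl a)) D = 1 := by linarith
      calc eval (pm (p i) fun a => z (Sum.inl a)) (q a) =
            (z (Sum.inr ()) * eval (pm (p i) fun a => z (Sum.inl a)) D) *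
              eval (pm (p i) fun a => z (Sum.inl a)) (q a) := by rw [h3, one_mul]
        _ = _ := by ring

end Pool.Agent.MZT
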