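import Pool.Agent.MZT.Fb
import Pool.Agent.MZT.Fe
import Pool.Agent.MZT.Gb
import Pool.Agent.MZT.Gc

/-!
# MZT module HA: polynomials of degree at most 2

`quad_split`: `l i = coeff (single i 1) F`, `Q = homogeneousComponent 2 F` (`sum_homogeneousComponent`).
`tm_deg_two`: induction on `n`. `n = 0`: `Tm.of_finite`. `n + 1`: if `QZ P` is empty: `Tm.empty`; otherwise let `s` be a rational zero; by `tm_tr`
(`k = 1`, `F = fun _ => P`; `QZ P = QZF fun _ : Fin 1 => P`; `tr_deg`; `eval 0 (tr s P) = eval s P = 0`) we may assume `eval 0 P = 0`.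
`quad_split`: `P = L + Q`. If some `l i ≠ 0`: `QZ P = S₁ ∪ S₀`, `S₀ = {x ∈ QZ P | ∑ l j x j = 0}`: `tm_hyp` and the induction hypothesis;
`S₁ = {x ∈ QZ P | L x ≠ 0}` is the image of the rational points `v` with `L v * Q v ≠ 0` under `v ↦ -(L v / Q v) • v` (`Tm.ratmap` for `Tm.ratpts`,
`D = L * Q` or `D = Q` after `Tm.restrict`; `v = x` gives `x` back as `Q x = - L x`). If `l = 0` then `P = Q` is homogeneous: `tm_cone`, `d = 2`, and the
induction hypothesis (`sub0_deg`).
-/

set_option autoImplicit false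

open Set Topology Filter MvPolynomial

namespace Pool.Agent.MZT

open Pool.Agent.MZ Pool.Agent.QTW

theorem quad_split {n : ℕ} {F : MvPolynomial (Fin n) ℚ} (hF : F.totalDegree ≤ 2)
    (h0 : eval (0 : Fin n → ℚ) F = 0) :
    ∃ (l : Fin n → ℚ) (Q : MvPolynomial (Fin n) ℚ), Q.IsHomogeneous 2 ∧
      F = (∑ i, C (l i) * X i) + Q := by
  classical
  set l : Fin n → ℚ := fun i => coeff (Finsupp.single i 1) F with hl
  set L : MvPolynomial (Fin n) ℚ := ∑ i, C (l i) * X i with hL
  have hLc : ∀ d : Fin n →₀ ℕ, coeff d L = ∑ i, if Finsupp.single i 1 = d then l i else 0 := by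
    intro d
    rw [hL, coeff_sum]
    refine Finset.sum_congr rfl fun i _ => ?_
    rw [coeff_C_mul, coeff_X, mul_ite, mul_one, mul_zero]
  have hdeg1 : ∀ i : Fin n, (Finsupp.single i 1 : Fin n →₀ ℕ).degree = 1 := by
    intro i
    rw [Finsupp.degree_single]
  refine ⟨l, F - L, ?_, by ring⟩
  have key : ∀ d : Fin n →₀ ℕ, d.degree ≠ 2 → coeff d (F - L) = 0 := by
    intro d hd
    rw [coeff_sub, hLc, sub_eq_zero]
    rcases Nat.lt_or_ge d.degree 2 with h | h
    · rcases Nat.lt_or_ge d.degree 1 with h1 | h1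
      · have hd0 : d = 0 := by
          rw [← Finsupp.degree_eq_zero_iff]
          omega
        subst hd0
        have h2 : coeff 0 F = 0 := by
          rw [← h0, ← constantCoeff_eq, eval_zero]
        rw [h2]
        symm
        refine Finset.sum_eq_zero fun i _ => ?_
        rw [if_neg]
        intro h3
        have h4 := hdeg1 i
        rw [h3, map_zero] at h4
        omega
      · have h2 : d.degree = 1 := by omega
        obtain ⟨i, hi⟩ : ∃ i, d = Finsupp.single i 1 := by
          have h3 : d ≠ 0 := by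
            rintro rfl
            rw [map_zero] at h2
            omega
          obtain ⟨i, hi⟩ := Finsupp.ne_iff.1 h3
          rw [Finsupp.coe_zero, Pi.zero_apply] at hi
          refine ⟨i, ?_⟩
          have h4 : ∑ j, d j = 1 := by rw [← Finsupp.degree_eq_sum, h2]
          have h5 : d i + ∑ j ∈ Finset.univ.erase i, d j = 1 := by
            rw [Finset.add_sum_erase _ _ (Finset.mem_univ i), h4]
          have h6 : d i = 1 := by omega
          have h7 : ∑ j ∈ Finset.univ.erase i, d j = 0 := by omega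
          ext j
          by_cases hj : j = i
          · subst hj
            rw [Finsupp.single_eq_same, h6]
          · rw [Finsupp.single_eq_of_ne hj]
            exact Finset.sum_eq_zero_iff.1 h7 j (Finset.mem_erase.2 ⟨hj, Finset.mem_univ j⟩)
        subst hi
        symm
        rw [Finset.sum_eq_single i]
        · rw [if_pos rfl]
        · intro j _ hji
          rw [if_neg]
          intro h3
          exact hji (Finsupp.single_left_injective one_ne_zero h3)
        · intro h3
          exact absurd (Finset.mem_univ i) h3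
    · have h3 : 2 < d.degree := lt_of_le_of_ne h (Ne.symm hd)
      have h4 : coeff d F = 0 := by
        by_contra hne
        have h5 := le_totalDegree (mem_support_iff.2 hne)
        have h6 : d.degree = d.sum fun _ e => e := rfl
        omega
      rw [h4]
      symm
      refine Finset.sum_eq_zero fun i _ => ?_
      rw [if_neg]
      intro h5
      have h6 := hdeg1 i
      rw [h5] at h6
      omega
  intro d hd
  by_contra hne
  refine hd (key d fun h => hne ?_)
  rw [← h]
  exact (Finsupp.degree_eq_weight_one (R := ℕ) (σ := Fin n) ▸ rfl)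

private lemma ha_smul {n : ℕ} {Q : MvPolynomial (Fin n) ℚ} (hQ : Q.IsHomogeneous 2) (t : ℚ)
    (v : Fin n → ℚ) : eval (t • v) Q = t ^ 2 * eval v Q := by
  rw [eval_eq', eval_eq', Finset.mul_sum]
  refine Finset.sum_congr rfl fun d hd => ?_
  have h1 : d.degree = 2 := by
    by_contra hne
    exact mem_support_iff.1 hd (hQ.coeff_eq_zero hne)
  have h2 : ∏ i, (t • v) i ^ d i = t ^ 2 * ∏ i, v i ^ d i := by
    rw [← h1, Finsupp.degree_eq_sum, ← Finset.prod_pow_eq_pow_sum, ← Finset.prod_mul_distrib]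
    refine Finset.prod_congr rfl fun i _ => ?_
    rw [Pi.smul_apply, smul_eq_mul, mul_pow]
  rw [h2]
  ring

private lemma ha_rv {n : ℕ} (F : MvPolynomial (Fin n) ℚ) (q : Fin n → ℚ) :
    eval (rv q) (map (algebraMap ℚ ℝ) F) = ((eval q F : ℚ) : ℝ) := by
  rw [← aeval_rv, eval_map]
  rfl

private lemma qz_eq {n : ℕ} (P : MvPolynomial (Fin n) ℚ) : QZ P = QZF fun _ : Fin 1 => P := by
  ext x
  constructor
  · rintro ⟨q, h, rfl⟩
    exact ⟨q, fun _ => h, rfl⟩
  · rintro ⟨q, h, rfl⟩
    exact ⟨q, h 0, rfl⟩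

private lemma qzf_eq {n : ℕ} (F : Fin 1 → MvPolynomial (Fin n) ℚ) : QZF F = QZ (F 0) := by
  ext x
  constructor
  · rintro ⟨q, h, rfl⟩
    exact ⟨q, h 0, rfl⟩
  · rintro ⟨q, h, rfl⟩
    refine ⟨q, fun j => ?_, rfl⟩
    rw [Subsingleton.elim j 0]
    exact h

private lemma ha_zero {n : ℕ} (ih : ∀ P : MvPolynomial (Fin n) ℚ, P.totalDegree ≤ 2 → Tm (QZ P))
    {P : MvPolynomial (Fin (n + 1)) ℚ} (hP : P.totalDegree ≤ 2) (h0 : eval 0 P = 0) :
    Tm (QZ P) := by
  obtain ⟨l, Q, hQ, hPQ⟩ := quad_split hP h0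
  by_cases hl : ∃ i, l i ≠ 0
  · obtain ⟨i, hi⟩ := hl
    set L : MvPolynomial (Fin (n + 1)) ℚ := ∑ i, C (l i) * X i with hL
    have hLe : ∀ v : Fin (n + 1) → ℚ, eval v L = ∑ j, l j * v j := by
      intro v
      rw [hL, map_sum]
      exact Finset.sum_congr rfl fun j _ => by rw [map_mul, eval_C, eval_X]
    have hLs : ∀ (t : ℚ) (v : Fin (n + 1) → ℚ), eval (t • v) L = t * eval v L := by
      intro t v
      rw [hLe, hLe, Finset.mul_sum]
      exact Finset.sum_congr rfl fun j _ => by rw [Pi.smul_apply, smul_eq_mul]; ring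
    have hLr : ∀ v : Fin (n + 1) → ℚ, ((eval v L : ℚ) : ℝ) = ∑ j, (l j : ℝ) * rv v j := by
      intro v
      rw [hLe]
      push_cast
      rfl
    have hPe : ∀ v : Fin (n + 1) → ℚ, eval v P = eval v L + eval v Q := by
      intro v
      rw [hPQ, map_add]
    have hS0 : Tm {x | x ∈ QZF (fun _ : Fin 1 => P) ∧ ∑ j, (l j : ℝ) * x j = 0} := by
      refine tm_hyp _ l hi fun F' hF' => ?_
      rw [qzf_eq]
      exact ih _ ((hF' 0).trans hP)
    have hS1 := (Tm.restrict (Tm.ratpts (n := n + 1)) (map (algebraMap ℚ ℝ) L)).ratmap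
      (map (algebraMap ℚ ℝ) Q) fun a => -(map (algebraMap ℚ ℝ) L) * X a
    refine (hS0.union hS1).congr ?_
    congr 1
    ext x
    constructor
    · rintro ⟨v, hv, rfl⟩
      by_cases h : eval v L = 0
      · left
        refine ⟨⟨v, fun _ => hv, rfl⟩, ?_⟩
        rw [← hLr, h, Rat.cast_zero]
      · right
        have hQv : eval v Q = -eval v L := by
          rw [hPe] at hv
          linear_combination hv
        have hQ0 : eval v Q ≠ 0 := by
          rw [hQv]
          exact neg_ne_zero.2 h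
        refine ⟨rv v, ⟨⟨⟨v, rfl⟩, ?_⟩, ?_⟩, ?_⟩
        · rw [ha_rv]
          exact_mod_cast h
        · rw [ha_rv]
          exact_mod_cast hQ0
        · funext a
          show eval (rv v) (-(map (algebraMap ℚ ℝ) L) * X a) /
            eval (rv v) (map (algebraMap ℚ ℝ) Q) = _
          rw [map_mul, map_neg, eval_X, ha_rv, ha_rv, hQv]
          have h5 : ((-eval v L : ℚ) : ℝ) ≠ 0 := by exact_mod_cast neg_ne_zero.2 h
          push_cast at h5 ⊢
          field_simp
    · rintro (⟨⟨v, hv, rfl⟩, -⟩ | ⟨y, ⟨⟨⟨v, rfl⟩, h1⟩, h2⟩, rfl⟩)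
      · exact ⟨v, hv 0, rfl⟩
      · rw [ha_rv] at h1 h2
        have h1' : eval v L ≠ 0 := by exact_mod_cast h1
        have h2' : eval v Q ≠ 0 := by exact_mod_cast h2
        refine ⟨(-(eval v L / eval v Q)) • v, ?_, ?_⟩
        · rw [hPe, hLs, ha_smul hQ]
          field_simp
          ring
        · funext a
          show eval (rv v) (-(map (algebraMap ℚ ℝ) L) * X a) /
            eval (rv v) (map (algebraMap ℚ ℝ) Q) = _
          rw [map_mul, map_neg, eval_X, ha_rv, ha_rv]
          show -((eval v L : ℚ) : ℝ) * (v a : ℝ) / _ =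
            (((((-(eval v L / eval v Q)) • v) a) : ℚ) : ℝ)
          rw [Pi.smul_apply, smul_eq_mul]
          push_cast
          ring
  · push Not at hl
    have hPQ' : P = Q := by
      rw [hPQ]
      have : (∑ i, C (l i) * X i : MvPolynomial (Fin (n + 1)) ℚ) = 0 :=
        Finset.sum_eq_zero fun i _ => by rw [hl i, C_0, zero_mul]
      rw [this, zero_add]
    rw [qz_eq]
    refine tm_cone (fun _ : Fin 1 => P) (fun _ => 2) (fun _ => hPQ' ▸ hQ) ?_ ?_
    · rw [qzf_eq]
      exact ih _ ((sub0_deg _ _).trans hP)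
    · rw [qzf_eq]
      exact ih _ ((sub0_deg _ _).trans hP)

theorem tm_deg_two {n : ℕ} {P : MvPolynomial (Fin n) ℚ} (hP : P.totalDegree ≤ 2) : Tm (QZ P) := by
  induction n with
  | zero => exact Tm.of_finite (Set.toFinite _)
  | succ n ih =>
    by_cases hE : ∃ s : Fin (n + 1) → ℚ, eval s P = 0
    · obtain ⟨s, hs⟩ := hE
      rw [qz_eq]
      refine tm_tr (fun _ : Fin 1 => P) s ?_
      rw [qzf_eq]
      refine ha_zero (fun P' hP' => ih hP') ((tr_deg s P).trans hP) ?_
      have h1 : (eval (0 : Fin (n + 1) → ℚ)).comp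
          (aeval (fun i => X i + C (s i) : Fin (n + 1) → MvPolynomial (Fin (n + 1)) ℚ) :
            MvPolynomial (Fin (n + 1)) ℚ →ₐ[ℚ] MvPolynomial (Fin (n + 1)) ℚ).toRingHom =
          eval s := by
        apply MvPolynomial.ringHom_ext
        · intro r
          simp
        · intro i
          simp
      have h2 := congrArg (fun g : MvPolynomial (Fin (n + 1)) ℚ →+* ℚ => g P) h1
      exact h2.trans hs
    · have h0 : QZ P = ∅ := by
        ext x
        simp only [Set.mem_empty_iff_false, iff_false]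
        rintro ⟨q, hq, -⟩
        exact hE ⟨q, hq⟩
      rw [h0]
      exact Tm.empty

end Pool.Agent.MZT
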