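import Pool.Agent.MZT.Ha

/-!
# MZT module HB: two polynomials of degree at most 2

Induction on `n` as in `Ha.lean`. `n = 0`: finite. `n + 1`: `QZF F` empty, or translate a rational zero to `0` (`tm_tr`, `tr_deg`); `F j = L j + Q j`
(`quad_split`, `l j : Fin (n + 1) → ℚ`). Suppose `l 0 ≠ 0` (the case `l 1 ≠ 0` by symmetry, do the step for a general pair `j, j'`, `{j, j'} = {0, 1}`):
`QZF F = S₁ ∪ S₀`, `S₀ = {x ∈ QZF F | L 0 x = 0}`: `tm_hyp` and the induction hypothesis. `S₁ = {x ∈ QZF F | L 0 x ≠ 0}` is the image of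
`{v ∈ QZ C | L 0 v * Q 0 v ≠ 0}`, `C = L 0 * Q 1 - L 1 * Q 0` (degree at most 3, `hC`) under `v ↦ -(L 0 v / Q 0 v) • v`:
`F 0 (t v) = t (L 0 v + t Q 0 v) = 0` for `t = - L 0 v / Q 0 v`, `F 1 (t v) = t (L 1 v + t Q 1 v) = t (L 1 v * Q 0 v - L 0 v * Q 1 v) / Q 0 v = 0`; `L 0 (t v) ≠ 0`; and
`x ∈ S₁` is the image of `v = x` (`Q j x = - L j x`, so `C x = 0`). `Tm.ratmap`. If `l 0 = 0 = l 1`: both homogeneous of degree 2: `tm_cone` and the
induction hypothesis (`sub0_deg`).
-/

set_option autoImplicit false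

open Set Topology Filter MvPolynomial

namespace Pool.Agent.MZT

open Pool.Agent.MZ Pool.Agent.QTW

private theorem hb_eval_smul {n : ℕ} {P : MvPolynomial (Fin n) ℚ} (hP : P.IsHomogeneous 2)
    (w : Fin n → ℚ) (t : ℚ) : eval (fun j => t * w j) P = t ^ 2 * eval w P := by
  rw [eval_eq, eval_eq, Finset.mul_sum]
  refine Finset.sum_congr rfl fun d hd => ?_
  have h1 : ∑ i ∈ d.support, d i = 2 := by
    have h2 := hP (mem_support_iff.1 hd)
    rw [Finsupp.weight_apply] at h2
    simpa [Finsupp.sum] using h2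
  simp_rw [mul_pow]
  rw [Finset.prod_mul_distrib, Finset.prod_pow_eq_pow_sum, h1]
  ring

/-- linear form -/
private noncomputable def hbL {n : ℕ} (l : Fin n → ℚ) : MvPolynomial (Fin n) ℚ := ∑ i, C (l i) * X i

private theorem hb_evalL {n : ℕ} (l : Fin n → ℚ) (w : Fin n → ℚ) :
    eval w (hbL l) = ∑ i, l i * w i := by
  simp [hbL]

private theorem hb_degL {n : ℕ} (l : Fin n → ℚ) : (hbL l).totalDegree ≤ 1 := by
  refine totalDegree_finsetSum_le fun i _ => ?_
  refine (totalDegree_mul _ _).trans ?_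
  rw [totalDegree_C, totalDegree_X]

/-- real evaluation of a rational polynomial at a rational point -/
private theorem hb_map {n : ℕ} (P : MvPolynomial (Fin n) ℚ) (q : Fin n → ℚ) :
    eval (rv q) (map (algebraMap ℚ ℝ) P) = ((eval q P : ℚ) : ℝ) := by
  rw [eval_map, ← aeval_rv, aeval_def]

private theorem hb_step {n : ℕ}
    (F : Fin 2 → MvPolynomial (Fin n) ℚ) (l : Fin 2 → Fin n → ℚ) (Q : Fin 2 → MvPolynomial (Fin n) ℚ)
    (hQ : ∀ j, (Q j).IsHomogeneous 2) (hF : ∀ j, F j = hbL (l j) + Q j) {j j' : Fin 2}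
    (hj : ∀ k, k = j ∨ k = j') (hC : Tm (QZ (hbL (l j) * Q j' - hbL (l j') * Q j))) :
    Tm {x | x ∈ QZF F ∧ ∑ i, (l j i : ℝ) * x i ≠ 0} := by
  have h := hC.ratmap (map (algebraMap ℚ ℝ) (hbL (l j) * Q j))
    (fun a : Fin n => -(map (algebraMap ℚ ℝ) (hbL (l j)) ^ 2 * X a))
  have he : {x | x ∈ QZF F ∧ ∑ i, (l j i : ℝ) * x i ≠ 0} =
      (fun (x : Fin n → ℝ) (a : Fin n) =>
        eval x (-(map (algebraMap ℚ ℝ) (hbL (l j)) ^ 2 * X a)) /
          eval x (map (algebraMap ℚ ℝ) (hbL (l j) * Q j))) ''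
        {x | x ∈ QZ (hbL (l j) * Q j' - hbL (l j') * Q j) ∧
          eval x (map (algebraMap ℚ ℝ) (hbL (l j) * Q j)) ≠ 0} := by
    have hcast : ∀ s : Fin n → ℚ, ∑ i, (l j i : ℝ) * rv s i = ((∑ i, l j i * s i : ℚ) : ℝ) := by
      intro s
      push_cast
      rfl
    have hval : ∀ (s : Fin n → ℚ) (a : Fin n),
        eval (rv s) (-(map (algebraMap ℚ ℝ) (hbL (l j)) ^ 2 * X a)) /
          eval (rv s) (map (algebraMap ℚ ℝ) (hbL (l j) * Q j)) =
        ((-((∑ i, l j i * s i) ^ 2 * s a) / ((∑ i, l j i * s i) * eval s (Q j)) : ℚ) : ℝ) := by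
      intro s a
      rw [hb_map, map_neg, map_mul, map_pow, hb_map, eval_X, map_mul, hb_evalL]
      push_cast
      rfl
    ext x
    constructor
    · rintro ⟨⟨s, h1, rfl⟩, h2⟩
      rw [hcast] at h2
      have h2' : ∑ i, l j i * s i ≠ 0 := fun h => h2 (by rw [h]; norm_num)
      have h3 : ∀ k, eval s (Q k) = -∑ i, l k i * s i := by
        intro k
        have := h1 k
        rw [hF, map_add, hb_evalL] at this
        linarith
      refine ⟨rv s, ⟨⟨s, ?_, rfl⟩, ?_⟩, ?_⟩
      · rw [map_sub, map_mul, map_mul, hb_evalL, hb_evalL, h3, h3]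
        ring
      · rw [hb_map, map_mul, hb_evalL, h3]
        exact_mod_cast mul_ne_zero h2' (neg_ne_zero.2 h2')
      · funext a
        show _ / _ = _
        rw [hval, h3]
        show _ = ((s a : ℚ) : ℝ)
        congr 1
        field_simp
    · rintro ⟨x, ⟨⟨s, h1, rfl⟩, h2⟩, rfl⟩
      rw [hb_map, map_mul, hb_evalL] at h2
      have h2' : (∑ i, l j i * s i) * eval s (Q j) ≠ 0 := fun h => h2 (by rw [h]; norm_num)
      obtain ⟨h3, h4⟩ := mul_ne_zero_iff.1 h2'
      rw [map_sub, map_mul, map_mul, hb_evalL, hb_evalL] at h1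
      set t : ℚ := -(∑ i, l j i * s i) / eval s (Q j) with ht
      have h5 : (fun a : Fin n =>
          eval (rv s) (-(map (algebraMap ℚ ℝ) (hbL (l j)) ^ 2 * X a)) /
            eval (rv s) (map (algebraMap ℚ ℝ) (hbL (l j) * Q j))) = rv (fun a => t * s a) := by
        funext a
        rw [hval]
        show _ = ((t * s a : ℚ) : ℝ)
        congr 1
        rw [ht]
        field_simp
      have hsum : ∀ k, ∑ i, l k i * (t * s i) = t * ∑ i, l k i * s i := by
        intro k
        rw [Finset.mul_sum]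
        exact Finset.sum_congr rfl fun i _ => by ring
      refine ⟨⟨fun a => t * s a, fun k => ?_, h5⟩, ?_⟩
      · rw [hF, map_add, hb_evalL, hb_eval_smul (hQ k), hsum]
        rcases hj k with rfl | rfl
        · rw [ht]
          field_simp
          ring
        · have : t * ∑ i, l k i * s i + t ^ 2 * eval s (Q k) =
              t / eval s (Q j) * (-((∑ i, l j i * s i) * eval s (Q k) -
                (∑ i, l k i * s i) * eval s (Q j))) := by
            rw [ht]
            field_simp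
            ring
          rw [this, h1]
          ring
      · show ∑ i, (l j i : ℝ) * (fun a : Fin n =>
          eval (rv s) (-(map (algebraMap ℚ ℝ) (hbL (l j)) ^ 2 * X a)) /
            eval (rv s) (map (algebraMap ℚ ℝ) (hbL (l j) * Q j))) i ≠ 0
        rw [h5, hcast, hsum]
        have : t * ∑ i, l j i * s i ≠ 0 := by
          rw [ht]
          exact mul_ne_zero (div_ne_zero (neg_ne_zero.2 h3) h4) h3
        exact_mod_cast this
  rw [he]
  exact h

private theorem hb_zero (hC : ∀ (n : ℕ) (G : MvPolynomial (Fin n) ℚ), G.totalDegree ≤ 3 → Tm (QZ G))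
    {n : ℕ} (IH : ∀ F : Fin 2 → MvPolynomial (Fin n) ℚ, (∀ j, (F j).totalDegree ≤ 2) → Tm (QZF F))
    (F : Fin 2 → MvPolynomial (Fin (n + 1)) ℚ) (hF : ∀ j, (F j).totalDegree ≤ 2)
    (h0 : ∀ j, eval (0 : Fin (n + 1) → ℚ) (F j) = 0) : Tm (QZF F) := by
  choose l Q hQ hFQ using fun j => quad_split (hF j) (h0 j)
  by_cases hl : ∀ j i, l j i = 0
  · have hFh : ∀ j, (F j).IsHomogeneous 2 := by
      intro j
      have : F j = Q j := by
        rw [hFQ j]
        simp [hl]
      rw [this]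
      exact hQ j
    exact tm_cone F (fun _ => 2) hFh (IH _ fun j => (sub0_deg 1 (F j)).trans (hF j))
      (IH _ fun j => (sub0_deg 0 (F j)).trans (hF j))
  · push Not at hl
    obtain ⟨j, i, hi⟩ := hl
    obtain ⟨j', hj⟩ : ∃ j' : Fin 2, ∀ k, k = j ∨ k = j' := by
      revert j
      intro j _ 
      fin_cases j
      · exact ⟨1, by decide⟩
      · exact ⟨0, by decide⟩
    have h1 := tm_hyp F (l j) hi fun F' hF' => IH F' fun k => (hF' k).trans (hF k)
    have h2 := hb_step F l Q hQ (fun j => hFQ j) hj (hC _ _ ?_)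
    · have : QZF F = {x | x ∈ QZF F ∧ ∑ i, (l j i : ℝ) * x i ≠ 0} ∪
          {x | x ∈ QZF F ∧ ∑ i, (l j i : ℝ) * x i = 0} := by
        ext x
        constructor
        · intro hx
          by_cases hx' : ∑ i, (l j i : ℝ) * x i = 0
          · exact Or.inr ⟨hx, hx'⟩
          · exact Or.inl ⟨hx, hx'⟩
        · rintro (hx | hx)
          · exact hx.1
          · exact hx.1
      rw [this]
      exact h2.union h1
    · have h3 : ∀ a b : Fin 2, (hbL (l a) * Q b).totalDegree ≤ 3 := by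
        intro a b
        refine (totalDegree_mul _ _).trans ?_
        have h4 := hb_degL (l a)
        have h5 := (hQ b).totalDegree_le
        omega
      exact (totalDegree_sub _ _).trans (max_le (h3 _ _) (h3 _ _))

theorem tm_two (hC : ∀ (n : ℕ) (G : MvPolynomial (Fin n) ℚ), G.totalDegree ≤ 3 → Tm (QZ G)) {n : ℕ}
    (F : Fin 2 → MvPolynomial (Fin n) ℚ) (hF : ∀ j, (F j).totalDegree ≤ 2) : Tm (QZF F) := by
  induction n with
  | zero => exact Tm.of_finite (Set.toFinite _)
  | succ n IH =>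
    by_cases hs : ∃ s : Fin (n + 1) → ℚ, ∀ j, eval s (F j) = 0
    · obtain ⟨s, hs⟩ := hs
      refine tm_tr F s (hb_zero hC IH _ (fun j => (tr_deg s (F j)).trans (hF j)) fun j => ?_)
      rw [← hs j, tr, ← coe_aeval_eq_eval, ← coe_aeval_eq_eval]
      show aeval (0 : Fin (n + 1) → ℚ) (aeval (fun i => X i + C (s i)) (F j)) = aeval s (F j)
      rw [comp_aeval_apply]
      congr 2
      funext i
      simp
    · have : QZF F = ∅ := by
        rw [Set.eq_empty_iff_forall_notMem]
        rintro x ⟨q, hq, _⟩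
        exact hs ⟨q, hq⟩
      rw [this]
      exact Tm.empty

end Pool.Agent.MZT
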