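import Pool.Agent.MZT.Defs

/-!
# MZT module KA: a singular zero without smooth zeros nearby

`x̂ = hx 1 x`, `v̂ = hx 0 v`, `q v = T x̂ v̂ v̂`, `P (x + v) = 3 q v + T v̂ v̂ v̂` for a singular zero `x` (`T x̂ x̂ u = 0` for all `u`; compare `ez_expand` in
`MZ/Easy.lean`). By `hU` the zeros `y` of `P` near `x` satisfy `T ŷ ŷ u = 0` for all `u`. For `y = x + τ w` (`ŷ = x̂ + τ ŵ`):
`T ŷ ŷ x̂ = τ² q w`, `T ŷ ŷ v̂ = 2 τ T x̂ ŵ v̂ + τ² T ŵ ŵ v̂`.
`bad_a`: suppose `q v₁ > 0 > q v₂`. Let `γ σ = v₁ + σ (v₂ - v₁)`. For small `τ ≠ 0` the function `σ ↦ P (x + τ γ σ) / τ² = 3 q (γ σ) + τ T(γ σ)^3` is positive at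
`0` and negative at `1`, so it has a zero `σ_τ ∈ (0, 1)`, and `x + τ γ(σ_τ)` is near `x`: it is a singular zero, so `q (γ σ_τ) = 0` (take `u = x̂`).
`q ∘ γ` is a quadratic polynomial with `q (γ 0) > 0 > q (γ 1)`, so it has exactly one zero `σ* ∈ [0, 1]` (e.g. `q (γ σ) = a + b σ + c σ²`; or: two zeros `σ, σ'` in
`(0,1)` give `q(γ 0)` and `q(γ 1)` the same sign). So for two different small `τ` the same `w = γ σ*` works: `2 τ T x̂ ŵ v̂ + τ² T ŵ ŵ v̂ = 0` for two values of `τ`, so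
`T x̂ ŵ v̂ = 0` for all `v`. Then `q v₁ = q (w - σ* (v₂ - v₁)) = σ*² q (v₂ - v₁)` and `q v₂ = (1 - σ*)² q (v₂ - v₁)`: contradiction to the signs.
`bad_d`: if `q = 0` then `T x̂ v̂ ŵ = 0` for all `v, w` (polarise). Let `y = x + v` be the smooth zero: `T v̂ v̂ v̂ = 0`, so `x + λ v` is a zero for all `λ`; for small
`λ ≠ 0` it is singular: `0 = T ŷ ŷ ŵ = λ² T v̂ v̂ ŵ`, and `T ŷ ŷ x̂ = 0` for all `λ`; so `T ŷ ŷ u = 0` also for `λ = 1` (`u = u₀ x̂ + ŵ`): contradiction.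
`bad_b`: by `bad_a`, `bad_d` let `q ≥ 0` (or `≤ 0`) and `q u ≠ 0`; let `q v₀ = 0`, then `T x̂ v̂₀ ŵ = 0` for all `w` (semidefinite). Suppose `B = T v̂₀ v̂₀ v̂₀ ≠ 0`. Let
`γ σ = v₀ + σ u`: `P (x + τ γ σ) / τ² = 3 σ² q u + τ T(γ σ)^3`. For small `τ` with `τ B` and `q u` of opposite signs it has opposite signs at `σ = 0` and `σ = 1`, so there
is a zero `σ ∈ (0, 1)`, near `x`, singular: `0 = q (γ σ) = σ² q u`: contradiction.
`bad_c`: `v = x' - x`: `T x̂' x̂' x̂ = T x̂ x̂ x̂ + 2 T x̂ x̂ v̂ + T v̂ v̂ x̂ = q v`.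
-/

set_option autoImplicit false

open Set Topology Filter MvPolynomial

namespace Pool.Agent.MZT

open Pool.Agent.MZ Pool.Agent.QTW

variable {n : ℕ} {P : MvPolynomial (Fin n) ℚ} {C : Cub (n + 1)}

private theorem ka_add (v w : Fin n → ℝ) : hx 0 (v + w) = hx 0 v + hx 0 w := by
  rw [← hx_add, add_zero]

private theorem ka_smul (t : ℝ) (v : Fin n → ℝ) : hx 0 (t • v) = t • hx 0 v := by
  rw [← hx_smul, mul_zero]

private theorem ka_add1 (x v : Fin n → ℝ) : hx 1 (x + v) = hx 1 x + hx 0 v := by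
  rw [← hx_add, add_zero]

/-- expansion at a singular zero -/
theorem bad_expand (hPC : ∀ x : Fin n → ℝ, (aeval x P : ℝ) = C.T (hx 1 x) (hx 1 x) (hx 1 x))
    {x : Fin n → ℝ} (hs : ∀ u, C.T (hx 1 x) (hx 1 x) u = 0) (v : Fin n → ℝ) :
    (aeval (x + v) P : ℝ) = 3 * C.T (hx 1 x) (hx 0 v) (hx 0 v) +
      C.T (hx 0 v) (hx 0 v) (hx 0 v) := by
  have i1 : C.T (hx 1 x) (hx 0 v) (hx 1 x) = 0 := by rw [C.sym₂]; exact hs _
  have i2 : C.T (hx 0 v) (hx 1 x) (hx 1 x) = 0 := by rw [C.sym₁, i1]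
  have i3 : C.T (hx 0 v) (hx 1 x) (hx 0 v) = C.T (hx 1 x) (hx 0 v) (hx 0 v) := C.sym₁ _ _ _
  have i4 : C.T (hx 0 v) (hx 0 v) (hx 1 x) = C.T (hx 1 x) (hx 0 v) (hx 0 v) := by
    rw [C.sym₂, i3]
  rw [hPC, ka_add1]
  simp only [map_add, LinearMap.add_apply, i1, i2, i3, i4, hs]
  ring

/-- the square of a point near a singular zero against the zero and against a direction -/
private theorem ka_sq {x : Fin n → ℝ} (hs : ∀ u, C.T (hx 1 x) (hx 1 x) u = 0) (t : ℝ)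
    (w : Fin n → ℝ) (u : Fin (n + 1) → ℝ) :
    C.T (hx 1 (x + t • w)) (hx 1 (x + t • w)) u =
      2 * t * C.T (hx 1 x) (hx 0 w) u + t ^ 2 * C.T (hx 0 w) (hx 0 w) u := by
  have i3 : C.T (hx 0 w) (hx 1 x) u = C.T (hx 1 x) (hx 0 w) u := C.sym₁ _ _ _
  rw [ka_add1, ka_smul]
  simp only [map_add, map_smul, LinearMap.add_apply, LinearMap.smul_apply, smul_eq_mul, i3, hs]
  ring

/-- the quadratic part along a segment -/
private theorem ka_quad {x : Fin n → ℝ} (v d : Fin n → ℝ) (s : ℝ) :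
    C.T (hx 1 x) (hx 0 (v + s • d)) (hx 0 (v + s • d)) = C.T (hx 1 x) (hx 0 v) (hx 0 v) +
      2 * s * C.T (hx 1 x) (hx 0 v) (hx 0 d) + s ^ 2 * C.T (hx 1 x) (hx 0 d) (hx 0 d) := by
  have i3 : C.T (hx 1 x) (hx 0 d) (hx 0 v) = C.T (hx 1 x) (hx 0 v) (hx 0 d) := C.sym₂ _ _ _
  rw [ka_add, ka_smul]
  simp only [map_add, map_smul, LinearMap.add_apply, LinearMap.smul_apply, smul_eq_mul, i3]
  ring

/-- the cubic part along a segment -/
private theorem ka_cub (v d : Fin n → ℝ) (s : ℝ) :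
    C.T (hx 0 (v + s • d)) (hx 0 (v + s • d)) (hx 0 (v + s • d)) =
      C.T (hx 0 v) (hx 0 v) (hx 0 v) + 3 * s * C.T (hx 0 v) (hx 0 v) (hx 0 d) +
        3 * s ^ 2 * C.T (hx 0 v) (hx 0 d) (hx 0 d) + s ^ 3 * C.T (hx 0 d) (hx 0 d) (hx 0 d) := by
  have i1 : C.T (hx 0 v) (hx 0 d) (hx 0 v) = C.T (hx 0 v) (hx 0 v) (hx 0 d) := C.sym₂ _ _ _
  have i2 : C.T (hx 0 d) (hx 0 v) (hx 0 v) = C.T (hx 0 v) (hx 0 v) (hx 0 d) := by
    rw [C.sym₁, i1]
  have i3 : C.T (hx 0 d) (hx 0 v) (hx 0 d) = C.T (hx 0 v) (hx 0 d) (hx 0 d) := C.sym₁ _ _ _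
  have i4 : C.T (hx 0 d) (hx 0 d) (hx 0 v) = C.T (hx 0 v) (hx 0 d) (hx 0 d) := by
    rw [C.sym₂, i3]
  rw [ka_add, ka_smul]
  simp only [map_add, map_smul, LinearMap.add_apply, LinearMap.smul_apply, smul_eq_mul, i1, i2,
    i3, i4]
  ring

/-- a quadratic polynomial that changes sign on `[0, 1]` has at most one zero there -/
private theorem ka_uniq {a b c s t : ℝ} (h0 : 0 < a) (h1 : a + b + c < 0) (hs0 : 0 ≤ s)
    (hs1 : s ≤ 1) (ht0 : 0 ≤ t) (ht1 : t ≤ 1) (hs : a + s * b + s ^ 2 * c = 0)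
    (ht : a + t * b + t ^ 2 * c = 0) : s = t := by
  by_contra hne
  have e1 : (s - t) * (b + (s + t) * c) = 0 := by linear_combination hs - ht
  have e2 : b = -((s + t) * c) := by
    rcases mul_eq_zero.mp e1 with h | h
    · exact absurd (sub_eq_zero.mp h) hne
    · linear_combination h
  have e3 : a = s * t * c := by
    rw [e2] at hs
    linear_combination hs
  have hc : 0 < c := by
    by_contra hc
    have : s * t * c ≤ 0 := mul_nonpos_of_nonneg_of_nonpos (mul_nonneg hs0 ht0) (not_lt.mp hc)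
    linarith
  have e4 : a + b + c = (1 - s) * (1 - t) * c := by
    rw [e3, e2]
    ring
  have : 0 ≤ (1 - s) * (1 - t) * c :=
    mul_nonneg (mul_nonneg (sub_nonneg.mpr hs1) (sub_nonneg.mpr ht1)) hc.le
  linarith

theorem bad_a (hPC : ∀ x : Fin n → ℝ, (aeval x P : ℝ) = C.T (hx 1 x) (hx 1 x) (hx 1 x))
    {x : Fin n → ℝ} (hs : ∀ u, C.T (hx 1 x) (hx 1 x) u = 0)
    (hU : ∀ᶠ y in 𝓝 x, (aeval y P : ℝ) = 0 → ∀ u, C.T (hx 1 y) (hx 1 y) u = 0) :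
    (∀ v, 0 ≤ C.T (hx 1 x) (hx 0 v) (hx 0 v)) ∨ (∀ v, C.T (hx 1 x) (hx 0 v) (hx 0 v) ≤ 0) := by
  by_contra hne
  push Not at hne
  obtain ⟨⟨v₂, h2⟩, v₁, h1⟩ := hne
  obtain ⟨d, rfl⟩ : ∃ d, v₂ = v₁ + d := ⟨v₂ - v₁, (add_sub_cancel v₁ v₂).symm⟩
  have hq := ka_quad (C := C) (x := x) v₁ d
  have hk := ka_cub (C := C) v₁ d
  have hq1 := hq 1
  rw [one_smul] at hq1
  set a := C.T (hx 1 x) (hx 0 v₁) (hx 0 v₁) with ha
  set b := C.T (hx 1 x) (hx 0 v₁) (hx 0 d) with hb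
  set c := C.T (hx 1 x) (hx 0 d) (hx 0 d) with hc
  set k0 := C.T (hx 0 v₁) (hx 0 v₁) (hx 0 v₁) with hk0
  set k1 := C.T (hx 0 v₁) (hx 0 v₁) (hx 0 d) with hk1'
  set k2 := C.T (hx 0 v₁) (hx 0 d) (hx 0 d) with hk2
  set k3 := C.T (hx 0 d) (hx 0 d) (hx 0 d) with hk3
  rw [hq1] at h2
  have h2' : a + 2 * b + c < 0 := by linarith
  obtain ⟨ε, hε, hball⟩ := Metric.eventually_nhds_iff.mp hU
  -- the claim for one small `τ`
  have key : ∀ τ : ℝ, τ ≠ 0 → 0 < 3 * a + τ * k0 →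
      3 * (a + 2 * b + c) + τ * (k0 + 3 * k1 + 3 * k2 + k3) < 0 →
      |τ| * (‖v₁‖ + ‖d‖) < ε →
      ∃ s : ℝ, 0 ≤ s ∧ s ≤ 1 ∧ a + s * (2 * b) + s ^ 2 * c = 0 ∧
        2 * (b + s * c) + τ * C.T (hx 0 (v₁ + s • d)) (hx 0 (v₁ + s • d)) (hx 0 d) = 0 := by
    intro τ hτ hp hn hsm
    have hcont : ContinuousOn (fun s : ℝ => 3 * (a + 2 * s * b + s ^ 2 * c) +
        τ * (k0 + 3 * s * k1 + 3 * s ^ 2 * k2 + s ^ 3 * k3)) (Icc 0 1) := by
      fun_prop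
    obtain ⟨s, ⟨hs0, hs1⟩, hsz⟩ := intermediate_value_Icc' (zero_le_one' ℝ) hcont
      (⟨by norm_num; linarith, by norm_num; linarith⟩ : (0 : ℝ) ∈ Icc _ _)
    simp only at hsz
    have hP0 : (aeval (x + τ • (v₁ + s • d)) P : ℝ) = 0 := by
      rw [bad_expand hPC hs, ka_smul]
      simp only [map_smul, LinearMap.smul_apply, smul_eq_mul]
      rw [hq s, hk s]
      linear_combination τ ^ 2 * hsz
    have hnear : dist (x + τ • (v₁ + s • d)) x < ε := by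
      rw [dist_eq_norm, add_sub_cancel_left, norm_smul, Real.norm_eq_abs]
      refine lt_of_le_of_lt (mul_le_mul_of_nonneg_left ?_ (abs_nonneg τ)) hsm
      refine (norm_add_le _ _).trans (add_le_add le_rfl ?_)
      rw [norm_smul, Real.norm_eq_abs, abs_of_nonneg hs0]
      exact mul_le_of_le_one_left (norm_nonneg d) hs1
    have hsing := hball hnear hP0
    refine ⟨s, hs0, hs1, ?_, ?_⟩
    · have h3 := hsing (hx 1 x)
      rw [ka_sq hs] at h3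
      have j1 : C.T (hx 1 x) (hx 0 (v₁ + s • d)) (hx 1 x) = 0 := by rw [C.sym₂]; exact hs _
      have j2 : C.T (hx 0 (v₁ + s • d)) (hx 0 (v₁ + s • d)) (hx 1 x) =
          C.T (hx 1 x) (hx 0 (v₁ + s • d)) (hx 0 (v₁ + s • d)) := by
        rw [C.sym₂, C.sym₁]
      rw [j1, j2, hq s, mul_zero, zero_add] at h3
      have h4 := (mul_eq_zero.mp h3).resolve_left (pow_ne_zero 2 hτ)
      linear_combination h4
    · have h3 := hsing (hx 0 d)
      rw [ka_sq hs] at h3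
      have j1 : C.T (hx 1 x) (hx 0 (v₁ + s • d)) (hx 0 d) = b + s * c := by
        rw [ka_add, ka_smul]
        simp only [map_add, map_smul, LinearMap.add_apply, LinearMap.smul_apply, smul_eq_mul]
        rw [← hb, ← hc]
      rw [j1] at h3
      have h4 : τ * (2 * (b + s * c) +
          τ * C.T (hx 0 (v₁ + s • d)) (hx 0 (v₁ + s • d)) (hx 0 d)) = 0 := by
        linear_combination h3
      exact (mul_eq_zero.mp h4).resolve_left hτ
  -- small `τ`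
  have E1 : ∀ᶠ τ in 𝓝 (0 : ℝ), 0 < 3 * a + τ * k0 := by
    have : ContinuousAt (fun τ : ℝ => 3 * a + τ * k0) 0 := by fun_prop
    exact this.eventually_const_lt (by simpa using h1)
  have E2 : ∀ᶠ τ in 𝓝 (0 : ℝ),
      3 * (a + 2 * b + c) + τ * (k0 + 3 * k1 + 3 * k2 + k3) < 0 := by
    have : ContinuousAt
      (fun τ : ℝ => 3 * (a + 2 * b + c) + τ * (k0 + 3 * k1 + 3 * k2 + k3)) 0 := by fun_prop
    exact this.eventually_lt_const (by
      simp only [zero_mul, add_zero]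
      linarith)
  have E3 : ∀ᶠ τ in 𝓝 (0 : ℝ), |τ| * (‖v₁‖ + ‖d‖) < ε := by
    have : ContinuousAt (fun τ : ℝ => |τ| * (‖v₁‖ + ‖d‖)) 0 := by fun_prop
    exact this.eventually_lt_const (by simpa using hε)
  obtain ⟨δ, hδ, hδb⟩ := Metric.eventually_nhds_iff.mp (E1.and (E2.and E3))
  have hd1 := hδb (y := δ / 2) (by
    rw [Real.dist_eq, sub_zero, abs_of_pos (by positivity)]
    linarith)
  have hd2 := hδb (y := δ / 3) (by
    rw [Real.dist_eq, sub_zero, abs_of_pos (by positivity)]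
    linarith)
  obtain ⟨s, hs0, hs1, hsq, hsl⟩ := key (δ / 2) (by positivity) hd1.1 hd1.2.1 hd1.2.2
  obtain ⟨t, ht0, ht1, htq, htl⟩ := key (δ / 3) (by positivity) hd2.1 hd2.2.1 hd2.2.2
  have hst : s = t := ka_uniq h1 h2' hs0 hs1 ht0 ht1 hsq htq
  subst hst
  set K := C.T (hx 0 (v₁ + s • d)) (hx 0 (v₁ + s • d)) (hx 0 d) with hK
  have hK0 : K = 0 := by
    have : δ * K = 0 := by linear_combination 6 * hsl - 6 * htl
    exact (mul_eq_zero.mp this).resolve_left hδ.ne'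
  have hbc : b + s * c = 0 := by
    rw [hK0] at hsl
    linarith
  have e1 : a = s ^ 2 * c := by linear_combination hsq - 2 * s * hbc
  have e2 : a + 2 * b + c = (1 - s) ^ 2 * c := by linear_combination e1 + 2 * hbc
  have hc0 : 0 < c := by
    by_contra hc0
    have : s ^ 2 * c ≤ 0 := mul_nonpos_of_nonneg_of_nonpos (sq_nonneg s) (not_lt.mp hc0)
    linarith
  have : 0 ≤ (1 - s) ^ 2 * c := mul_nonneg (sq_nonneg _) hc0.le
  linarith

end Pool.Agent.MZT
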