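import Pool.Agent.MZT.Ka

/-!
# MZT module KB: a singular zero without smooth zeros nearby, second part (plan in `Ka.lean`)
-/

set_option autoImplicit false

open Set Topology Filter MvPolynomial

namespace Pool.Agent.MZT

open Pool.Agent.MZ Pool.Agent.QTW

variable {n : ℕ} {P : MvPolynomial (Fin n) ℚ} {C : Cub (n + 1)}

private theorem kb_add (x v : Fin n → ℝ) : hx 1 (x + v) = hx 1 x + hx 0 v := by
  rw [← hx_add, add_zero]

private theorem kb_add0 (v w : Fin n → ℝ) : hx 0 (v + w) = hx 0 v + hx 0 w := by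
  rw [← hx_add, add_zero]

private theorem kb_smul (t : ℝ) (v : Fin n → ℝ) : hx 0 (t • v) = t • hx 0 v := by
  rw [← hx_smul, mul_zero]

private theorem kb_dec (x : Fin n → ℝ) (w : Fin (n + 1) → ℝ) :
    ∃ w' : Fin n → ℝ, w = w 0 • hx 1 x + hx 0 w' := by
  refine ⟨fun j => w j.succ - w 0 * x j, ?_⟩
  funext i
  refine Fin.cases ?_ (fun j => ?_) i
  · simp [hx]
  · simp [hx]

/-- the symmetries, with one vector repeated -/
private theorem kb_s (a b : Fin (n + 1) → ℝ) : C.T a b a = C.T a a b := C.sym₂ _ _ _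

private theorem kb_s' (a b : Fin (n + 1) → ℝ) : C.T b a a = C.T a a b := by
  rw [C.sym₁, kb_s]

private theorem kb_exp2 {x : Fin n → ℝ} (hs : ∀ u, C.T (hx 1 x) (hx 1 x) u = 0)
    (g : Fin (n + 1) → ℝ) (τ : ℝ) (u : Fin (n + 1) → ℝ) :
    C.T (hx 1 x + τ • g) (hx 1 x + τ • g) u = 2 * τ * C.T (hx 1 x) g u + τ ^ 2 * C.T g g u := by
  have h1 : C.T g (hx 1 x) u = C.T (hx 1 x) g u := C.sym₁ _ _ _
  simp only [map_add, map_smul, LinearMap.add_apply, LinearMap.smul_apply, smul_eq_mul, h1, hs]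
  ring

/-- a null vector of a semidefinite form is in the kernel -/
private theorem kb_semi {x : Fin n → ℝ}
    (ha : (∀ v, 0 ≤ C.T (hx 1 x) (hx 0 v) (hx 0 v)) ∨ (∀ v, C.T (hx 1 x) (hx 0 v) (hx 0 v) ≤ 0))
    {v : Fin n → ℝ} (hv : C.T (hx 1 x) (hx 0 v) (hx 0 v) = 0) (w : Fin n → ℝ) :
    C.T (hx 1 x) (hx 0 v) (hx 0 w) = 0 := by
  by_contra hB
  have key : ∀ t : ℝ, C.T (hx 1 x) (hx 0 (t • v + w)) (hx 0 (t • v + w)) =
      2 * t * C.T (hx 1 x) (hx 0 v) (hx 0 w) + C.T (hx 1 x) (hx 0 w) (hx 0 w) := by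
    intro t
    have h1 : C.T (hx 1 x) (hx 0 w) (hx 0 v) = C.T (hx 1 x) (hx 0 v) (hx 0 w) := C.sym₂ _ _ _
    rw [kb_add0, kb_smul]
    simp only [map_add, map_smul, LinearMap.add_apply, LinearMap.smul_apply, smul_eq_mul, h1, hv]
    ring
  rcases ha with ha | ha
  · have h1 := ha ((-(C.T (hx 1 x) (hx 0 w) (hx 0 w) + 1) / (2 * C.T (hx 1 x) (hx 0 v) (hx 0 w))) • v
      + w)
    rw [key] at h1
    have h2 : 2 * (-(C.T (hx 1 x) (hx 0 w) (hx 0 w) + 1) / (2 * C.T (hx 1 x) (hx 0 v) (hx 0 w))) *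
        C.T (hx 1 x) (hx 0 v) (hx 0 w) = -(C.T (hx 1 x) (hx 0 w) (hx 0 w) + 1) := by
      field_simp
    rw [h2] at h1
    linarith
  · have h1 := ha (((1 - C.T (hx 1 x) (hx 0 w) (hx 0 w)) / (2 * C.T (hx 1 x) (hx 0 v) (hx 0 w))) • v
      + w)
    rw [key] at h1
    have h2 : 2 * ((1 - C.T (hx 1 x) (hx 0 w) (hx 0 w)) / (2 * C.T (hx 1 x) (hx 0 v) (hx 0 w))) *
        C.T (hx 1 x) (hx 0 v) (hx 0 w) = 1 - C.T (hx 1 x) (hx 0 w) (hx 0 w) := by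
      field_simp
    rw [h2] at h1
    linarith

theorem bad_d (hPC : ∀ x : Fin n → ℝ, (aeval x P : ℝ) = C.T (hx 1 x) (hx 1 x) (hx 1 x))
    {x : Fin n → ℝ} (hs : ∀ u, C.T (hx 1 x) (hx 1 x) u = 0)
    (hU : ∀ᶠ y in 𝓝 x, (aeval y P : ℝ) = 0 → ∀ u, C.T (hx 1 y) (hx 1 y) u = 0)
    (hne : ∃ y : Fin n → ℝ, (aeval y P : ℝ) = 0 ∧ ∃ u, C.T (hx 1 y) (hx 1 y) u ≠ 0) :
    ∃ v, C.T (hx 1 x) (hx 0 v) (hx 0 v) ≠ 0 := by
  by_contra hcon
  push Not at hcon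
  have hpol : ∀ v w, C.T (hx 1 x) (hx 0 v) (hx 0 w) = 0 := fun v w =>
    kb_semi (Or.inl fun v => (hcon v).ge) (hcon v) w
  obtain ⟨y, hy, u₀, hu₀⟩ := hne
  obtain ⟨v, rfl⟩ : ∃ v, y = x + v := ⟨y - x, by abel⟩
  have hB : C.T (hx 0 v) (hx 0 v) (hx 0 v) = 0 := by
    rw [bad_expand hPC hs, hcon, mul_zero, zero_add] at hy
    exact hy
  have hz : ∀ l : ℝ, (aeval (x + l • v) P : ℝ) = 0 := by
    intro l
    rw [bad_expand hPC hs, hcon, mul_zero, zero_add, kb_smul]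
    simp only [map_smul, LinearMap.smul_apply, smul_eq_mul, hB, mul_zero]
  have hmix : ∀ w, C.T (hx 1 x) (hx 0 v) w = 0 := by
    intro w
    obtain ⟨w', hw'⟩ := kb_dec x w
    rw [hw', map_add, map_smul, hpol, kb_s, hs, smul_zero, add_zero]
  obtain ⟨l, hl0, hl⟩ : ∃ l : ℝ, l ≠ 0 ∧ ∀ u, C.T (hx 1 (x + l • v)) (hx 1 (x + l • v)) u = 0 := by
    have hc : Tendsto (fun l : ℝ => x + l • v) (𝓝[≠] 0) (𝓝 x) := by
      have h1 : Tendsto (fun l : ℝ => x + l • v) (𝓝 0) (𝓝 (x + (0 : ℝ) • v)) :=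
        (Continuous.tendsto (by fun_prop) 0)
      rw [zero_smul, add_zero] at h1
      exact h1.mono_left nhdsWithin_le_nhds
    obtain ⟨l, h1, h2⟩ := ((hc.eventually hU).and self_mem_nhdsWithin).exists
    exact ⟨l, h2, h1 (hz l)⟩
  have hVV : ∀ w, C.T (hx 0 v) (hx 0 v) w = 0 := by
    intro w
    have h1 := hl w
    rw [kb_add, kb_smul, kb_exp2 hs, hmix, mul_zero, zero_add] at h1
    exact (mul_eq_zero.1 h1).resolve_left (pow_ne_zero 2 hl0)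
  apply hu₀
  have h1 := kb_exp2 hs (hx 0 v) 1 u₀
  rw [one_smul, ← kb_add, hmix, hVV] at h1
  rw [h1]
  ring

theorem bad_b (hPC : ∀ x : Fin n → ℝ, (aeval x P : ℝ) = C.T (hx 1 x) (hx 1 x) (hx 1 x))
    {x : Fin n → ℝ} (hs : ∀ u, C.T (hx 1 x) (hx 1 x) u = 0)
    (hU : ∀ᶠ y in 𝓝 x, (aeval y P : ℝ) = 0 → ∀ u, C.T (hx 1 y) (hx 1 y) u = 0)
    (hne : ∃ y : Fin n → ℝ, (aeval y P : ℝ) = 0 ∧ ∃ u, C.T (hx 1 y) (hx 1 y) u ≠ 0) {v : Fin n → ℝ}
    (hv : C.T (hx 1 x) (hx 0 v) (hx 0 v) = 0) : C.T (hx 0 v) (hx 0 v) (hx 0 v) = 0 := by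
  by_contra hB
  have ha := bad_a hPC hs hU
  obtain ⟨u, hu⟩ := bad_d hPC hs hU hne
  have hvu : C.T (hx 1 x) (hx 0 v) (hx 0 u) = 0 := kb_semi ha hv u
  have huv : C.T (hx 1 x) (hx 0 u) (hx 0 v) = 0 := by rw [C.sym₂, hvu]
  -- the cubic on the segment
  set c : ℝ → ℝ := fun σ => C.T (hx 0 v + σ • hx 0 u) (hx 0 v + σ • hx 0 u) (hx 0 v + σ • hx 0 u)
    with hc
  have hccont : Continuous c := by
    have h1 : c = fun σ => C.T (hx 0 v) (hx 0 v) (hx 0 v) +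
        σ * (3 * C.T (hx 0 v) (hx 0 v) (hx 0 u)) + σ ^ 2 * (3 * C.T (hx 0 u) (hx 0 u) (hx 0 v)) +
        σ ^ 3 * C.T (hx 0 u) (hx 0 u) (hx 0 u) := by
      funext σ
      have e1 : C.T (hx 0 v) (hx 0 u) (hx 0 v) = C.T (hx 0 v) (hx 0 v) (hx 0 u) := kb_s _ _
      have e2 : C.T (hx 0 u) (hx 0 v) (hx 0 v) = C.T (hx 0 v) (hx 0 v) (hx 0 u) := kb_s' _ _
      have e3 : C.T (hx 0 u) (hx 0 v) (hx 0 u) = C.T (hx 0 u) (hx 0 u) (hx 0 v) := kb_s _ _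
      have e4 : C.T (hx 0 v) (hx 0 u) (hx 0 u) = C.T (hx 0 u) (hx 0 u) (hx 0 v) := kb_s' _ _
      simp only [hc, map_add, map_smul, LinearMap.add_apply, LinearMap.smul_apply, smul_eq_mul,
        e1, e2, e3, e4]
      ring
    rw [h1]
    fun_prop
  have hc0 : c 0 = C.T (hx 0 v) (hx 0 v) (hx 0 v) := by simp [hc]
  have hexp : ∀ τ σ : ℝ, (aeval (x + τ • (v + σ • u)) P : ℝ) =
      τ ^ 2 * (3 * σ ^ 2 * C.T (hx 1 x) (hx 0 u) (hx 0 u) + τ * c σ) := by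
    intro τ σ
    rw [bad_expand hPC hs, kb_smul, kb_add0, kb_smul]
    simp only [hc]
    set g := hx 0 v + σ • hx 0 u with hg
    have h1 : C.T (hx 1 x) g g = σ ^ 2 * C.T (hx 1 x) (hx 0 u) (hx 0 u) := by
      rw [hg]
      simp only [map_add, map_smul, LinearMap.add_apply, LinearMap.smul_apply, smul_eq_mul, hv,
        hvu, huv]
      ring
    simp only [map_smul, LinearMap.smul_apply, smul_eq_mul, h1]
    ring
  obtain ⟨ε, hε, hball⟩ := Metric.eventually_nhds_iff.1 hU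
  -- choice of τ
  set q := C.T (hx 1 x) (hx 0 u) (hx 0 u) with hq
  set B := C.T (hx 0 v) (hx 0 v) (hx 0 v) with hBdef
  obtain ⟨r, hr0, hr1, hr2⟩ : ∃ r : ℝ, 0 < r ∧ r * (‖v‖ + ‖u‖) < ε ∧ r * |c 1| < 3 * |q| := by
    have h1 : 0 < ‖v‖ + ‖u‖ + 1 := by positivity
    have h2 : 0 < |c 1| + 1 := by positivity
    have h3 : 0 < |q| := abs_pos.2 hu
    refine ⟨min (ε / (‖v‖ + ‖u‖ + 1)) (|q| / (|c 1| + 1)), by positivity, ?_, ?_⟩
    · calc min (ε / (‖v‖ + ‖u‖ + 1)) (|q| / (|c 1| + 1)) * (‖v‖ + ‖u‖)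
          ≤ ε / (‖v‖ + ‖u‖ + 1) * (‖v‖ + ‖u‖) :=
            mul_le_mul_of_nonneg_right (min_le_left _ _) (by positivity)
        _ < ε / (‖v‖ + ‖u‖ + 1) * (‖v‖ + ‖u‖ + 1) := by
            apply mul_lt_mul_of_pos_left _ (by positivity)
            linarith
        _ = ε := by field_simp
    · calc min (ε / (‖v‖ + ‖u‖ + 1)) (|q| / (|c 1| + 1)) * |c 1|
          ≤ |q| / (|c 1| + 1) * |c 1| :=
            mul_le_mul_of_nonneg_right (min_le_right _ _) (abs_nonneg _)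
        _ ≤ |q| / (|c 1| + 1) * (|c 1| + 1) := by
            apply mul_le_mul_of_nonneg_left _ (by positivity)
            linarith
        _ = |q| := by field_simp
        _ < 3 * |q| := by linarith
  -- a zero of the quadratic-cubic function
  obtain ⟨τ, hτ0, hτr, σ, hσ0, hσ1, hσ⟩ : ∃ τ : ℝ, τ ≠ 0 ∧ |τ| = r ∧ ∃ σ : ℝ, 0 < σ ∧ σ ≤ 1 ∧
      3 * σ ^ 2 * q + τ * c σ = 0 := by
    have key : ∀ τ : ℝ, |τ| = r → (τ * B) * q < 0 → ∃ σ : ℝ, 0 < σ ∧ σ ≤ 1 ∧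
        3 * σ ^ 2 * q + τ * c σ = 0 := by
      intro τ hτ hneg
      set f : ℝ → ℝ := fun σ => (3 * σ ^ 2 * q + τ * c σ) * q with hf
      have hfc : Continuous f := by fun_prop
      have hf0 : f 0 < 0 := by
        simp only [hf, hc0]
        calc (3 * (0 : ℝ) ^ 2 * q + τ * B) * q = (τ * B) * q := by ring
          _ < 0 := hneg
      have hf1 : 0 < f 1 := by
        have h1 : |τ * c 1| < 3 * |q| := by rw [abs_mul, hτ]; exact hr2
        have h2 : |τ * c 1 * q| < 3 * q ^ 2 := by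
          rw [abs_mul]
          have h3 : 0 < |q| := abs_pos.2 hu
          calc |τ * c 1| * |q| < 3 * |q| * |q| := mul_lt_mul_of_pos_right h1 h3
            _ = 3 * q ^ 2 := by rw [mul_assoc, abs_mul_abs_self]; ring
        have h3 := (abs_lt.1 h2).1
        simp only [hf]
        nlinarith
      obtain ⟨σ, ⟨hσ0, hσ1⟩, hσ⟩ := intermediate_value_Icc (zero_le_one) hfc.continuousOn
        ⟨hf0.le, hf1.le⟩
      refine ⟨σ, ?_, hσ1, ?_⟩
      · rcases hσ0.lt_or_eq with h1 | h1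
        · exact h1
        · rw [← h1] at hσ
          exact absurd hσ hf0.ne
      · exact (mul_eq_zero.1 hσ).resolve_right hu
    rcases lt_or_gt_of_ne (mul_ne_zero hB hu) with h1 | h1
    · obtain ⟨σ, h2⟩ := key r (abs_of_pos hr0) (by
        calc r * B * q = r * (B * q) := by ring
          _ < 0 := mul_neg_of_pos_of_neg hr0 h1)
      exact ⟨r, hr0.ne', abs_of_pos hr0, σ, h2⟩
    · obtain ⟨σ, h2⟩ := key (-r) (by rw [abs_neg, abs_of_pos hr0]) (by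
        calc -r * B * q = -(r * (B * q)) := by ring
          _ < 0 := neg_neg_of_pos (mul_pos hr0 h1))
      exact ⟨-r, neg_ne_zero.2 hr0.ne', by rw [abs_neg, abs_of_pos hr0], σ, h2⟩
  have hdist : dist (x + τ • (v + σ • u)) x < ε := by
    rw [dist_eq_norm, add_sub_cancel_left, norm_smul, Real.norm_eq_abs, hτr]
    refine lt_of_le_of_lt ?_ hr1
    refine mul_le_mul_of_nonneg_left ?_ hr0.le
    refine (norm_add_le _ _).trans ?_
    rw [norm_smul, Real.norm_eq_abs, abs_of_pos hσ0]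
    have := norm_nonneg u
    nlinarith
  have hzero : (aeval (x + τ • (v + σ • u)) P : ℝ) = 0 := by rw [hexp, hσ, mul_zero]
  have hsing := hball hdist hzero (hx 1 x)
  rw [kb_add, kb_smul, kb_exp2 hs, kb_s, hs, mul_zero, zero_add] at hsing
  have h1 : C.T (hx 0 (v + σ • u)) (hx 0 (v + σ • u)) (hx 1 x) = σ ^ 2 * q := by
    rw [← kb_s', kb_add0, kb_smul]
    simp only [map_add, map_smul, LinearMap.add_apply, LinearMap.smul_apply, smul_eq_mul, hv,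
      hvu, huv]
    ring
  rw [h1] at hsing
  have h2 : τ ^ 2 * (σ ^ 2 * q) ≠ 0 :=
    mul_ne_zero (pow_ne_zero 2 hτ0) (mul_ne_zero (pow_ne_zero 2 hσ0.ne') hu)
  exact h2 hsing

/-- the kernel of the semidefinite form is linear -/
theorem bad_lin {x : Fin n → ℝ}
    (ha : (∀ v, 0 ≤ C.T (hx 1 x) (hx 0 v) (hx 0 v)) ∨ (∀ v, C.T (hx 1 x) (hx 0 v) (hx 0 v) ≤ 0))
    {v w : Fin n → ℝ} (hv : C.T (hx 1 x) (hx 0 v) (hx 0 v) = 0)
    (hw : C.T (hx 1 x) (hx 0 w) (hx 0 w) = 0) (a b : ℝ) :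
    C.T (hx 1 x) (hx 0 (a • v + b • w)) (hx 0 (a • v + b • w)) = 0 := by
  have h1 := kb_semi ha hv w
  have h2 := kb_semi ha hw v
  rw [kb_add0, kb_smul, kb_smul]
  simp only [map_add, map_smul, LinearMap.add_apply, LinearMap.smul_apply, smul_eq_mul, hv, hw, h1,
    h2]
  ring

theorem bad_c {x x' : Fin n → ℝ} (hs : ∀ u, C.T (hx 1 x) (hx 1 x) u = 0)
    (hs' : ∀ u, C.T (hx 1 x') (hx 1 x') u = 0) :
    C.T (hx 1 x) (hx 0 (x' - x)) (hx 0 (x' - x)) = 0 := by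
  have h1 : hx 0 (x' - x) = hx 1 x' - hx 1 x := by
    have h2 : hx 1 (x + (x' - x)) = hx 1 x + hx 0 (x' - x) := kb_add _ _
    rw [add_sub_cancel] at h2
    rw [h2, add_sub_cancel_left]
  have h3 : C.T (hx 1 x) (hx 1 x') (hx 1 x') = 0 := by rw [kb_s', hs']
  have h4 : C.T (hx 1 x) (hx 1 x') (hx 1 x) = 0 := by rw [kb_s, hs]
  rw [h1]
  simp only [map_sub, LinearMap.sub_apply, h3, h4, hs]
  ring

end Pool.Agent.MZT
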