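import Pool.Agent.MZT.Fb
import Pool.Agent.MZT.Fe
import Pool.Agent.MZT.Gb

/-!
# MZT module KC: an irreducible cubic with a rational singular point `s` in affine space

`ŝ = hx 1 (rv s)`, `A v = T ŝ v̂ v̂`, `B v = T v̂ v̂ v̂`, `P (s + v) = 3 A v + B v`.
`S2 = {y ∈ QZ P | A (y - s) ≠ 0}` is the image of the rational `v` with `A v * B v ≠ 0` under
`v ↦ s - (3 A v / B v) • v`: `tm_S2` by `Tm.ratmap` from `Tm.ratpts`, with `D = A * B` and numerators
`A v * (s i * B v - 3 A v * v i)`.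
-/

set_option autoImplicit false

open Set Topology Filter MvPolynomial

namespace Pool.Agent.MZT

open Pool.Agent.MZ Pool.Agent.QTW

variable {n : ℕ} {P : MvPolynomial (Fin n) ℚ} {C : Cub (n + 1)}

/-- rational zeros outside the tangent cone at `s` -/
def S2 (P : MvPolynomial (Fin n) ℚ) (C : Cub (n + 1)) (s : Fin n → ℚ) : Set (Fin n → ℝ) :=
  {y | y ∈ QZ P ∧ C.T (hx 1 (rv s)) (hx 0 (y - rv s)) (hx 0 (y - rv s)) ≠ 0}

theorem kc_expand (hPC : ∀ x : Fin n → ℝ, (aeval x P : ℝ) = C.T (hx 1 x) (hx 1 x) (hx 1 x))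
    (s : Fin n → ℝ) (h0 : ∀ u, C.T (hx 1 s) (hx 1 s) u = 0) (v : Fin n → ℝ) :
    (aeval (s + v) P : ℝ) =
      3 * C.T (hx 1 s) (hx 0 v) (hx 0 v) + C.T (hx 0 v) (hx 0 v) (hx 0 v) := by
  have e : hx 1 (s + v) = hx 1 s + hx 0 v := by rw [← hx_add, add_zero]
  have i1 : C.T (hx 1 s) (hx 0 v) (hx 1 s) = 0 := by rw [C.sym₂, h0]
  have i2 : C.T (hx 0 v) (hx 1 s) (hx 1 s) = 0 := by rw [C.sym₁, i1]
  have i3 : C.T (hx 0 v) (hx 1 s) (hx 0 v) = C.T (hx 1 s) (hx 0 v) (hx 0 v) := C.sym₁ _ _ _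
  have i4 : C.T (hx 0 v) (hx 0 v) (hx 1 s) = C.T (hx 1 s) (hx 0 v) (hx 0 v) := by
    rw [C.sym₂, i3]
  rw [hPC, e]
  simp only [map_add, LinearMap.add_apply, i1, i2, i3, i4, h0]
  ring

theorem kc_polyR0 (i : Fin (n + 1)) : PolyR n fun v => hx 0 v i := by
  refine Fin.cases ?_ (fun j => ?_) i
  · have h : (fun v : Fin n → ℝ => hx 0 v 0) = fun _ => (0 : ℝ) := by
      funext v
      simp [hx]
    rw [h]
    exact PolyR.const 0
  · have h : (fun v : Fin n → ℝ => hx 0 v j.succ) = fun v => v j := by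
      funext v
      simp [hx]
    rw [h]
    exact PolyR.coord j

theorem kc_smul (t : ℝ) (v : Fin n → ℝ) : hx 0 (t • v) = t • hx 0 v := by
  rw [← hx_smul, mul_zero]

theorem tm_S2 (hPC : ∀ x : Fin n → ℝ, (aeval x P : ℝ) = C.T (hx 1 x) (hx 1 x) (hx 1 x))
    {s : Fin n → ℚ} (hs : ∀ u, C.T (hx 1 (rv s)) (hx 1 (rv s)) u = 0) : Tm (S2 P C s) := by
  have hr1 : IsRat (hx 1 (rv s)) := isRat_hx.mpr ⟨IsQ.one, ⟨s, rfl⟩⟩
  obtain ⟨A, hA⟩ : ∃ A : (Fin n → ℝ) → ℝ, A = fun v =>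
    C.T (hx 1 (rv s)) (hx 0 v) (hx 0 v) := ⟨_, rfl⟩
  obtain ⟨B, hB⟩ : ∃ B : (Fin n → ℝ) → ℝ, B = fun v =>
    C.T (hx 0 v) (hx 0 v) (hx 0 v) := ⟨_, rfl⟩
  have hAR : PolyR n A := by
    rw [hA]
    exact C.polyR (fun i => PolyR.const _) kc_polyR0 kc_polyR0
  have hBR : PolyR n B := by
    rw [hB]
    exact C.polyR kc_polyR0 kc_polyR0 kc_polyR0
  have hAQ : ∀ v, IsRat v → IsQ (A v) := by
    intro v hv
    have hv' := isRat_hx.mpr ⟨IsQ.zero, hv⟩
    rw [hA]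
    exact C.rat _ _ _ hr1 hv' hv'
  have hBQ : ∀ v, IsRat v → IsQ (B v) := by
    intro v hv
    have hv' := isRat_hx.mpr ⟨IsQ.zero, hv⟩
    rw [hB]
    exact C.rat _ _ _ hv' hv' hv'
  have hAh : ∀ (t : ℝ) (v : Fin n → ℝ), A (t • v) = t ^ 2 * A v := by
    intro t v
    rw [hA]
    simp only [kc_smul, map_smul, LinearMap.smul_apply, smul_eq_mul]
    ring
  have hBh : ∀ (t : ℝ) (v : Fin n → ℝ), B (t • v) = t ^ 3 * B v := by
    intro t v
    rw [hB]
    simp only [kc_smul, map_smul, LinearMap.smul_apply, smul_eq_mul]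
    ring
  have hP : ∀ v : Fin n → ℝ, (aeval (rv s + v) P : ℝ) = 3 * A v + B v := by
    intro v
    rw [kc_expand hPC _ hs, hA, hB]
  have hmem : ∀ y : Fin n → ℝ, y ∈ QZ P ↔
      IsRat (y - rv s) ∧ 3 * A (y - rv s) + B (y - rv s) = 0 := by
    intro y
    have h0 : rv s + (y - rv s) = y := by
      funext i
      simp
    constructor
    · rintro ⟨q, hq, rfl⟩
      refine ⟨(IsRat.rv q).sub (IsRat.rv s), ?_⟩
      rw [← hP, h0, aeval_rv, hq, Rat.cast_zero]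
    · rintro ⟨h1, h2⟩
      rw [← hP, h0] at h2
      have h3 : IsRat y := by
        rw [← h0]
        exact (IsRat.rv s).add h1
      obtain ⟨q, rfl⟩ := h3
      rw [aeval_rv] at h2
      exact ⟨q, by exact_mod_cast h2, rfl⟩
  obtain ⟨GA, hGA⟩ := hAR
  obtain ⟨GB, hGB⟩ := hBR
  have key : S2 P C s = (fun (x : Fin n → ℝ) (a : Fin n) =>
      eval x (GA * (MvPolynomial.C (s a : ℝ) * GB - MvPolynomial.C 3 * GA * X a)) /
        eval x (GA * GB)) '' {x | x ∈ {x : Fin n → ℝ | IsRat x} ∧ eval x (GA * GB) ≠ 0} := by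
    have hφ : ∀ v : Fin n → ℝ, A v * B v ≠ 0 → (fun a : Fin n =>
        eval v (GA * (MvPolynomial.C (s a : ℝ) * GB - MvPolynomial.C 3 * GA * X a)) /
        eval v (GA * GB)) = rv s + (-(3 * A v / B v)) • v := by
      intro v hv
      have a0 : A v ≠ 0 := left_ne_zero_of_mul hv
      have b0 : B v ≠ 0 := right_ne_zero_of_mul hv
      funext a
      simp only [map_mul, map_sub, eval_C, eval_X, hGA, hGB, Pi.add_apply, Pi.smul_apply,
        smul_eq_mul, rv]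
      field_simp
      ring
    apply Set.Subset.antisymm
    · rintro y ⟨hy, hyA⟩
      have hyA' : A (y - rv s) ≠ 0 := by rw [hA]; exact hyA
      obtain ⟨h1, h2⟩ := (hmem y).1 hy
      have hBy : B (y - rv s) = -(3 * A (y - rv s)) := by linarith
      have hne : A (y - rv s) * B (y - rv s) ≠ 0 := by
        rw [hBy]
        exact mul_ne_zero hyA' (neg_ne_zero.2 (mul_ne_zero (by norm_num) hyA'))
      refine ⟨y - rv s, ⟨h1, ?_⟩, ?_⟩
      · rw [map_mul, hGA, hGB]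
        exact hne
      · refine (hφ _ hne).trans ?_
        rw [hBy, div_neg, neg_neg, div_self (mul_ne_zero (by norm_num) hyA'), one_smul]
        exact add_sub_cancel _ _
    · rintro _ ⟨v, ⟨hvr, hv⟩, rfl⟩
      rw [map_mul, hGA, hGB] at hv
      have a0 : A v ≠ 0 := left_ne_zero_of_mul hv
      have b0 : B v ≠ 0 := right_ne_zero_of_mul hv
      have t0 : -(3 * A v / B v) ≠ 0 :=
        neg_ne_zero.2 (div_ne_zero (mul_ne_zero (by norm_num) a0) b0)
      have hsub : rv s + (-(3 * A v / B v)) • v - rv s = (-(3 * A v / B v)) • v :=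
        add_sub_cancel_left _ _
      show (fun a : Fin n =>
        eval v (GA * (MvPolynomial.C (s a : ℝ) * GB - MvPolynomial.C 3 * GA * X a)) /
        eval v (GA * GB)) ∈ S2 P C s
      rw [hφ v hv]
      refine ⟨(hmem _).2 ?_, ?_⟩
      · rw [hsub]
        refine ⟨IsRat.smul ((IsQ.mul ⟨3, by norm_num⟩ (hAQ v hvr)).div (hBQ v hvr)).neg hvr, ?_⟩
        rw [hAh, hBh]
        have h1 : -(3 * A v / B v) * B v = -(3 * A v) := by field_simp
        calc 3 * ((-(3 * A v / B v)) ^ 2 * A v) + (-(3 * A v / B v)) ^ 3 * B v =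
              (-(3 * A v / B v)) ^ 2 * (3 * A v + -(3 * A v / B v) * B v) := by ring
          _ = 0 := by rw [h1, add_neg_cancel, mul_zero]
      · have h5 : A (rv s + (-(3 * A v / B v)) • v - rv s) ≠ 0 := by
          rw [hsub, hAh]
          exact mul_ne_zero (pow_ne_zero _ t0) a0
        rw [hA] at h5 ⊢
        exact h5
  rw [key]
  exact Tm.ratpts.ratmap _ _

end Pool.Agent.MZT
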