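import Pool.Agent.MZT.Fa
import Pool.Agent.MZT.Ga

/-!
# MZT module LB: irreducible cubics without rational singular points

Adapt `MZ/Case4.lean`, `MZ/TypeE.lean` (`fc_typeE`), `MZ/N4B.lean` (`fc_typeN`); all lemmas needed there are public (`no_three_lines`, `typeE_a`, `typeN_data`,
`exists_plane`, `finite_plane`, `m3`, `case_small`, `smooth_mem_O`).
`case_open`: `A = {P = 0, SmoothAt P}` is basic semialgebraic: `A = {P = 0, 0 < ∑ i (∂_i P)²}` (`SmoothAt P x ↔ ∃ i, eval x (pderiv i P) ≠ 0`; `HasDerivAt.unique`), and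
`B = {x ∈ A | hx 1 x ∈ Z}` is relatively clopen in `A` (shown in the proof of `case_open`): `Sc B`, `B ⊆ closure (QZ P)`, `QZ P ⊆ B`: `Tm.of_SC`.
-/

set_option autoImplicit false

open Set Topology Filter MvPolynomial

namespace Pool.Agent.MZT

open Pool.Agent.MZ Pool.Agent.QTW

private theorem lb_hd {n : ℕ} (P : MvPolynomial (Fin n) ℚ) (x : Fin n → ℝ) (i : Fin n) :
    HasDerivAt (fun t : ℝ => (aeval (x + t • (Pi.single i 1 : Fin n → ℝ)) P : ℝ))
      (aeval x (pderiv i P)) 0 := by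
  induction P using MvPolynomial.induction_on with
  | C a =>
    simp only [aeval_C, pderiv_C, map_zero]
    exact hasDerivAt_const _ _
  | add p q hp hq =>
    simp only [map_add]
    exact hp.add hq
  | mul_X p j hp =>
    have hj : HasDerivAt (fun t : ℝ => (x + t • (Pi.single i 1 : Fin n → ℝ)) j)
        ((Pi.single i 1 : Fin n → ℝ) j) 0 := by
      have h := ((hasDerivAt_id (0 : ℝ)).mul_const ((Pi.single i 1 : Fin n → ℝ) j)).const_add (x j)
      rw [one_mul] at h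
      exact h
    have h := hp.mul hj
    have e : (aeval x (pderiv i (p * X j)) : ℝ) =
        (aeval x (pderiv i p) : ℝ) * (x + (0 : ℝ) • (Pi.single i 1 : Fin n → ℝ)) j +
          (aeval (x + (0 : ℝ) • (Pi.single i 1 : Fin n → ℝ)) p : ℝ) *
            (Pi.single i 1 : Fin n → ℝ) j := by
      rw [zero_smul, add_zero, Derivation.leibniz, pderiv_X, map_add, smul_eq_mul, smul_eq_mul,
        map_mul, map_mul, aeval_X]
      have e2 : (aeval x ((Pi.single i 1 : Fin n → MvPolynomial (Fin n) ℚ) j) : ℝ) =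
          (Pi.single i 1 : Fin n → ℝ) j := by
        by_cases hij : j = i
        · subst hij; simp
        · rw [Pi.single_eq_of_ne hij, Pi.single_eq_of_ne hij, map_zero]
      rw [e2]; ring
    rw [e]
    simp only [map_mul, aeval_X]
    exact h

private theorem lb_smooth {n : ℕ} (P : MvPolynomial (Fin n) ℚ) (x : Fin n → ℝ) :
    SmoothAt P x ↔ ∃ i, (aeval x (pderiv i P) : ℝ) ≠ 0 := by
  constructor
  · rintro ⟨i, c, hc, h⟩
    exact ⟨i, by rw [(lb_hd P x i).unique h]; exact hc⟩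
  · rintro ⟨i, h⟩
    exact ⟨i, _, h, lb_hd P x i⟩

private theorem lb_map {n : ℕ} (P : MvPolynomial (Fin n) ℚ) (x : Fin n → ℝ) :
    eval x (map (algebraMap ℚ ℝ) P) = (aeval x P : ℝ) := by
  rw [eval_map, aeval_def]

private theorem lb_bsa {n : ℕ} (P : MvPolynomial (Fin n) ℚ) :
    Bsa {x : Fin n → ℝ | (aeval x P : ℝ) = 0 ∧ SmoothAt P x} := by
  refine ⟨map (algebraMap ℚ ℝ) P, Unit, inferInstance,
    fun _ => ∑ i, (map (algebraMap ℚ ℝ) (pderiv i P)) ^ 2, ?_⟩
  ext x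
  simp only [mem_ofPred_eq, lb_map, map_sum, map_pow, forall_const]
  refine and_congr_right fun _ => ?_
  rw [lb_smooth]
  constructor
  · rintro ⟨i, hi⟩
    have h1 : 0 < (aeval x (pderiv i P) : ℝ) ^ 2 := by positivity
    exact lt_of_lt_of_le h1
      (Finset.single_le_sum (f := fun i => (aeval x (pderiv i P) : ℝ) ^ 2)
        (fun j _ => sq_nonneg _) (Finset.mem_univ i))
  · intro h
    by_contra hcon
    push Not at hcon
    rw [Finset.sum_eq_zero (fun i _ => by rw [hcon i]; norm_num)] at h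
    exact lt_irrefl _ h

theorem tm_open {n : ℕ} {P : MvPolynomial (Fin n) ℚ} (hP : Irreducible P) {C : Cub (n + 1)}
    (hPC : ∀ x : Fin n → ℝ, (aeval x P : ℝ) = C.T (hx 1 x) (hx 1 x) (hx 1 x))
    (hirr : Irreducible C.pol) (hns : C.NoSing) (hO : C.O.Nonempty) : Tm (QZ P) := by
  set A : Set (Fin n → ℝ) := {x | (aeval x P : ℝ) = 0 ∧ SmoothAt P x} with hAdef
  have hZc : IsClosed C.Z := isClosed_closure
  have hB : Sc {x | x ∈ A ∧ hx 1 x ∈ C.Z} := by
    refine ⟨A, lb_bsa P, fun x hx => hx.1, ?_, ?_⟩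
    · rintro x ⟨⟨hx0, hxs⟩, hxZ⟩
      have h1 := Cub.smooth_mem_O hirr hns hO hxZ ((smoothAt_chart hPC hx0).1 hxs)
      filter_upwards [((continuous_hx 1).tendsto x).eventually h1.2.2] with y hy hyA
      refine ⟨hyA, hy ?_⟩
      rw [← hPC]
      exact hyA.1
    · intro x hxA hxB
      refine ⟨hxA, ?_⟩
      have h1 : closure {x | x ∈ A ∧ hx 1 x ∈ C.Z} ⊆ {x | hx 1 x ∈ C.Z} :=
        closure_minimal (fun x hx => hx.2) (hZc.preimage (continuous_hx 1))
      exact h1 hxB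
  have hQ : QZ P ⊆ {x | x ∈ A ∧ hx 1 x ∈ C.Z} := by
    rintro x ⟨q, hq, rfl⟩
    have h0 : (aeval (rv q) P : ℝ) = 0 := by
      rw [aeval_rv, hq, Rat.cast_zero]
    have h1 : IsRat (hx 1 (rv q)) := isRat_hx.2 ⟨IsQ.one, IsRat.rv q⟩
    have h2 : C.T (hx 1 (rv q)) (hx 1 (rv q)) (hx 1 (rv q)) = 0 := by
      rw [← hPC]
      exact h0
    have h3 : hx 1 (rv q) ≠ 0 := by
      intro h
      have h4 := congrFun h 0
      simp [hx] at h4
    exact ⟨⟨h0, (smoothAt_chart hPC h0).2 (hns _ h1 h3 h2)⟩, Cub.XQ_subset_Z ⟨h1, h2⟩⟩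
  exact Tm.of_SC hB.toSC (fun x hx => (mem_closure_QZ hPC).2 hx.2) (hQ.trans subset_closure)

end Pool.Agent.MZT
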