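import Pool.Agent.MZT.Fe
import Pool.Agent.QTW.Qb

/-!
# MZT phase 2: quadric bundles over products of affine spaces, the data

`X`: `∑_{k : e k = q} c k ∏_i f_i(x_i)^(al k i) u_k² = c' q ∏_i f_i(x_i)^(be q i)`; here the constants `c' q` may be zero. `XJ J`: the rational
points with `f_i(x_i) ≠ 0` for `i ∈ J`. The file `Qb2.lean` shows

`Qz.tm_XJ (J) (hdeg : ∀ i, (B.f i).totalDegree ≤ 4) (h0 : ∀ i ∉ J, Tm (QZ (B.f i))) : Tm (B.XJ J)`.
-/

set_option autoImplicit false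

open Set Topology Filter MvPolynomial

namespace Pool.Agent.MZT

open Pool.Agent.MZ Pool.Agent.QTW

variable {r s g : ℕ} {N : Fin r → ℕ}

/-- the data of a quadric bundle (no condition on the constants) -/
structure Qz (r s g : ℕ) (N : Fin r → ℕ) where
  f : ∀ i, MvPolynomial (Fin (N i)) ℚ
  e : Fin s → Fin g
  c : Fin s → ℚ
  c' : Fin g → ℚ
  al : Fin s → Fin r → ℕ
  be : Fin g → Fin r → ℕ

namespace Qz

variable (B : Qz r s g N)

/-- value of `f i` at the point with blocks `x` -/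
noncomputable def F (x : (Σ i, Fin (N i)) → ℝ) (i : Fin r) : ℝ := aeval (blk x i) (B.f i)

/-- the equations -/
def Eq (x : (Σ i, Fin (N i)) → ℝ) (u : Fin s → ℝ) : Prop :=
  ∀ q, (∑ k, if B.e k = q then (B.c k : ℝ) * (∏ i, B.F x i ^ B.al k i) * u k ^ 2 else 0) =
    (B.c' q : ℝ) * ∏ i, B.F x i ^ B.be q i

/-- the rational points with `f i ≠ 0` for `i ∈ J` -/
def XJ (J : Finset (Fin r)) : Set ((Σ i, Fin (N i)) ⊕ Fin s → ℝ) :=
  {z | (∀ i ∈ J, B.F (fun p => z (Sum.inl p)) i ≠ 0) ∧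
    B.Eq (fun p => z (Sum.inl p)) (fun k => z (Sum.inr k)) ∧
    ∃ y : (Σ i, Fin (N i)) ⊕ Fin s → ℚ, z = fun p => (y p : ℝ)}

end Qz

end Pool.Agent.MZT
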