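import Pool.Agent.MZT.Qa
import Pool.Agent.MZT.Fb
import Pool.Agent.MZT.Fd

/-!
# MZT phase 2: the closure of the rational points of a quadric bundle is tame
-/

set_option autoImplicit false

open Set Topology Filter MvPolynomial

namespace Pool.Agent.MZT

open Pool.Agent.MZ Pool.Agent.QTW

variable {r s g : ℕ} {N : Fin r → ℕ}

/-- (Q1) -/
theorem tm_quad_XQ (B : Qb r s g N) : Tm B.XQ := by
  obtain ⟨ι, hι, d, hd, he⟩ := B.closure_XQ
  have h1 : SC {z | z ∈ closure B.XQ ∧ (fun p => z (Sum.inl p)) ∈ Om B.f} := by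
    rw [he]
    refine B.eq_bsa.inter (SC.iUnion fun j => ?_)
    have := (AT_SC B.deg (hd j).1).preimage
      (fun p : (Σ i, Fin (N i)) => (X (Sum.inl p) : MvPolynomial ((Σ i, Fin (N i)) ⊕ Fin s) ℝ))
    simpa only [eval_X] using this
  refine Tm.of_SC h1 (fun z hz => hz.1) (fun z hz => subset_closure ?_)
  exact ⟨subset_closure hz, hz.1.1⟩

namespace Qz

variable (B : Qz r s g N)

/-- (Q2), start: no constant is zero -/
theorem tm_ne (hdeg : ∀ i, (B.f i).totalDegree ≤ 4) (hne : ∀ q, B.c' q ≠ 0) :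
    Tm (B.XJ Finset.univ) := by
  let B' : Qb r s g N := ⟨B.f, hdeg, B.e, B.c, B.c', hne, B.al, B.be⟩
  have h : B.XJ Finset.univ = B'.XQ := by
    ext z
    constructor
    · rintro ⟨h1, h2, h3⟩
      exact ⟨⟨fun i => h1 i (Finset.mem_univ i), h2⟩, h3⟩
    · rintro ⟨⟨h1, h2⟩, h3⟩
      exact ⟨fun i _ => h1 i, h2, h3⟩
  rw [h]
  exact tm_quad_XQ B'

/-- the system for the points with `u k₀ ≠ 0` -/
def st (k0 : Fin s) : Qz r s g N where
  f := B.f
  e := B.e
  c k := if k = k0 then 0 else B.c k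
  c' q := if q = B.e k0 then -B.c k0 else B.c' q
  al := B.al
  be q := if q = B.e k0 then B.al k0 else B.be q

/-- the change of the unknowns -/
def um (k0 : Fin s) (v : Fin s → ℝ) (k : Fin s) : ℝ :=
  if k = k0 then v k0 else if B.e k = B.e k0 then v k0 * v k else v k

theorem st_F (k0 : Fin s) (x : (Σ i, Fin (N i)) → ℝ) (i : Fin r) : (B.st k0).F x i = B.F x i := rfl

/-- the sum of the block of `k₀` -/
theorem um_sum (k0 : Fin s) (A : Fin s → ℝ) (v : Fin s → ℝ) :
    (∑ k, if B.e k = B.e k0 then (B.c k : ℝ) * A k * B.um k0 v k ^ 2 else 0) =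
      v k0 ^ 2 * (∑ k, if B.e k = B.e k0 then (((B.st k0).c k : ℚ) : ℝ) * A k * v k ^ 2 else 0) +
        (B.c k0 : ℝ) * A k0 * v k0 ^ 2 := by
  have h1 : (B.c k0 : ℝ) * A k0 * v k0 ^ 2 =
      ∑ k, if k = k0 then (B.c k : ℝ) * A k * v k0 ^ 2 else 0 := by
    rw [Finset.sum_ite_eq' Finset.univ k0, if_pos (Finset.mem_univ _)]
  rw [h1, Finset.mul_sum, ← Finset.sum_add_distrib]
  refine Finset.sum_congr rfl fun k _ => ?_
  show _ = v k0 ^ 2 * (if B.e k = B.e k0 then
    (((if k = k0 then 0 else B.c k : ℚ) : ℝ)) * A k * v k ^ 2 else 0) + _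
  unfold um
  by_cases hk : k = k0
  · subst hk
    simp
  · by_cases he : B.e k = B.e k0
    · simp only [hk, he, if_true, if_false]
      ring
    · simp only [hk, he, if_false]
      ring

theorem um_rest (k0 : Fin s) (A : Fin s → ℝ) (v : Fin s → ℝ) {q : Fin g} (hq : q ≠ B.e k0) :
    (∑ k, if B.e k = q then (B.c k : ℝ) * A k * B.um k0 v k ^ 2 else 0) =
      ∑ k, if B.e k = q then (((B.st k0).c k : ℚ) : ℝ) * A k * v k ^ 2 else 0 := by
  refine Finset.sum_congr rfl fun k _ => ?_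
  show _ = (if B.e k = q then
    (((if k = k0 then 0 else B.c k : ℚ) : ℝ)) * A k * v k ^ 2 else 0)
  by_cases h : B.e k = q
  · have hk : k ≠ k0 := by
      rintro rfl
      exact hq h.symm
    have he : B.e k ≠ B.e k0 := by
      rw [h]
      exact hq
    unfold um
    rw [if_pos h, if_pos h, if_neg hk, if_neg he, if_neg hk]
  · rw [if_neg h, if_neg h]

theorem st_eq {k0 : Fin s} (h0 : B.c' (B.e k0) = 0) {x : (Σ i, Fin (N i)) → ℝ} {v : Fin s → ℝ}
    (h : (B.st k0).Eq x v) : B.Eq x (B.um k0 v) := by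
  intro q
  have hq := h q
  change (∑ k, if B.e k = q then (((B.st k0).c k : ℚ) : ℝ) * (∏ i, B.F x i ^ B.al k i) * v k ^ 2
    else 0) = ((if q = B.e k0 then -B.c k0 else B.c' q : ℚ) : ℝ) *
      ∏ i, B.F x i ^ (if q = B.e k0 then B.al k0 else B.be q) i at hq
  by_cases he : q = B.e k0
  · subst he
    rw [if_pos rfl, if_pos rfl] at hq
    have h1 := B.um_sum k0 (fun k => ∏ i, B.F x i ^ B.al k i) v
    rw [h1, hq, h0]
    push_cast
    ring
  · rw [if_neg he, if_neg he] at hq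
    rw [B.um_rest k0 (fun k => ∏ i, B.F x i ^ B.al k i) v he]
    exact hq

theorem st_eq' {k0 : Fin s} (h0 : B.c' (B.e k0) = 0) {x : (Σ i, Fin (N i)) → ℝ} {v : Fin s → ℝ}
    (hv : v k0 ≠ 0) (h : B.Eq x (B.um k0 v)) : (B.st k0).Eq x v := by
  intro q
  have hq := h q
  change (∑ k, if B.e k = q then (((B.st k0).c k : ℚ) : ℝ) * (∏ i, B.F x i ^ B.al k i) * v k ^ 2
    else 0) = ((if q = B.e k0 then -B.c k0 else B.c' q : ℚ) : ℝ) *
      ∏ i, B.F x i ^ (if q = B.e k0 then B.al k0 else B.be q) i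
  by_cases he : q = B.e k0
  · subst he
    rw [if_pos rfl, if_pos rfl]
    have h1 := B.um_sum k0 (fun k => ∏ i, B.F x i ^ B.al k i) v
    rw [h1, h0] at hq
    have h2 : v k0 ^ 2 ≠ 0 := pow_ne_zero 2 hv
    apply mul_left_cancel₀ h2
    push_cast
    push_cast at hq
    linarith
  · rw [if_neg he, if_neg he]
    rw [B.um_rest k0 (fun k => ∏ i, B.F x i ^ B.al k i) v he] at hq
    exact hq

/-- the polynomial map -/
noncomputable def pst (k0 : Fin s) :
    (Σ i, Fin (N i)) ⊕ Fin s → MvPolynomial ((Σ i, Fin (N i)) ⊕ Fin s) ℝ :=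
  Sum.elim (fun p => X (Sum.inl p)) fun k => if k = k0 then X (Sum.inr k0) else
    if B.e k = B.e k0 then X (Sum.inr k0) * X (Sum.inr k) else X (Sum.inr k)

theorem pm_pst_inl (k0 : Fin s) (z : (Σ i, Fin (N i)) ⊕ Fin s → ℝ) (p : Σ i, Fin (N i)) :
    pm (B.pst k0) z (Sum.inl p) = z (Sum.inl p) := by
  show eval z (X (Sum.inl p)) = _
  rw [eval_X]

theorem pm_pst_inr (k0 : Fin s) (z : (Σ i, Fin (N i)) ⊕ Fin s → ℝ) (k : Fin s) :
    pm (B.pst k0) z (Sum.inr k) = B.um k0 (fun k => z (Sum.inr k)) k := by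
  show eval z (if k = k0 then X (Sum.inr k0) else
    if B.e k = B.e k0 then X (Sum.inr k0) * X (Sum.inr k) else X (Sum.inr k)) = _
  unfold um
  split_ifs
  · rw [eval_X]
  · rw [map_mul, eval_X, eval_X]
  · rw [eval_X]

/-- the system for the points with `u k = 0` in the block `q` -/
def st0 (q : Fin g) : Qz r (s + 1) g N where
  f := B.f
  e := Fin.cons q B.e
  c := Fin.cons 1 fun k => if B.e k = q then 0 else B.c k
  c' p := if p = q then 1 else B.c' p
  al := Fin.cons 0 B.al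
  be p := if p = q then 0 else B.be p

noncomputable def pst0 (q : Fin g) :
    (Σ i, Fin (N i)) ⊕ Fin s → MvPolynomial ((Σ i, Fin (N i)) ⊕ Fin (s + 1)) ℝ :=
  Sum.elim (fun p => X (Sum.inl p)) fun k => if B.e k = q ∧ B.c k ≠ 0 then 0 else
    X (Sum.inr k.succ)

theorem pm_pst0_inl (q : Fin g) (z : (Σ i, Fin (N i)) ⊕ Fin (s + 1) → ℝ) (p : Σ i, Fin (N i)) :
    pm (B.pst0 q) z (Sum.inl p) = z (Sum.inl p) := by
  show eval z (X (Sum.inl p)) = _
  rw [eval_X]

theorem pm_pst0_inr (q : Fin g) (z : (Σ i, Fin (N i)) ⊕ Fin (s + 1) → ℝ) (k : Fin s) :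
    pm (B.pst0 q) z (Sum.inr k) = if B.e k = q ∧ B.c k ≠ 0 then 0 else z (Sum.inr k.succ) := by
  show eval z (if B.e k = q ∧ B.c k ≠ 0 then 0 else X (Sum.inr k.succ)) = _
  split_ifs
  · rw [map_zero]
  · rw [eval_X]

theorem st0_eq {q : Fin g} (h0 : B.c' q = 0) {x : (Σ i, Fin (N i)) → ℝ} {v : Fin (s + 1) → ℝ} :
    (B.st0 q).Eq x v ↔ v 0 ^ 2 = 1 ∧
      B.Eq x fun k => if B.e k = q ∧ B.c k ≠ 0 then 0 else v k.succ := by
  have key : ∀ p, ((∑ k, if (B.st0 q).e k = p then ((B.st0 q).c k : ℝ) *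
      (∏ i, (B.st0 q).F x i ^ (B.st0 q).al k i) * v k ^ 2 else 0) =
      ((B.st0 q).c' p : ℝ) * ∏ i, (B.st0 q).F x i ^ (B.st0 q).be p i) ↔
      if p = q then v 0 ^ 2 = 1 else
        (∑ k, if B.e k = p then (B.c k : ℝ) * (∏ i, B.F x i ^ B.al k i) *
          (if B.e k = q ∧ B.c k ≠ 0 then 0 else v k.succ) ^ 2 else 0) =
        (B.c' p : ℝ) * ∏ i, B.F x i ^ B.be p i := by
    intro p
    rw [Fin.sum_univ_succ]
    change ((if q = p then ((1 : ℚ) : ℝ) * (∏ i, B.F x i ^ 0) * v 0 ^ 2 else 0) +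
      ∑ k : Fin s, (if B.e k = p then ((if B.e k = q then 0 else B.c k : ℚ) : ℝ) *
        (∏ i, B.F x i ^ B.al k i) * v k.succ ^ 2 else 0)) =
      ((if p = q then 1 else B.c' p : ℚ) : ℝ) *
        (∏ i, B.F x i ^ (if p = q then 0 else B.be p) i) ↔ _
    by_cases hp : p = q
    · subst hp
      rw [if_pos rfl, if_pos rfl, if_pos rfl, if_pos rfl]
      have h2 : (∑ k : Fin s, (if B.e k = p then ((if B.e k = p then 0 else B.c k : ℚ) : ℝ) *
          (∏ i, B.F x i ^ B.al k i) * v k.succ ^ 2 else 0)) = 0 := by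
        refine Finset.sum_eq_zero fun k _ => ?_
        split_ifs
        · push_cast
          ring
        · rfl
      rw [h2]
      simp
    · have hp' : q ≠ p := fun h => hp h.symm
      rw [if_neg hp', if_neg hp, if_neg hp, if_neg hp, zero_add]
      have h2 : (∑ k : Fin s, (if B.e k = p then ((if B.e k = q then 0 else B.c k : ℚ) : ℝ) *
          (∏ i, B.F x i ^ B.al k i) * v k.succ ^ 2 else 0)) =
          ∑ k, if B.e k = p then (B.c k : ℝ) * (∏ i, B.F x i ^ B.al k i) *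
          (if B.e k = q ∧ B.c k ≠ 0 then 0 else v k.succ) ^ 2 else 0 := by
        refine Finset.sum_congr rfl fun k _ => ?_
        by_cases hk : B.e k = p
        · have hk' : B.e k ≠ q := by
            rw [hk]
            exact hp
          rw [if_pos hk, if_pos hk, if_neg hk', if_neg (fun h => hk' h.1)]
        · rw [if_neg hk, if_neg hk]
      rw [h2]
  constructor
  · intro h
    refine ⟨?_, fun p => ?_⟩
    · have := (key q).1 (h q)
      rwa [if_pos rfl] at this
    · by_cases hp : p = q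
      · subst hp
        rw [h0, Rat.cast_zero, zero_mul]
        refine Finset.sum_eq_zero fun k _ => ?_
        by_cases hk : B.e k = p
        · rw [if_pos hk]
          by_cases hc : B.c k = 0
          · rw [hc]
            simp
          · show _ * (if B.e k = p ∧ B.c k ≠ 0 then (0 : ℝ) else v k.succ) ^ 2 = 0
            rw [if_pos ⟨hk, hc⟩]
            ring
        · rw [if_neg hk]
      · have := (key p).1 (h p)
        rwa [if_neg hp] at this
  · rintro ⟨h1, h2⟩ p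
    refine (key p).2 ?_
    split_ifs
    · exact h1
    · exact h2 p

end Qz

end Pool.Agent.MZT
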