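import Pool.Agent.MZT.Qb2

/-!
# MZT phase 2: the induction over the constants that are zero and over the `f i` that may vanish
-/

set_option autoImplicit false

open Set Topology Filter MvPolynomial

namespace Pool.Agent.MZT

open Pool.Agent.MZ Pool.Agent.QTW

variable {r s g : ℕ} {N : Fin r → ℕ}

namespace Qz

variable (B : Qz r s g N)

/-- a point is rational if all coordinates are rational -/
theorem rat_iff {σ : Type} {z : σ → ℝ} :
    (∃ y : σ → ℚ, z = fun p => (y p : ℝ)) ↔ ∀ p, ∃ a : ℚ, z p = a := by
  constructor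
  · rintro ⟨y, rfl⟩ p
    exact ⟨y p, rfl⟩
  · intro h
    choose y hy using h
    exact ⟨y, funext hy⟩

theorem step {q : Fin g} (h0 : B.c' q = 0) : B.XJ Finset.univ =
    (⋃ k0 : {k : Fin s // B.e k = q ∧ B.c k ≠ 0}, pm (B.pst k0) '' (B.st k0).XJ Finset.univ) ∪
      pm (B.pst0 q) '' (B.st0 q).XJ Finset.univ := by
  ext z
  constructor
  · rintro ⟨h1, h2, h3⟩
    rw [rat_iff] at h3
    by_cases h : ∃ k0, B.e k0 = q ∧ B.c k0 ≠ 0 ∧ z (Sum.inr k0) ≠ 0
    · left
      obtain ⟨k0, hk1, hk2, hk3⟩ := h
      subst hk1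
      refine mem_iUnion.2 ⟨⟨k0, rfl, hk2⟩, ?_⟩
      let v : Fin s → ℝ := fun k => if k = k0 then z (Sum.inr k0) else
        if B.e k = B.e k0 then z (Sum.inr k) / z (Sum.inr k0) else z (Sum.inr k)
      have hv0 : v k0 = z (Sum.inr k0) := if_pos rfl
      have hum : B.um k0 v = fun k => z (Sum.inr k) := by
        funext k
        unfold um
        by_cases hk : k = k0
        · rw [if_pos hk, hv0, hk]
        · rw [if_neg hk, hv0]
          by_cases he : B.e k = B.e k0
          · rw [if_pos he]
            show _ * (if k = k0 then z (Sum.inr k0) else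
              if B.e k = B.e k0 then z (Sum.inr k) / z (Sum.inr k0) else z (Sum.inr k)) = _
            rw [if_neg hk, if_pos he]
            field_simp
          · rw [if_neg he]
            show (if k = k0 then z (Sum.inr k0) else
              if B.e k = B.e k0 then z (Sum.inr k) / z (Sum.inr k0) else z (Sum.inr k)) = _
            rw [if_neg hk, if_neg he]
      refine ⟨Sum.elim (fun p => z (Sum.inl p)) v, ⟨h1, ?_, ?_⟩, ?_⟩
      · refine B.st_eq' h0 (v := v) ?_ ?_
        · rw [hv0]
          exact hk3
        · rw [hum]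
          exact h2
      · rw [rat_iff]
        rintro (p | k)
        · exact h3 (Sum.inl p)
        · show ∃ a : ℚ, (if k = k0 then z (Sum.inr k0) else
            if B.e k = B.e k0 then z (Sum.inr k) / z (Sum.inr k0) else z (Sum.inr k)) = a
          obtain ⟨a, ha⟩ := h3 (Sum.inr k)
          obtain ⟨b, hb⟩ := h3 (Sum.inr k0)
          split_ifs
          · exact ⟨b, hb⟩
          · exact ⟨a / b, by rw [ha, hb]; push_cast; rfl⟩
          · exact ⟨a, ha⟩
      · funext p
        rcases p with p | k
        · exact B.pm_pst_inl k0 _ p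
        · rw [B.pm_pst_inr k0]
          exact congrFun hum k
    · right
      push Not at h
      refine ⟨Sum.elim (fun p => z (Sum.inl p))
        (Fin.cons 1 fun k => z (Sum.inr k)), ⟨h1, ?_, ?_⟩, ?_⟩
      · refine (B.st0_eq h0).2 ⟨by simp, ?_⟩
        have e : (fun k => if B.e k = q ∧ B.c k ≠ 0 then (0 : ℝ) else
            (Sum.elim (fun p => z (Sum.inl p)) (Fin.cons 1 fun k => z (Sum.inr k)) :
              (Σ i, Fin (N i)) ⊕ Fin (s + 1) → ℝ) (Sum.inr k.succ)) =
            fun k => z (Sum.inr k) := by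
          funext k
          by_cases hk : B.e k = q ∧ B.c k ≠ 0
          · rw [if_pos hk]
            exact (h k hk.1 hk.2).symm
          · rw [if_neg hk]
            rfl
        rw [e]
        exact h2
      · rw [rat_iff]
        rintro (p | k)
        · exact h3 (Sum.inl p)
        · refine Fin.cases ?_ (fun k => ?_) k
          · exact ⟨1, by simp⟩
          · exact h3 (Sum.inr k)
      · funext p
        rcases p with p | k
        · exact B.pm_pst0_inl q _ p
        · rw [B.pm_pst0_inr q]
          by_cases hk : B.e k = q ∧ B.c k ≠ 0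
          · rw [if_pos hk]
            exact (h k hk.1 hk.2).symm
          · rw [if_neg hk]
            rfl
  · rintro (hz | hz)
    · obtain ⟨⟨k0, hk1, hk2⟩, w, ⟨h1, h2, h3⟩, rfl⟩ := mem_iUnion.1 hz
      subst hk1
      rw [rat_iff] at h3
      have e1 : (fun p => pm (B.pst k0) w (Sum.inl p)) = fun p => w (Sum.inl p) :=
        funext fun p => B.pm_pst_inl k0 w p
      have e2 : (fun k => pm (B.pst k0) w (Sum.inr k)) = B.um k0 fun k => w (Sum.inr k) :=
        funext fun k => B.pm_pst_inr k0 w k
      refine ⟨?_, ?_, ?_⟩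
      · show ∀ i ∈ Finset.univ, B.F (fun p => pm (B.pst k0) w (Sum.inl p)) i ≠ 0
        rw [e1]
        exact h1
      · show B.Eq (fun p => pm (B.pst k0) w (Sum.inl p)) (fun k => pm (B.pst k0) w (Sum.inr k))
        rw [e1, e2]
        exact B.st_eq h0 h2
      · rw [rat_iff]
        rintro (p | k)
        · show ∃ a : ℚ, pm (B.pst k0) w (Sum.inl p) = a
          rw [B.pm_pst_inl]
          exact h3 _
        · show ∃ a : ℚ, pm (B.pst k0) w (Sum.inr k) = a
          rw [B.pm_pst_inr]
          obtain ⟨a, ha⟩ := h3 (Sum.inr k)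
          obtain ⟨b, hb⟩ := h3 (Sum.inr k0)
          unfold um
          split_ifs
          · exact ⟨b, hb⟩
          · exact ⟨b * a, by
              show w (Sum.inr k0) * w (Sum.inr k) = _
              rw [ha, hb]
              push_cast
              rfl⟩
          · exact ⟨a, ha⟩
    · obtain ⟨w, ⟨h1, h2, h3⟩, rfl⟩ := hz
      rw [rat_iff] at h3
      have e1 : (fun p => pm (B.pst0 q) w (Sum.inl p)) = fun p => w (Sum.inl p) :=
        funext fun p => B.pm_pst0_inl q w p
      have e2 : (fun k : Fin s => pm (B.pst0 q) w (Sum.inr k)) =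
          fun k : Fin s => if B.e k = q ∧ B.c k ≠ 0 then (0 : ℝ) else w (Sum.inr k.succ) := by
        funext k
        exact B.pm_pst0_inr q w k
      refine ⟨?_, ?_, ?_⟩
      · show ∀ i ∈ Finset.univ, B.F (fun p => pm (B.pst0 q) w (Sum.inl p)) i ≠ 0
        rw [e1]
        exact h1
      · show B.Eq (fun p => pm (B.pst0 q) w (Sum.inl p)) (fun k => pm (B.pst0 q) w (Sum.inr k))
        rw [e1, e2]
        exact ((B.st0_eq h0).1 h2).2
      · rw [rat_iff]
        rintro (p | k)
        · show ∃ a : ℚ, pm (B.pst0 q) w (Sum.inl p) = a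
          rw [B.pm_pst0_inl]
          exact h3 _
        · show ∃ a : ℚ, pm (B.pst0 q) w (Sum.inr k) = a
          rw [B.pm_pst0_inr]
          split_ifs
          · exact ⟨0, by simp⟩
          · exact h3 _

/-- (Q2) -/
theorem tm_univ : ∀ (n : ℕ) {s : ℕ} (B : Qz r s g N), (∀ i, (B.f i).totalDegree ≤ 4) →
    (Finset.univ.filter fun q => B.c' q = 0).card ≤ n → Tm (B.XJ Finset.univ) := by
  intro n
  induction n with
  | zero =>
    intro s B hdeg hn
    refine B.tm_ne hdeg fun q hq => ?_
    have h1 : q ∈ Finset.univ.filter fun q => B.c' q = 0 := by simp [hq]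
    have h2 := Finset.card_pos.2 ⟨q, h1⟩
    omega
  | succ n ih =>
    intro s B hdeg hn
    by_cases h : ∃ q, B.c' q = 0
    · obtain ⟨q, hq⟩ := h
      have hlt : ∀ {s' : ℕ} (B' : Qz r s' g N), (∀ p, B'.c' p = 0 → B.c' p = 0) →
          B'.c' q ≠ 0 → (Finset.univ.filter fun q => B'.c' q = 0).card ≤ n := by
        intro s' B' h1 h2
        have h3 : (Finset.univ.filter fun q => B'.c' q = 0) ⊂
            Finset.univ.filter fun q => B.c' q = 0 := by
          rw [Finset.ssubset_iff_of_subset]
          · exact ⟨q, by simp [hq], by simp [h2]⟩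
          · intro p hp
            simp only [Finset.mem_filter, Finset.mem_univ, true_and] at hp ⊢
            exact h1 p hp
        have := Finset.card_lt_card h3
        omega
      rw [B.step hq]
      refine Tm.union (Tm.iUnion fun k0 => Tm.image (ih (B.st k0.1) hdeg (hlt (B.st k0.1) ?_ ?_)) _)
        (Tm.image (ih (B.st0 q) hdeg (hlt (B.st0 q) ?_ ?_)) _)
      · obtain ⟨k0, hk1, hk2⟩ := k0
        intro p hp
        change (if p = B.e k0 then -B.c k0 else B.c' p) = 0 at hp
        split_ifs at hp with h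
        · rw [h, hk1, hq]
        · exact hp
      · obtain ⟨k0, hk1, hk2⟩ := k0
        show (if q = B.e k0 then -B.c k0 else B.c' q) ≠ 0
        rw [if_pos hk1.symm]
        exact neg_ne_zero.2 hk2
      · intro p hp
        change (if p = q then (1 : ℚ) else B.c' p) = 0 at hp
        split_ifs at hp with h
        · exact absurd hp one_ne_zero
        · exact hp
      · show (if q = q then (1 : ℚ) else B.c' q) ≠ 0
        rw [if_pos rfl]
        exact one_ne_zero
    · push Not at h
      exact B.tm_ne hdeg h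

/-- the system over the other factors -/
noncomputable def rd (i : Fin r) : Qz r s g N where
  f := Function.update B.f i 1
  e := B.e
  c k := if B.al k i ≠ 0 then 0 else B.c k
  c' q := if B.be q i ≠ 0 then 0 else B.c' q
  al := B.al
  be := B.be

theorem rd_F1 (i : Fin r) (x : (Σ i, Fin (N i)) → ℝ) : (B.rd i).F x i = 1 := by
  show (aeval (blk x i) (Function.update B.f i 1 i) : ℝ) = 1
  rw [Function.update_self, map_one]

theorem rd_F {i j : Fin r} (h : j ≠ i) (x : (Σ i, Fin (N i)) → ℝ) :
    (B.rd i).F x j = B.F x j := by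
  show (aeval (blk x j) (Function.update B.f i 1 j) : ℝ) = _
  rw [Function.update_of_ne h]
  rfl

theorem rd_prod {i : Fin r} {x x' : (Σ i, Fin (N i)) → ℝ} (hx : ∀ j, j ≠ i → blk x j = blk x' j)
    (h0 : B.F x' i = 0) (t : Fin r → ℕ) (c : ℚ) :
    (c : ℝ) * ∏ j, B.F x' j ^ t j =
      ((if t i ≠ 0 then 0 else c : ℚ) : ℝ) * ∏ j, (B.rd i).F x j ^ t j := by
  by_cases h : t i ≠ 0
  · rw [if_pos h, Rat.cast_zero, zero_mul]
    have h1 : ∏ j, B.F x' j ^ t j = 0 := by
      refine Finset.prod_eq_zero (Finset.mem_univ i) ?_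
      rw [h0]
      exact zero_pow h
    rw [h1, mul_zero]
  · rw [if_neg h]
    push Not at h
    congr 1
    refine Finset.prod_congr rfl fun j _ => ?_
    by_cases hj : j = i
    · subst hj
      rw [h, pow_zero, pow_zero]
    · rw [B.rd_F hj]
      congr 1
      show (aeval (blk x' j) (B.f j) : ℝ) = aeval (blk x j) (B.f j)
      rw [hx j hj]

theorem rd_eq {i : Fin r} {x x' : (Σ i, Fin (N i)) → ℝ} (hx : ∀ j, j ≠ i → blk x j = blk x' j)
    (h0 : B.F x' i = 0) (u : Fin s → ℝ) : B.Eq x' u ↔ (B.rd i).Eq x u := by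
  refine forall_congr' fun q => ?_
  rw [B.rd_prod hx h0 (B.be q) (B.c' q)]
  have h1 : (∑ k, if B.e k = q then (B.c k : ℝ) * (∏ j, B.F x' j ^ B.al k j) * u k ^ 2 else 0) =
      ∑ k, if (B.rd i).e k = q then ((B.rd i).c k : ℝ) *
        (∏ j, (B.rd i).F x j ^ (B.rd i).al k j) * u k ^ 2 else 0 := by
    refine Finset.sum_congr rfl fun k _ => ?_
    rw [B.rd_prod hx h0 (B.al k) (B.c k)]
    rfl
  rw [h1]
  rfl

/-- the polynomial map that replaces the block `i` -/
noncomputable def prd (i : Fin r) : (Σ i, Fin (N i)) ⊕ Fin s →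
    MvPolynomial (((Σ i, Fin (N i)) ⊕ Fin s) ⊕ Fin (N i)) ℝ :=
  Sum.elim (fun p => if h : p.1 = i then X (Sum.inr (Fin.cast (congrArg N h) p.2)) else
    X (Sum.inl (Sum.inl p))) fun k => X (Sum.inl (Sum.inr k))

theorem prd_blk (i : Fin r) (w : ((Σ i, Fin (N i)) ⊕ Fin s) ⊕ Fin (N i) → ℝ) :
    blk (fun p => pm (prd (s := s) i) w (Sum.inl p)) i = fun j => w (Sum.inr j) := by
  funext j
  show eval w (if h : i = i then X (Sum.inr (Fin.cast (congrArg N h) j)) else
    X (Sum.inl (Sum.inl ⟨i, j⟩))) = _
  rw [dif_pos rfl, eval_X]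
  rfl

theorem prd_blk' {i j : Fin r} (hj : j ≠ i) (w : ((Σ i, Fin (N i)) ⊕ Fin s) ⊕ Fin (N i) → ℝ) :
    blk (fun p => pm (prd (s := s) i) w (Sum.inl p)) j =
      blk (fun p => w (Sum.inl (Sum.inl p))) j := by
  funext l
  show eval w (if h : j = i then X (Sum.inr (Fin.cast (congrArg N h) l)) else
    X (Sum.inl (Sum.inl ⟨j, l⟩))) = _
  rw [dif_neg hj, eval_X]
  rfl

theorem prd_inr (i : Fin r) (w : ((Σ i, Fin (N i)) ⊕ Fin s) ⊕ Fin (N i) → ℝ) (k : Fin s) :
    pm (prd (s := s) i) w (Sum.inr k) = w (Sum.inl (Sum.inr k)) := by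
  show eval w (X (Sum.inl (Sum.inr k))) = _
  rw [eval_X]

theorem split {i : Fin r} {J : Finset (Fin r)} (hi : i ∉ J) : B.XJ J = B.XJ (insert i J) ∪
    pm (prd (s := s) i) '' {w | (fun a => w (Sum.inl a)) ∈ (B.rd i).XJ J ∧
      (fun b => w (Sum.inr b)) ∈ QZ (B.f i)} := by
  ext z
  constructor
  · rintro ⟨h1, h2, h3⟩
    by_cases h : B.F (fun p => z (Sum.inl p)) i = 0
    · right
      have h4 : blk (fun p => z (Sum.inl p)) i ∈ QZ (B.f i) := by
        obtain ⟨y, rfl⟩ := h3
        refine ⟨fun j => y (Sum.inl ⟨i, j⟩), ?_, rfl⟩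
        have h5 : (aeval (rv fun j => y (Sum.inl ⟨i, j⟩)) (B.f i) : ℝ) = 0 := h
        rw [aeval_rv] at h5
        exact_mod_cast h5
      refine ⟨Sum.elim z (blk (fun p => z (Sum.inl p)) i), ⟨⟨?_, ?_, h3⟩, h4⟩, ?_⟩
      · intro j hj
        have hji : j ≠ i := by
          rintro rfl
          exact hi hj
        rw [B.rd_F hji]
        exact h1 j hj
      · exact (B.rd_eq (x := fun p => z (Sum.inl p)) (fun _ _ => rfl) h _).1 h2
      · funext p
        rcases p with ⟨j, l⟩ | k
        · by_cases hj : j = i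
          · subst hj
            exact congrFun (prd_blk (s := s) j _) l
          · exact congrFun (prd_blk' (s := s) hj _) l
        · exact prd_inr i _ k
    · left
      refine ⟨fun j hj => ?_, h2, h3⟩
      rcases Finset.mem_insert.1 hj with rfl | hj
      · exact h
      · exact h1 j hj
  · rintro (hz | hz)
    · exact ⟨fun j hj => hz.1 j (Finset.mem_insert_of_mem hj), hz.2⟩
    · obtain ⟨w, ⟨⟨h1, h2, h3⟩, h4⟩, rfl⟩ := hz
      have hF0 : B.F (fun p => pm (prd (s := s) i) w (Sum.inl p)) i = 0 := by
        show (aeval (blk (fun p => pm (prd (s := s) i) w (Sum.inl p)) i) (B.f i) : ℝ) = 0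
        rw [prd_blk]
        obtain ⟨q, hq1, hq2⟩ := h4
        change (fun b => w (Sum.inr b)) = rv q at hq2
        rw [hq2, aeval_rv, hq1, Rat.cast_zero]
      have hb : ∀ j, j ≠ i → blk (fun p => w (Sum.inl (Sum.inl p))) j =
          blk (fun p => pm (prd (s := s) i) w (Sum.inl p)) j := fun j hj =>
        (prd_blk' (s := s) hj w).symm
      refine ⟨?_, ?_, ?_⟩
      · intro j hj
        have hji : j ≠ i := by
          rintro rfl
          exact hi hj
        have h5 := h1 j hj
        rw [B.rd_F hji] at h5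
        intro h6
        apply h5
        rw [← h6]
        show (aeval (blk (fun p => w (Sum.inl (Sum.inl p))) j) (B.f j) : ℝ) =
          aeval (blk (fun p => pm (prd (s := s) i) w (Sum.inl p)) j) (B.f j)
        rw [hb j hji]
      · have h5 := (B.rd_eq hb hF0 fun k => w (Sum.inl (Sum.inr k))).2 h2
        have h6 : (fun k => pm (prd (s := s) i) w (Sum.inr k)) =
            fun k => w (Sum.inl (Sum.inr k)) := funext fun k => prd_inr i w k
        show B.Eq (fun p => pm (prd (s := s) i) w (Sum.inl p))
          (fun k => pm (prd (s := s) i) w (Sum.inr k))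
        rw [h6]
        exact h5
      · rw [rat_iff] at h3 ⊢
        obtain ⟨q, hq1, hq2⟩ := h4
        rintro (⟨j, l⟩ | k)
        · show ∃ a : ℚ, pm (prd (s := s) i) w (Sum.inl ⟨j, l⟩) = a
          by_cases hj : j = i
          · subst hj
            have h7 := congrFun (prd_blk (s := s) j w) l
            exact ⟨q l, h7.trans (congrFun hq2 l)⟩
          · have h7 := congrFun (prd_blk' (s := s) hj w) l
            obtain ⟨a, ha⟩ := h3 (Sum.inl ⟨j, l⟩)
            exact ⟨a, h7.trans ha⟩
        · show ∃ a : ℚ, pm (prd (s := s) i) w (Sum.inr k) = a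
          rw [prd_inr]
          exact h3 (Sum.inr k)

/-- MAIN THEOREM of phase 2, part 1 -/
theorem tm_XJ (J : Finset (Fin r)) (hdeg : ∀ i, (B.f i).totalDegree ≤ 4)
    (h0 : ∀ i, i ∉ J → Tm (QZ (B.f i))) : Tm (B.XJ J) := by
  have key : ∀ (n : ℕ) (J : Finset (Fin r)), Jᶜ.card ≤ n → ∀ B : Qz r s g N,
      (∀ i, (B.f i).totalDegree ≤ 4) → (∀ i, i ∉ J → Tm (QZ (B.f i))) → Tm (B.XJ J) := by
    intro n
    induction n with
    | zero =>
      intro J hJ B hdeg h0
      have h1 : J = Finset.univ := by
        have h2 : Jᶜ = ∅ := Finset.card_eq_zero.1 (Nat.le_zero.1 hJ)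
        exact (Finset.compl_eq_empty_iff J).1 h2
      rw [h1]
      exact tm_univ _ B hdeg le_rfl
    | succ n ih =>
      intro J hJ B hdeg h0
      by_cases h : ∃ i, i ∉ J
      · obtain ⟨i, hi⟩ := h
        have hc : (insert i J)ᶜ.card ≤ n := by
          have h3 : (insert i J)ᶜ ⊂ Jᶜ := by
            rw [Finset.ssubset_iff_of_subset]
            · exact ⟨i, by simpa using hi, by simp⟩
            · intro p hp
              simp only [Finset.mem_compl, Finset.mem_insert] at hp ⊢
              tauto
          have := Finset.card_lt_card h3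
          omega
        rw [B.split hi]
        have h4 : (B.rd i).XJ J = (B.rd i).XJ (insert i J) := by
          ext z
          constructor
          · rintro ⟨h1, h2⟩
            refine ⟨fun j hj => ?_, h2⟩
            rcases Finset.mem_insert.1 hj with rfl | hj
            · rw [B.rd_F1]
              exact one_ne_zero
            · exact h1 j hj
          · rintro ⟨h1, h2⟩
            exact ⟨fun j hj => h1 j (Finset.mem_insert_of_mem hj), h2⟩
        refine Tm.union (ih _ hc B hdeg fun j hj => h0 j fun h => hj (Finset.mem_insert_of_mem h))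
          (Tm.image (Tm.prod ?_ (h0 i hi)) _)
        rw [h4]
        refine ih _ hc (B.rd i) ?_ ?_
        · intro j
          show (Function.update B.f i 1 j).totalDegree ≤ 4
          by_cases hj : j = i
          · subst hj
            rw [Function.update_self]
            simp
          · rw [Function.update_of_ne hj]
            exact hdeg j
        · intro j hj
          have hji : j ≠ i := by
            rintro rfl
            exact hj (Finset.mem_insert_self _ _)
          show Tm (QZ (Function.update B.f i 1 j))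
          rw [Function.update_of_ne hji]
          exact h0 j fun h => hj (Finset.mem_insert_of_mem h)
      · push Not at h
        have h1 : J = Finset.univ := by
          ext i
          simp [h i]
        rw [h1]
        exact tm_univ _ B hdeg le_rfl
  exact key _ J le_rfl B hdeg h0

end Qz

end Pool.Agent.MZT
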