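import Pool.Agent.MZT.Main
import Pool.Agent.MZT.Fa
import Pool.Agent.MZT.Qb3

/-!
# MZT phase 2: weighted homogeneous polynomials of degree 2 instead of squares

`Y`: `∑_{k : e k = q} ∏ i, f i (x i) ^ al k i * F k (u k) = c' q * ∏ i, f i (x i) ^ be q i`, where `F k` is
weighted homogeneous of degree 2, is the image of the system
`∑ ∏ f^al * F k (u k) * v k ^ 2 = c' * ∏ f^be` under `(x, u, v) ↦ (x, v^w u)`.
-/

set_option autoImplicit false

open Set Topology Filter MvPolynomial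

namespace Pool.Agent.MZT

open Pool.Agent.MZ Pool.Agent.QTW

/-- polynomials in at most one variable -/
theorem tm_one {n : ℕ} (hn : n ≤ 1) (P : MvPolynomial (Fin n) ℚ) : Tm (QZ P) := by
  rcases Nat.le_one_iff_eq_zero_or_eq_one.1 hn with rfl | rfl
  · exact Tm.of_finite (Set.toFinite _)
  · let p : Polynomial ℚ := aeval (fun _ => Polynomial.X) P
    have hp : ∀ q : Fin 1 → ℚ, p.eval (q 0) = eval q P := by
      intro q
      have h1 : (Polynomial.evalRingHom (q 0)).comp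
          ((aeval (fun _ => Polynomial.X) : MvPolynomial (Fin 1) ℚ →ₐ[ℚ] Polynomial ℚ) :
            MvPolynomial (Fin 1) ℚ →+* Polynomial ℚ) = eval q := by
        apply MvPolynomial.ringHom_ext
        · intro a
          simp
        · intro i
          have hi : i = 0 := Subsingleton.elim _ _
          subst hi
          simp
      exact congrArg (fun φ : MvPolynomial (Fin 1) ℚ →+* ℚ => φ P) h1
    by_cases h0 : p = 0
    · have e : QZ P = {x : Fin 1 → ℝ | IsRat x} := by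
        ext x
        constructor
        · rintro ⟨q, -, h⟩
          exact ⟨q, h⟩
        · rintro ⟨q, h⟩
          refine ⟨q, ?_, h⟩
          rw [← hp, h0, Polynomial.eval_zero]
      rw [e]
      exact Tm.ratpts
    · refine Tm.of_finite (Set.Finite.subset
        ((p.roots.toFinset.finite_toSet).image fun t : ℚ => fun _ : Fin 1 => (t : ℝ)) ?_)
      rintro x ⟨q, hq, rfl⟩
      refine ⟨q 0, ?_, ?_⟩
      · rw [Finset.mem_coe, Multiset.mem_toFinset, Polynomial.mem_roots h0]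
        show p.eval (q 0) = 0
        rw [hp, hq]
      · funext i
        have hi : i = 0 := Subsingleton.elim _ _
        rw [hi]
        rfl

theorem tm_small {n : ℕ} {P : MvPolynomial (Fin n) ℚ} (h : P.totalDegree ≤ 3 ∨ n ≤ 1) :
    Tm (QZ P) := by
  rcases h with h | h
  · exact tm_main n P h
  · exact tm_one h P

/-- index set `Fin r` -/
theorem tmq_fin {r s g : ℕ} (N : Fin r → ℕ) (f : ∀ i, MvPolynomial (Fin (N i)) ℚ)
    (hf : ∀ i, (f i).totalDegree ≤ 4) (J : Finset (Fin r)) (hJ : ∀ i, i ∉ J → Tm (QZ (f i)))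
    (e : Fin s → Fin g) (c : Fin s → ℚ) (c' : Fin g → ℚ)
    (al : Fin s → Fin r → ℕ) (be : Fin g → Fin r → ℕ) :
    Tm ({z : (Σ i, Fin (N i)) ⊕ Fin s → ℝ |
      ∃ (x : ∀ i, Fin (N i) → ℚ) (u : Fin s → ℚ), (∀ i ∈ J, eval (x i) (f i) ≠ 0) ∧
        (∀ q, ∑ k with e k = q, c k * (∏ i, eval (x i) (f i) ^ al k i) * u k ^ 2 =
          c' q * ∏ i, eval (x i) (f i) ^ be q i) ∧
        z = Sum.elim (fun p => (x p.1 p.2 : ℝ)) (fun k => (u k : ℝ))}) := by
  let B : Qz r s g N := ⟨f, e, c, c', al, be⟩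
  have hF : ∀ (y : (Σ i, Fin (N i)) ⊕ Fin s → ℚ) (i : Fin r),
      B.F (fun p => (y (Sum.inl p) : ℝ)) i =
        ((eval (fun j => y (Sum.inl ⟨i, j⟩)) (f i) : ℚ) : ℝ) := by
    intro y i
    exact Pool.Agent.MZ.aeval_rv (f i) fun j => y (Sum.inl ⟨i, j⟩)
  have hE : ∀ (y : (Σ i, Fin (N i)) ⊕ Fin s → ℚ),
      B.Eq (fun p => (y (Sum.inl p) : ℝ)) (fun k => (y (Sum.inr k) : ℝ)) ↔
      ∀ q, ∑ k with e k = q, c k * (∏ i, eval (fun j => y (Sum.inl ⟨i, j⟩)) (f i) ^ al k i) *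
        y (Sum.inr k) ^ 2 = c' q * ∏ i, eval (fun j => y (Sum.inl ⟨i, j⟩)) (f i) ^ be q i := by
    intro y
    refine forall_congr' fun q => ?_
    rw [Finset.sum_filter]
    simp only [hF]
    rw [← (Rat.cast_injective (α := ℝ)).eq_iff]
    push_cast
    have : ∀ k : Fin s, ((if e k = q then c k *
        (∏ i, eval (fun j => y (Sum.inl ⟨i, j⟩)) (f i) ^ al k i) * y (Sum.inr k) ^ 2 else 0 : ℚ) :
          ℝ) = if e k = q then (c k : ℝ) *
        (∏ i, ((eval (fun j => y (Sum.inl ⟨i, j⟩)) (f i) : ℚ) : ℝ) ^ al k i) *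
          (y (Sum.inr k) : ℝ) ^ 2 else 0 := by
      intro k
      split_ifs
      · push_cast; rfl
      · push_cast; rfl
    simp only [this]
    exact Iff.rfl
  have hX : {z : (Σ i, Fin (N i)) ⊕ Fin s → ℝ |
        ∃ (x : ∀ i, Fin (N i) → ℚ) (u : Fin s → ℚ), (∀ i ∈ J, eval (x i) (f i) ≠ 0) ∧
          (∀ q, ∑ k with e k = q, c k * (∏ i, eval (x i) (f i) ^ al k i) * u k ^ 2 =
            c' q * ∏ i, eval (x i) (f i) ^ be q i) ∧
          z = Sum.elim (fun p => (x p.1 p.2 : ℝ)) (fun k => (u k : ℝ))} = B.XJ J := by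
    ext z
    constructor
    · rintro ⟨x, u, h1, h2, rfl⟩
      obtain ⟨y, hy⟩ : ∃ y : (Σ i, Fin (N i)) ⊕ Fin s → ℚ,
          y = Sum.elim (fun p => x p.1 p.2) u := ⟨_, rfl⟩
      have hy1 : ∀ i, (fun j => y (Sum.inl ⟨i, j⟩)) = x i := by
        intro i; rw [hy]; rfl
      have hz : (Sum.elim (fun p : (Σ i, Fin (N i)) => (x p.1 p.2 : ℝ)) (fun k => (u k : ℝ)) :
          (Σ i, Fin (N i)) ⊕ Fin s → ℝ) = fun p => (y p : ℝ) := by
        funext p
        rw [hy]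
        rcases p with p | k <;> rfl
      rw [hz]
      refine ⟨?_, ?_, y, rfl⟩
      · intro i hi h
        apply h1 i hi
        have h3 : B.F (fun p => (y (Sum.inl p) : ℝ)) i = 0 := h
        rw [hF, hy1] at h3
        exact_mod_cast h3
      · refine (hE y).2 fun q => ?_
        simp only [hy1]
        rw [hy]
        exact h2 q
    · rintro ⟨h1, h2, y, rfl⟩
      refine ⟨fun i j => y (Sum.inl ⟨i, j⟩), fun k => y (Sum.inr k), ?_, (hE y).1 h2, ?_⟩
      · intro i hi h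
        apply h1 i hi
        show B.F (fun p => (y (Sum.inl p) : ℝ)) i = 0
        rw [hF]
        exact_mod_cast h
      · funext p
        rcases p with p | k <;> rfl
  rw [hX]
  exact B.tm_XJ J hf hJ

/-- any finite index set -/
theorem tmq_fintype {ι : Type} [Fintype ι] {s g : ℕ} (N : ι → ℕ)
    (f : ∀ i, MvPolynomial (Fin (N i)) ℚ)
    (hf : ∀ i, (f i).totalDegree ≤ 4) (J : Finset ι) (hJ : ∀ i, i ∉ J → Tm (QZ (f i)))
    (e : Fin s → Fin g) (c : Fin s → ℚ) (c' : Fin g → ℚ)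
    (al : Fin s → ι → ℕ) (be : Fin g → ι → ℕ) :
    Tm ({z : (Σ i, Fin (N i)) ⊕ Fin s → ℝ |
      ∃ (x : ∀ i, Fin (N i) → ℚ) (u : Fin s → ℚ), (∀ i ∈ J, eval (x i) (f i) ≠ 0) ∧
        (∀ q, ∑ k with e k = q, c k * (∏ i, eval (x i) (f i) ^ al k i) * u k ^ 2 =
          c' q * ∏ i, eval (x i) (f i) ^ be q i) ∧
        z = Sum.elim (fun p => (x p.1 p.2 : ℝ)) (fun k => (u k : ℝ))}) := by
  obtain ⟨n, ⟨ε⟩⟩ : ∃ n, Nonempty (Fin n ≃ ι) := ⟨_, ⟨(Fintype.equivFin ι).symm⟩⟩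
  have hmem : ∀ j, j ∈ J.map ε.symm.toEmbedding ↔ ε j ∈ J := by
    intro j
    rw [Finset.mem_map_equiv]
    rfl
  have h := tmq_fin (fun j => N (ε j)) (fun j => f (ε j)) (fun j => hf (ε j))
    (J.map ε.symm.toEmbedding) (fun j hj => hJ (ε j) fun h => hj ((hmem j).2 h)) e c c'
    (fun k j => al k (ε j)) (fun q j => be q (ε j))
  let ψ : ((Σ j, Fin (N (ε j))) ⊕ Fin s → ℝ) → ((Σ i, Fin (N i)) ⊕ Fin s → ℝ) := fun z =>
    Sum.elim (fun p => z (Sum.inl ((Equiv.sigmaCongrLeft (β := fun i => Fin (N i)) ε).symm p)))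
      (fun k => z (Sum.inr k))
  let pψ : (Σ i, Fin (N i)) ⊕ Fin s → MvPolynomial ((Σ j, Fin (N (ε j))) ⊕ Fin s) ℝ :=
    Sum.elim (fun p => X (Sum.inl ((Equiv.sigmaCongrLeft (β := fun i => Fin (N i)) ε).symm p)))
      (fun k => X (Sum.inr k))
  have hψ : pm pψ = ψ := by
    funext z a
    rcases a with p | k
    · exact eval_X _
    · exact eval_X _
  have hψ2 : ∀ (x : ∀ i, Fin (N i) → ℚ) (u : Fin s → ℚ),
      ψ (Sum.elim (fun p => (x (ε p.1) p.2 : ℝ)) (fun k => (u k : ℝ))) =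
        Sum.elim (fun p => (x p.1 p.2 : ℝ)) (fun k => (u k : ℝ)) := by
    intro x u
    funext p
    rcases p with p | k
    · obtain ⟨p', rfl⟩ := (Equiv.sigmaCongrLeft (β := fun i => Fin (N i)) ε).surjective p
      show (Sum.elim (fun p => (x (ε p.1) p.2 : ℝ)) (fun k => (u k : ℝ)) :
        (Σ j, Fin (N (ε j))) ⊕ Fin s → ℝ) (Sum.inl ((Equiv.sigmaCongrLeft
          (β := fun i => Fin (N i)) ε).symm ((Equiv.sigmaCongrLeft
          (β := fun i => Fin (N i)) ε) p'))) = _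
      rw [Equiv.symm_apply_apply]
      rfl
    · rfl
  have hp : ∀ (x : ∀ i, Fin (N i) → ℚ) (b : ι → ℕ), ∏ j, eval (x (ε j)) (f (ε j)) ^ b (ε j) =
      ∏ i, eval (x i) (f i) ^ b i := fun x b =>
    Equiv.prod_comp ε fun i => eval (x i) (f i) ^ b i
  have key := h.image pψ
  rw [hψ] at key
  convert key using 1
  ext z
  constructor
  · rintro ⟨x, u, h0, h1, rfl⟩
    refine ⟨Sum.elim (fun p => (x (ε p.1) p.2 : ℝ)) (fun k => (u k : ℝ)),
      ⟨fun j => x (ε j), u, fun j hj => h0 (ε j) ((hmem j).1 hj), ?_, rfl⟩, hψ2 x u⟩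
    intro q
    rw [hp x (be q), ← h1 q]
    refine Finset.sum_congr rfl fun k _ => ?_
    rw [hp x (al k)]
  · rintro ⟨_, ⟨x, u, h0, h1, rfl⟩, rfl⟩
    obtain ⟨x', rfl⟩ : ∃ x' : ∀ i, Fin (N i) → ℚ, x = fun j => x' (ε j) :=
      ⟨Equiv.piCongrLeft (fun i => Fin (N i) → ℚ) ε x, by
        funext j
        exact (Equiv.piCongrLeft_apply_apply (fun i => Fin (N i) → ℚ) ε x j).symm⟩
    refine ⟨x', u, ?_, ?_, hψ2 x' u⟩
    · intro i hi
      obtain ⟨j, rfl⟩ := ε.surjective i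
      exact h0 j ((hmem j).2 hi)
    intro q
    have h2 := h1 q
    rw [hp x' (be q)] at h2
    rw [← h2]
    refine Finset.sum_congr rfl fun k _ => ?_
    rw [hp x' (al k)]

theorem eval_smul_weighted {n : ℕ} {P : MvPolynomial (Fin n) ℚ} {w : Fin n → ℕ} {d : ℕ}
    (hP : IsWeightedHomogeneous w P d) (x : Fin n → ℚ) (t : ℚ) :
    eval (fun j => t ^ w j * x j) P = eval x P * t ^ d := by
  rw [eval_eq, eval_eq, Finset.sum_mul]
  refine Finset.sum_congr rfl fun m hm => ?_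
  have h1 : ∑ i ∈ m.support, w i * m i = d := by
    have h2 := hP (mem_support_iff.1 hm)
    rw [Finsupp.weight_apply] at h2
    rw [← h2]
    simp only [Finsupp.sum, smul_eq_mul]
    exact Finset.sum_congr rfl fun i _ => mul_comm _ _
  simp_rw [mul_pow]
  rw [Finset.prod_mul_distrib]
  simp_rw [← pow_mul]
  rw [Finset.prod_pow_eq_pow_sum, h1]
  ring

private theorem ev_pow_mul {σ : Type} (z : σ → ℝ) (a b : σ) (n : ℕ) :
    eval z ((X a : MvPolynomial σ ℝ) ^ n * X b) = z a ^ n * z b := by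
  rw [map_mul, map_pow, eval_X, eval_X]

private theorem ev_prod {σ κ : Type} (z : σ → ℝ) (J : Finset κ) (a : κ → σ) :
    eval z (∏ k ∈ J, (X (a k) : MvPolynomial σ ℝ)) = ∏ k ∈ J, z (a k) := by
  rw [map_prod]
  exact Finset.prod_congr rfl fun k _ => eval_X _

/-- the rational points of the bundle -/
def QB {r s g : ℕ} (N : Fin r → ℕ) (f : ∀ i, MvPolynomial (Fin (N i)) ℚ) (J : Finset (Fin r))
    (M : Fin s → ℕ) (F : ∀ k, MvPolynomial (Fin (M k)) ℚ) (J' : Finset (Fin s))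
    (e : Fin s → Fin g) (c' : Fin g → ℚ) (al : Fin s → Fin r → ℕ) (be : Fin g → Fin r → ℕ) :
    Set ((Σ i, Fin (N i)) ⊕ (Σ k, Fin (M k)) → ℝ) :=
  {z | ∃ (x : ∀ i, Fin (N i) → ℚ) (u : ∀ k, Fin (M k) → ℚ), (∀ i ∈ J, eval (x i) (f i) ≠ 0) ∧
    (∀ k ∈ J', eval (u k) (F k) ≠ 0) ∧
    (∀ q, ∑ k with e k = q, (∏ i, eval (x i) (f i) ^ al k i) * eval (u k) (F k) =
      c' q * ∏ i, eval (x i) (f i) ^ be q i) ∧
    z = Sum.elim (fun p => (x p.1 p.2 : ℝ)) (fun p => (u p.1 p.2 : ℝ))}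

/-- weighted homogeneous polynomials of degree 2 -/
theorem tmq_forms {r s g : ℕ} (N : Fin r → ℕ) (f : ∀ i, MvPolynomial (Fin (N i)) ℚ)
    (hf : ∀ i, (f i).totalDegree ≤ 4) (J : Finset (Fin r))
    (hJ : ∀ i, i ∉ J → (f i).totalDegree ≤ 3 ∨ N i ≤ 1)
    (M : Fin s → ℕ) (w : ∀ k, Fin (M k) → ℕ) (F : ∀ k, MvPolynomial (Fin (M k)) ℚ)
    (hF : ∀ k, IsWeightedHomogeneous (w k) (F k) 2) (hF4 : ∀ k, (F k).totalDegree ≤ 4)
    (J' : Finset (Fin s)) (hJ' : ∀ k, k ∉ J' → (F k).totalDegree ≤ 3 ∨ M k ≤ 1)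
    (e : Fin s → Fin g) (c' : Fin g → ℚ)
    (al : Fin s → Fin r → ℕ) (be : Fin g → Fin r → ℕ) :
    Tm (QB N f J M F J' e c' al be) := by
  classical
  let N' : Fin r ⊕ Fin s → ℕ := Sum.elim N M
  let f' : ∀ i : Fin r ⊕ Fin s, MvPolynomial (Fin (N' i)) ℚ := fun i =>
    match i with
    | Sum.inl i => f i
    | Sum.inr k => F k
  have hf' : ∀ i, (f' i).totalDegree ≤ 4 := by
    rintro (i | k)
    · exact hf i
    · exact hF4 k
  have hl : ∀ i, (Sum.inl i : Fin r ⊕ Fin s) ∈ J.disjSum J' ↔ i ∈ J := fun i =>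
    Finset.inl_mem_disjSum
  have hr : ∀ k, (Sum.inr k : Fin r ⊕ Fin s) ∈ J.disjSum J' ↔ k ∈ J' := fun k =>
    Finset.inr_mem_disjSum
  have hJ2 : ∀ i, i ∉ J.disjSum J' → Tm (QZ (f' i)) := by
    rintro (i | k) h
    · exact tm_small (hJ i fun h' => h ((hl i).2 h'))
    · exact tm_small (hJ' k fun h' => h ((hr k).2 h'))
  have h := tmq_fintype N' f' hf' (J.disjSum J') hJ2 e (fun _ => 1) c'
    (fun k => Sum.elim (al k) fun k' => if k' = k then 1 else 0)
    (fun q => Sum.elim (be q) fun _ => 0)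
  have h := h.restrict (∏ k ∈ J', X (Sum.inr k))
  let φ : ((Σ i, Fin (N' i)) ⊕ Fin s → ℝ) → ((Σ i, Fin (N i)) ⊕ (Σ k, Fin (M k)) → ℝ) := fun z =>
    Sum.elim (fun p => z (Sum.inl ⟨Sum.inl p.1, p.2⟩))
      (fun p => z (Sum.inr p.1) ^ w p.1 p.2 * z (Sum.inl ⟨Sum.inr p.1, p.2⟩))
  let pφ : (Σ i, Fin (N i)) ⊕ (Σ k, Fin (M k)) → MvPolynomial ((Σ i, Fin (N' i)) ⊕ Fin s) ℝ :=
    Sum.elim (fun p => X (Sum.inl ⟨Sum.inl p.1, p.2⟩))
      (fun p => X (Sum.inr p.1) ^ w p.1 p.2 * X (Sum.inl ⟨Sum.inr p.1, p.2⟩))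
  have hφ : pm pφ = φ := by
    funext z a
    rcases a with p | p
    · exact eval_X _
    · exact ev_pow_mul z (Sum.inr p.1) (Sum.inl ⟨Sum.inr p.1, p.2⟩) (w p.1 p.2)
  have hsc : ∀ (k : Fin s) (y : Fin (M k) → ℚ) (t : ℚ),
      eval (fun j => t ^ w k j * y j) (F k) = eval y (F k) * t ^ 2 := by
    intro k y t
    exact eval_smul_weighted (hF k) y t
  have hprod : ∀ (x : ∀ i, Fin (N' i) → ℚ) (k : Fin s),
      ∏ i, eval (x i) (f' i) ^ (Sum.elim (al k) (fun k' => if k' = k then 1 else 0) :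
        Fin r ⊕ Fin s → ℕ) i =
      (∏ i, eval (x (Sum.inl i)) (f i) ^ al k i) * eval (x (Sum.inr k)) (F k) := by
    intro x k
    rw [Fintype.prod_sum_type]
    congr 1
    rw [Finset.prod_eq_single k]
    · show eval (x (Sum.inr k)) (F k) ^ (if k = k then 1 else 0) = _
      rw [if_pos rfl, pow_one]
    · intro k' _ hk
      show eval (x (Sum.inr k')) (F k') ^ (if k' = k then 1 else 0) = _
      rw [if_neg hk, pow_zero]
    · intro hk
      exact absurd (Finset.mem_univ k) hk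
  have hprod2 : ∀ (x : ∀ i, Fin (N' i) → ℚ) (q : Fin g),
      ∏ i, eval (x i) (f' i) ^ (Sum.elim (be q) (fun _ => 0) : Fin r ⊕ Fin s → ℕ) i =
      ∏ i, eval (x (Sum.inl i)) (f i) ^ be q i := by
    intro x q
    rw [Fintype.prod_sum_type]
    have h1 : ∏ k : Fin s, eval (x (Sum.inr k)) (f' (Sum.inr k)) ^
        (Sum.elim (be q) (fun _ => 0) : Fin r ⊕ Fin s → ℕ) (Sum.inr k) = 1 :=
      Finset.prod_eq_one fun k _ => pow_zero _
    rw [h1, mul_one]
    rfl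
  have key := h.image pφ
  rw [hφ] at key
  unfold QB
  convert key using 1
  ext z
  constructor
  · rintro ⟨x, u, h0, h0', h1, rfl⟩
    let x' : ∀ i : Fin r ⊕ Fin s, Fin (N' i) → ℚ := fun i =>
      match i with
      | Sum.inl i => x i
      | Sum.inr k => u k
    refine ⟨_, ⟨⟨x', fun _ => 1, ?_, ?_, rfl⟩, ?_⟩, ?_⟩
    · rintro (i | k) hi
      · exact h0 i ((hl i).1 hi)
      · exact h0' k ((hr k).1 hi)
    · intro q
      rw [hprod2 x' q]
      have h2 := h1 q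
      refine Eq.trans ?_ h2
      refine Finset.sum_congr rfl fun k _ => ?_
      rw [hprod x' k, one_pow, mul_one, one_mul]
      rfl
    · rw [ev_prod]
      refine Finset.prod_ne_zero_iff.2 fun k _ => ?_
      show ((1 : ℚ) : ℝ) ≠ 0
      rw [Rat.cast_one]
      exact one_ne_zero
    · funext p
      rcases p with p | p
      · rfl
      · show ((1 : ℚ) : ℝ) ^ w p.1 p.2 * (u p.1 p.2 : ℝ) = (u p.1 p.2 : ℝ)
        rw [Rat.cast_one, one_pow, one_mul]
  · rintro ⟨_, ⟨⟨x, v, h0, h1, rfl⟩, hD⟩, rfl⟩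
    have hv : ∀ k ∈ J', v k ≠ 0 := by
      intro k hk hv0
      apply hD
      rw [ev_prod]
      refine Finset.prod_eq_zero hk ?_
      show ((v k : ℚ) : ℝ) = 0
      rw [hv0, Rat.cast_zero]
    refine ⟨fun i => x (Sum.inl i), fun k j => v k ^ w k j * x (Sum.inr k) j, ?_, ?_, ?_, ?_⟩
    · intro i hi
      exact h0 (Sum.inl i) ((hl i).2 hi)
    · intro k hk
      have h3 := hsc k (x (Sum.inr k)) (v k)
      rw [h3]
      exact mul_ne_zero (h0 (Sum.inr k) ((hr k).2 hk)) (pow_ne_zero 2 (hv k hk))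
    · intro q
      have h2 := h1 q
      rw [hprod2 x q] at h2
      refine Eq.trans ?_ h2
      refine Finset.sum_congr rfl fun k _ => ?_
      rw [hprod x k, one_mul, mul_assoc]
      exact congrArg _ (hsc k (x (Sum.inr k)) (v k))
    · funext p
      rcases p with p | p
      · rfl
      · show (v p.1 : ℝ) ^ w p.1 p.2 * (x (Sum.inr p.1) p.2 : ℝ) =
          ((v p.1 ^ w p.1 p.2 * x (Sum.inr p.1) p.2 : ℚ) : ℝ)
        push_cast
        rfl

end Pool.Agent.MZT
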