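import Mathlib

/-!
# MZT/Ra: the rational zeros of a quadratic form

The rational zeros of a rational quadratic form in `n` variables are a finite union of images of
`ℚ × ℚ^m` under maps `(t, y) ↦ t ψ(y)`, with `ψ` polynomial of degree at most two.
-/

set_option autoImplicit false

open MvPolynomial

namespace Pool.Agent.MZT

/-- a homogeneous rational polynomial of degree two is a symmetric bilinear form -/
theorem ra_bil {m : ℕ} {Q : MvPolynomial (Fin m) ℚ} (h : Q.IsHomogeneous 2) :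
    ∃ B : (Fin m → ℚ) →ₗ[ℚ] (Fin m → ℚ) →ₗ[ℚ] ℚ, (∀ x y, B x y = B y x) ∧
      ∀ x : Fin m → ℚ, eval x Q = B x x := by
  have hdd : ∀ i j, ∃ c : ℚ, pderiv j (pderiv i Q) = C c := by
    intro i j
    have h1 : (pderiv j (pderiv i Q)).IsHomogeneous (2 - 1 - 1) := (h.pderiv).pderiv
    have h2 := h1.totalDegree_le
    exact ⟨_, totalDegree_eq_zero_iff_eq_C.mp (by omega)⟩
  choose c hc using hdd
  refine ⟨LinearMap.mk₂ ℚ (fun x y => (1 / 4 : ℚ) * ∑ i, ∑ j, (c i j : ℚ) * (x i * y j + y i * x j))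
    ?_ ?_ ?_ ?_, ?_, ?_⟩
  · intro x x' y
    simp only [Pi.add_apply, Finset.mul_sum, ← Finset.sum_add_distrib]
    refine Finset.sum_congr rfl fun i _ => Finset.sum_congr rfl fun j _ => ?_
    ring
  · intro t x y
    simp only [Pi.smul_apply, smul_eq_mul, Finset.mul_sum]
    refine Finset.sum_congr rfl fun i _ => Finset.sum_congr rfl fun j _ => ?_
    ring
  · intro x y y'
    simp only [Pi.add_apply, Finset.mul_sum, ← Finset.sum_add_distrib]
    refine Finset.sum_congr rfl fun i _ => Finset.sum_congr rfl fun j _ => ?_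
    ring
  · intro t x y
    simp only [Pi.smul_apply, smul_eq_mul, Finset.mul_sum]
    refine Finset.sum_congr rfl fun i _ => Finset.sum_congr rfl fun j _ => ?_
    ring
  · intro x y
    simp only [LinearMap.mk₂_apply]
    congr 1
    refine Finset.sum_congr rfl fun i _ => ?_
    refine Finset.sum_congr rfl fun j _ => ?_
    ring
  · intro x
    have e1 := h.sum_X_mul_pderiv
    have e2 : ∀ i, ∑ j, X j * pderiv j (pderiv i Q) = pderiv i Q := by
      intro i
      have := (h.pderiv (i := i)).sum_X_mul_pderiv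
      simpa using this
    have e3 := congrArg (fun G => eval x G) e1
    have e4 : ∀ i, eval x (pderiv i Q) = ∑ j, x j * (c i j : ℚ) := by
      intro i
      rw [← e2 i, map_sum]
      refine Finset.sum_congr rfl fun j _ => ?_
      rw [hc, map_mul, eval_X, eval_C]
    simp only [map_sum, map_mul, eval_X, map_nsmul, e4] at e3
    simp only [LinearMap.mk₂_apply]
    have e5 : ∑ i, ∑ j, (c i j : ℚ) * (x i * x j + x i * x j) =
        2 * ∑ i, x i * ∑ j, x j * (c i j : ℚ) := by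
      rw [Finset.mul_sum]
      refine Finset.sum_congr rfl fun i _ => ?_
      rw [Finset.mul_sum, Finset.mul_sum]
      refine Finset.sum_congr rfl fun j _ => ?_
      ring
    rw [e5, e3, nsmul_eq_mul]
    push_cast
    ring

/-- polynomial function of degree at most `d` -/
def RaP (m d : ℕ) (f : (Fin m → ℚ) → ℚ) : Prop :=
  ∃ G : MvPolynomial (Fin m) ℚ, G.totalDegree ≤ d ∧ ∀ y, eval y G = f y

theorem RaP.const {m d : ℕ} (c : ℚ) : RaP m d fun _ => c :=
  ⟨C c, by rw [totalDegree_C]; exact Nat.zero_le _, fun y => eval_C _⟩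

theorem RaP.sub {m d : ℕ} {f g : (Fin m → ℚ) → ℚ} (hf : RaP m d f) (hg : RaP m d g) :
    RaP m d fun y => f y - g y := by
  obtain ⟨F, hF, hF'⟩ := hf
  obtain ⟨G, hG, hG'⟩ := hg
  exact ⟨F - G, (totalDegree_sub _ _).trans (max_le hF hG), fun y => by rw [map_sub, hF', hG']⟩

theorem RaP.mul {m d e : ℕ} {f g : (Fin m → ℚ) → ℚ} (hf : RaP m d f) (hg : RaP m e g) :
    RaP m (d + e) fun y => f y * g y := by
  obtain ⟨F, hF, hF'⟩ := hf
  obtain ⟨G, hG, hG'⟩ := hg
  exact ⟨F * G, (totalDegree_mul _ _).trans (add_le_add hF hG), fun y => by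
    rw [map_mul, hF', hG']⟩

theorem RaP.sum {m d : ℕ} {ι : Type} (s : Finset ι) {f : ι → (Fin m → ℚ) → ℚ}
    (hf : ∀ i, RaP m d (f i)) : RaP m d fun y => ∑ i ∈ s, f i y := by
  choose F hF hF' using hf
  refine ⟨∑ i ∈ s, F i, totalDegree_finsetSum_le fun i _ => hF i, fun y => ?_⟩
  rw [map_sum]
  exact Finset.sum_congr rfl fun i _ => hF' i y

theorem RaP.lin {m : ℕ} (l : (Fin m → ℚ) →ₗ[ℚ] ℚ) : RaP m 1 fun y => l y := by
  refine ⟨∑ j, C (l (Pi.single j 1)) * X j, totalDegree_finsetSum_le fun i _ => ?_, fun y => ?_⟩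
  · refine (totalDegree_mul _ _).trans ?_
    rw [totalDegree_C, totalDegree_X]
  · rw [map_sum]
    have h := LinearMap.pi_apply_eq_sum_univ l y
    refine Eq.trans ?_ h.symm
    refine Finset.sum_congr rfl fun j _ => ?_
    rw [map_mul, eval_C, eval_X, smul_eq_mul, mul_comm]
    congr 2
    funext i
    rw [Pi.single_apply]
    simp [eq_comm]

theorem RaP.bil {m n : ℕ} (B : (Fin n → ℚ) →ₗ[ℚ] (Fin n → ℚ) →ₗ[ℚ] ℚ)
    (π : (Fin m → ℚ) →ₗ[ℚ] (Fin n → ℚ)) : RaP m 2 fun y => B (π y) (π y) := by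
  have h : ∀ y, B (π y) (π y) = ∑ j, (π y) j * B (fun i => if i = j then 1 else 0) (π y) := by
    intro y
    have h := LinearMap.pi_apply_eq_sum_univ (B.flip (π y)) (π y)
    simp only [LinearMap.flip_apply, smul_eq_mul] at h
    rw [h]
    refine Finset.sum_congr rfl fun j _ => ?_
    congr 2
    simp [eq_comm]
  have h2 : RaP m (1 + 1) fun y => ∑ j, (π y) j * B (fun i => if i = j then 1 else 0) (π y) := by
    refine RaP.sum _ fun j => RaP.mul ?_ ?_
    · exact RaP.lin ((LinearMap.proj j).comp π)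
    · exact RaP.lin ((B fun i => if i = j then 1 else 0).comp π)
  obtain ⟨G, hG, hG'⟩ := h2
  exact ⟨G, hG, fun y => (hG' y).trans (h y).symm⟩

/-- the point with coordinates `P a (y)` -/
noncomputable def raE {n m : ℕ} (P : Fin n → MvPolynomial (Fin m) ℚ) (y : Fin m → ℚ) : Fin n → ℚ :=
  fun a => eval y (P a)

theorem ra_main {n : ℕ} (B : (Fin n → ℚ) →ₗ[ℚ] (Fin n → ℚ) →ₗ[ℚ] ℚ) (hB : ∀ x y, B x y = B y x) :
    ∀ (d : ℕ) (W : Submodule ℚ (Fin n → ℚ)), Module.finrank ℚ W = d →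
      ∃ L : List (Σ m : ℕ, Fin n → MvPolynomial (Fin m) ℚ),
        (∀ P ∈ L, (∀ a, (P.2 a).totalDegree ≤ 2) ∧
          ∀ y : Fin P.1 → ℚ, raE P.2 y ∈ W ∧ B (raE P.2 y) (raE P.2 y) = 0) ∧
        ∀ q ∈ W, B q q = 0 → ∃ P ∈ L, ∃ (t : ℚ) (y : Fin P.1 → ℚ), q = t • raE P.2 y := by
  intro d
  induction d using Nat.strong_induction_on with
  | _ d ih =>
  intro W hW
  by_cases hp : ∃ p ∈ W, p ≠ 0 ∧ B p p = 0
  swap
  · push Not at hp
    refine ⟨[⟨0, fun _ => 0⟩], ?_, ?_⟩
    · intro P hP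
      rw [List.mem_singleton] at hP
      subst hP
      have h0 : ∀ y : Fin 0 → ℚ, raE (fun _ : Fin n => (0 : MvPolynomial (Fin 0) ℚ)) y = 0 := by
        intro y
        funext a
        simp [raE]
      refine ⟨fun a => by simp, fun y => ?_⟩
      rw [h0]
      exact ⟨W.zero_mem, by simp⟩
    · intro q hq hq0
      refine ⟨_, List.mem_singleton.2 rfl, 0, fun _ => 0, ?_⟩
      rw [zero_smul]
      by_contra hne
      exact hp q hq hne hq0
  obtain ⟨p, hpW, hp0, hpp⟩ := hp
  obtain ⟨i, hi⟩ : ∃ i, p i ≠ 0 := by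
    by_contra hcon
    push Not at hcon
    exact hp0 (funext hcon)
  set W' : Submodule ℚ (Fin n → ℚ) := W ⊓ LinearMap.ker (B p) ⊓
    LinearMap.ker (LinearMap.proj (R := ℚ) (φ := fun _ : Fin n => ℚ) i) with hW'
  have hmem : ∀ v, v ∈ W' ↔ (v ∈ W ∧ B p v = 0) ∧ v i = 0 := by
    intro v
    rw [hW', Submodule.mem_inf, Submodule.mem_inf, LinearMap.mem_ker, LinearMap.mem_ker,
      LinearMap.proj_apply]
  have hlt : W' < W := by
    refine lt_of_le_of_ne (fun v hv => ((hmem v).1 hv).1.1) fun h => ?_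
    rw [← h, hmem] at hpW
    exact hi hpW.2
  obtain ⟨L, hL, hL'⟩ := ih _ (hW ▸ Submodule.finrank_lt_finrank_of_lt hlt) W' rfl
  obtain ⟨π₀, hπ₀⟩ := W.subtype.exists_leftInverse_of_injective W.ker_subtype
  set π : (Fin n → ℚ) →ₗ[ℚ] (Fin n → ℚ) := W.subtype.comp π₀ with hπ
  have hπW : ∀ x, π x ∈ W := fun x => (π₀ x).2
  have hπid : ∀ x ∈ W, π x = x := by
    intro x hx
    have := congrArg Subtype.val (LinearMap.congr_fun hπ₀ (⟨x, hx⟩ : W))
    simpa [hπ] using this
  -- the map of degree two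
  have hψ : ∀ a, RaP n 2 fun y => 2 * B p (π y) * (π y) a - B (π y) (π y) * p a := by
    intro a
    refine RaP.sub ?_ ?_
    · have h1 : RaP n (0 + 1 + 1) fun y => 2 * B p (π y) * (π y) a :=
        RaP.mul (RaP.mul (RaP.const 2) (RaP.lin ((B p).comp π)))
          (RaP.lin ((LinearMap.proj a).comp π))
      exact h1
    · have h1 : RaP n (2 + 0) fun y => B (π y) (π y) * p a :=
        RaP.mul (RaP.bil B π) (RaP.const _)
      exact h1
  choose ψ hψd hψe using hψ
  have hψv : ∀ y, raE ψ y = (2 * B p (π y)) • π y - B (π y) (π y) • p := by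
    intro y
    funext a
    simp only [raE, hψe, Pi.sub_apply, Pi.smul_apply, smul_eq_mul]
  refine ⟨⟨n, ψ⟩ :: ⟨0, fun a => C (p a)⟩ ::
    L.map (fun P => ⟨P.1 + 1, fun a => X 0 * C (p a) + rename Fin.succ (P.2 a)⟩), ?_, ?_⟩
  · intro P hP
    rw [List.mem_cons, List.mem_cons, List.mem_map] at hP
    rcases hP with rfl | rfl | ⟨P, hP, rfl⟩
    · refine ⟨hψd, fun y => ?_⟩
      show raE ψ y ∈ W ∧ B (raE ψ y) (raE ψ y) = 0
      rw [hψv]
      refine ⟨W.sub_mem (W.smul_mem _ (hπW y)) (W.smul_mem _ hpW), ?_⟩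
      simp only [map_sub, map_smul, LinearMap.sub_apply, LinearMap.smul_apply, smul_eq_mul, hpp,
        hB (π y) p]
      ring
    · refine ⟨fun a => by simp, fun y => ?_⟩
      have h0 : raE (fun a => (C (p a) : MvPolynomial (Fin 0) ℚ)) y = p := by
        funext a
        simp [raE]
      show raE (fun a => (C (p a) : MvPolynomial (Fin 0) ℚ)) y ∈ W ∧ _
      rw [h0]
      exact ⟨hpW, hpp⟩
    · obtain ⟨hd, hy⟩ := hL P hP
      refine ⟨fun a => ?_, fun y => ?_⟩
      · refine (totalDegree_add _ _).trans (max_le ?_ ?_)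
        · refine (totalDegree_mul _ _).trans ?_
          rw [totalDegree_X, totalDegree_C]
          norm_num
        · exact (totalDegree_rename_le _ _).trans (hd a)
      · have h0 : raE (fun a => (X 0 * C (p a) + rename Fin.succ (P.2 a) :
            MvPolynomial (Fin (P.1 + 1)) ℚ)) y = y 0 • p + raE P.2 (y ∘ Fin.succ) := by
          funext a
          simp [raE, eval_rename]
        show raE (fun a => (X 0 * C (p a) + rename Fin.succ (P.2 a) :
            MvPolynomial (Fin (P.1 + 1)) ℚ)) y ∈ W ∧ _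
        rw [h0]
        obtain ⟨h1, h2⟩ := hy (y ∘ Fin.succ)
        obtain ⟨⟨h3, h4⟩, -⟩ := (hmem _).1 h1
        refine ⟨W.add_mem (W.smul_mem _ hpW) h3, ?_⟩
        simp only [map_add, map_smul, LinearMap.add_apply, LinearMap.smul_apply, smul_eq_mul, hpp,
          hB _ p, h4, h2]
        ring
  · intro q hq hqq
    by_cases hpq : B p q = 0
    swap
    · refine ⟨_, List.mem_cons_self, (2 * B p q)⁻¹, q, ?_⟩
      show q = (2 * B p q)⁻¹ • raE ψ q
      rw [hψv, hπid q hq, hqq, zero_smul, sub_zero, smul_smul, inv_mul_cancel₀, one_smul]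
      exact mul_ne_zero two_ne_zero hpq
    set c : ℚ := q i / p i with hc
    have hv : q - c • p ∈ W' := by
      rw [hmem]
      refine ⟨⟨W.sub_mem hq (W.smul_mem _ hpW), ?_⟩, ?_⟩
      · rw [map_sub, map_smul, hpq, hpp, smul_zero, sub_zero]
      · rw [Pi.sub_apply, Pi.smul_apply, smul_eq_mul, hc, div_mul_cancel₀ _ hi, sub_self]
    have hvv : B (q - c • p) (q - c • p) = 0 := by
      simp only [map_sub, map_smul, LinearMap.sub_apply, LinearMap.smul_apply, smul_eq_mul, hpp,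
        hB q p, hpq, hqq]
      ring
    obtain ⟨P, hP, t, y, hty⟩ := hL' _ hv hvv
    by_cases ht : t = 0
    · refine ⟨⟨0, fun a => C (p a)⟩, by simp, c, fun _ => 0, ?_⟩
      have h0 : raE (fun a => (C (p a) : MvPolynomial (Fin 0) ℚ)) (fun _ => 0) = p := by
        funext a
        simp [raE]
      show q = c • raE (fun a => (C (p a) : MvPolynomial (Fin 0) ℚ)) (fun _ => 0)
      rw [h0]
      rw [ht, zero_smul] at hty
      exact sub_eq_zero.1 hty
    · refine ⟨_, List.mem_cons_of_mem _ (List.mem_cons_of_mem _ (List.mem_map_of_mem hP)), t,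
        Fin.cons (c / t) y, ?_⟩
      have h0 : raE (fun a => (X 0 * C (p a) + rename Fin.succ (P.2 a) :
          MvPolynomial (Fin (P.1 + 1)) ℚ)) (Fin.cons (c / t) y) = (c / t) • p + raE P.2 y := by
        funext a
        simp [raE, eval_rename, Function.comp_def]
      show q = t • raE (fun a => (X 0 * C (p a) + rename Fin.succ (P.2 a) :
          MvPolynomial (Fin (P.1 + 1)) ℚ)) (Fin.cons (c / t) y)
      rw [h0, smul_add, smul_smul, mul_div_cancel₀ _ ht, ← hty]
      abel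

/-- the rational zeros of a quadratic form -/
theorem quad_cone {n : ℕ} (D : MvPolynomial (Fin n) ℚ) (hD : D.IsHomogeneous 2) :
    ∃ (L : ℕ) (m : Fin L → ℕ) (ψ : ∀ l, Fin n → MvPolynomial (Fin (m l)) ℚ),
      (∀ l a, (ψ l a).totalDegree ≤ 2) ∧
      (∀ l (t : ℚ) (y : Fin (m l) → ℚ), eval (fun a => t * eval y (ψ l a)) D = 0) ∧
      (∀ q : Fin n → ℚ, eval q D = 0 →
        ∃ l, ∃ (t : ℚ) (y : Fin (m l) → ℚ), q = fun a => t * eval y (ψ l a)) := by
  obtain ⟨B, hB, hBD⟩ := ra_bil hD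
  obtain ⟨L, hL, hL'⟩ := ra_main B hB _ ⊤ rfl
  refine ⟨L.length, fun l => (L.get l).1, fun l => (L.get l).2, ?_, ?_, ?_⟩
  · intro l a
    exact (hL _ (L.get_mem l)).1 a
  · intro l t y
    have h := ((hL _ (L.get_mem l)).2 y).2
    rw [hBD]
    have e : (fun a => t * eval y ((L.get l).2 a)) = t • raE (L.get l).2 y := by
      funext a
      simp [raE]
    rw [e, map_smul, map_smul, LinearMap.smul_apply, h]
    simp
  · intro q hq
    rw [hBD] at hq
    obtain ⟨P, hP, t, y, hty⟩ := hL' q trivial hq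
    obtain ⟨l, rfl⟩ := List.mem_iff_get.1 hP
    refine ⟨l, t, y, ?_⟩
    rw [hty]
    funext a
    simp [raE]

theorem ra_eval_smul {n : ℕ} {P : MvPolynomial (Fin n) ℚ} (hP : P.IsHomogeneous 2)
    (w : Fin n → ℚ) (t : ℚ) : eval (fun j => t * w j) P = t ^ 2 * eval w P := by
  rw [eval_eq, eval_eq, Finset.mul_sum]
  refine Finset.sum_congr rfl fun d hd => ?_
  have h1 : ∑ i ∈ d.support, d i = 2 := by
    have h2 := hP (mem_support_iff.1 hd)
    rw [Finsupp.weight_apply] at h2
    simpa [Finsupp.sum] using h2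
  simp_rw [mul_pow]
  rw [Finset.prod_mul_distrib, Finset.prod_pow_eq_pow_sum, h1]
  ring

theorem quad_sub {n m : ℕ} (F : MvPolynomial (Fin n) ℚ) (hF : F.IsHomogeneous 2)
    (ψ : Fin n → MvPolynomial (Fin m) ℚ) (hψ : ∀ a, (ψ a).totalDegree ≤ 2) :
    (bind₁ ψ F).totalDegree ≤ 4 ∧
      ∀ (t : ℚ) (y : Fin m → ℚ),
        eval (fun a => t * eval y (ψ a)) F = t ^ 2 * eval y (bind₁ ψ F) := by
  refine ⟨?_, fun t y => ?_⟩
  · conv_lhs => rw [F.as_sum, map_sum]
    refine totalDegree_finsetSum_le fun d hd => ?_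
    rw [bind₁_monomial]
    refine (totalDegree_mul _ _).trans ?_
    rw [totalDegree_C, zero_add]
    refine (totalDegree_finsetProd _ _).trans ?_
    have h1 : ∑ i ∈ d.support, d i = 2 := by
      have h2 := hF (mem_support_iff.1 hd)
      rw [Finsupp.weight_apply] at h2
      simpa [Finsupp.sum] using h2
    calc ∑ i ∈ d.support, (ψ i ^ d i).totalDegree ≤ ∑ i ∈ d.support, d i * 2 := by
          refine Finset.sum_le_sum fun i _ => (totalDegree_pow _ _).trans ?_
          exact Nat.mul_le_mul le_rfl (hψ i)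
      _ = 4 := by rw [← Finset.sum_mul, h1]; norm_num
  · rw [ra_eval_smul hF]
    congr 1
    rw [← coe_aeval_eq_eval, ← coe_aeval_eq_eval]
    show aeval (fun a => eval y (ψ a)) F = aeval y (bind₁ ψ F)
    rw [aeval_bind₁]
    rfl

end Pool.Agent.MZT
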