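import Pool.Agent.MZT.Ra
import Pool.Agent.MZT.Pa
import Pool.Agent.MZT.Hb
import Pool.Agent.MZT.Qd

/-!
# MZT phase 2: quadratic forms on quadric cones

`Y`: `D k (u k) = 0` and `∑_{k : e k = q} ∏ i, f i (x i) ^ al k i * F k (u k) = c' q * ∏ i, f i (x i) ^ be q i` with quadratic forms
`D k`, `F k`. The rational zeros of `D k` are `t ψ(y)` with `ψ` from finitely many families of quadratic polynomials (`quad_cone`), and
`F k (t ψ(y)) = t² h(y)` with `deg h ≤ 4`; where `F k (u k) = 0` the point `u k` is a common zero of two quadratic forms (`tm_two`).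
-/

set_option autoImplicit false

open Set Topology Filter MvPolynomial

namespace Pool.Agent.MZT

open Pool.Agent.MZ Pool.Agent.QTW

/-- common rational zeros of two quadratic forms -/
def QD {n : ℕ} (D F : MvPolynomial (Fin n) ℚ) : Set (Fin n → ℝ) :=
  {x | ∃ q : Fin n → ℚ, eval q D = 0 ∧ eval q F = 0 ∧ x = fun i => (q i : ℝ)}

theorem tm_QD {n : ℕ} {D F : MvPolynomial (Fin n) ℚ} (hD : D.totalDegree ≤ 2)
    (hF : F.totalDegree ≤ 2) : Tm (QD D F) := by
  have h := tm_two tm_main ![D, F] (by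
    intro j
    fin_cases j
    · exact hD
    · exact hF)
  have e : QD D F = QZF ![D, F] := by
    ext x
    constructor
    · rintro ⟨q, hq1, hq2, rfl⟩
      refine ⟨q, fun j => ?_, rfl⟩
      fin_cases j
      · exact hq1
      · exact hq2
    · rintro ⟨q, hq, rfl⟩
      exact ⟨q, hq 0, hq 1, rfl⟩
  rw [e]
  exact h

/-- evaluation of a component of the map -/
theorem ev_comp {σ : Type} {n : ℕ} (z : σ → ℝ) (Z : Prop) [Decidable Z] (b c : σ) (d : Fin n → σ)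
    (P : MvPolynomial (Fin n) ℚ) (y : Fin n → ℚ) (hy : ¬ Z → ∀ j, z (d j) = (y j : ℝ)) :
    eval z (if Z then X b else X c * aeval (fun j => X (d j) : Fin n → MvPolynomial σ ℝ) P) =
      if Z then z b else z c * ((eval y P : ℚ) : ℝ) := by
  split_ifs with h
  · exact eval_X _
  · rw [map_mul, eval_X]
    congr 1
    have hh : (eval z).comp ((aeval (fun j => X (d j) : Fin n → MvPolynomial σ ℝ) :
            MvPolynomial (Fin n) ℚ →ₐ[ℚ] _) : MvPolynomial (Fin n) ℚ →+* _) =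
        (algebraMap ℚ ℝ).comp (eval y) := by
      apply MvPolynomial.ringHom_ext
      · intro b
        simp
      · intro j
        simp [hy h j]
    exact congrArg (fun φ : MvPolynomial (Fin n) ℚ →+* ℝ => φ P) hh

/-- the rational points of the cone bundle -/
def CB {r s g : ℕ} (N : Fin r → ℕ) (f : ∀ i, MvPolynomial (Fin (N i)) ℚ) (J : Finset (Fin r))
    (M : Fin s → ℕ) (D F : ∀ k, MvPolynomial (Fin (M k)) ℚ)
    (e : Fin s → Fin g) (c' : Fin g → ℚ) (al : Fin s → Fin r → ℕ) (be : Fin g → Fin r → ℕ) :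
    Set ((Σ i, Fin (N i)) ⊕ (Σ k, Fin (M k)) → ℝ) :=
  {z | ∃ (x : ∀ i, Fin (N i) → ℚ) (u : ∀ k, Fin (M k) → ℚ), (∀ i ∈ J, eval (x i) (f i) ≠ 0) ∧
    (∀ k, eval (u k) (D k) = 0) ∧
    (∀ q, ∑ k with e k = q, (∏ i, eval (x i) (f i) ^ al k i) * eval (u k) (F k) =
      c' q * ∏ i, eval (x i) (f i) ^ be q i) ∧
    z = Sum.elim (fun p => (x p.1 p.2 : ℝ)) (fun p => (u p.1 p.2 : ℝ))}

/-- one piece: for `k ∈ Z` the point `u k` is in `QD`, for the others `u k = t Ψ k (y)` -/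
def CP {r s g : ℕ} (N : Fin r → ℕ) (f : ∀ i, MvPolynomial (Fin (N i)) ℚ) (J : Finset (Fin r))
    (M : Fin s → ℕ) (D F : ∀ k, MvPolynomial (Fin (M k)) ℚ)
    (e : Fin s → Fin g) (c' : Fin g → ℚ) (al : Fin s → Fin r → ℕ) (be : Fin g → Fin r → ℕ)
    (Z : Finset (Fin s)) (n' : Fin s → ℕ) (Ψ : ∀ k, Fin (M k) → MvPolynomial (Fin (n' k)) ℚ) :
    Set ((Σ i, Fin (N i)) ⊕ (Σ k, Fin (M k)) → ℝ) :=
  {z | ∃ (x : ∀ i, Fin (N i) → ℚ) (u : ∀ k, Fin (M k) → ℚ), (∀ i ∈ J, eval (x i) (f i) ≠ 0) ∧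
    (∀ k ∈ Z, eval (u k) (D k) = 0 ∧ eval (u k) (F k) = 0) ∧
    (∀ k, k ∉ Z → ∃ (t : ℚ) (y : Fin (n' k) → ℚ), u k = (fun a => t * eval y (Ψ k a)) ∧
      eval y (bind₁ (Ψ k) (F k)) ≠ 0) ∧
    (∀ q, ∑ k with e k = q, (∏ i, eval (x i) (f i) ^ al k i) * eval (u k) (F k) =
      c' q * ∏ i, eval (x i) (f i) ^ be q i) ∧
    z = Sum.elim (fun p => (x p.1 p.2 : ℝ)) (fun p => (u p.1 p.2 : ℝ))}

/-- the pieces are tame -/
theorem tm_CP {r s g : ℕ} (N : Fin r → ℕ) (f : ∀ i, MvPolynomial (Fin (N i)) ℚ)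
    (hf : ∀ i, (f i).totalDegree ≤ 4) (J : Finset (Fin r)) (hJ : ∀ i, i ∉ J → Tm (QZ (f i)))
    (M : Fin s → ℕ) (D F : ∀ k, MvPolynomial (Fin (M k)) ℚ)
    (hD : ∀ k, (D k).IsHomogeneous 2) (hF : ∀ k, (F k).IsHomogeneous 2)
    (e : Fin s → Fin g) (c' : Fin g → ℚ) (al : Fin s → Fin r → ℕ) (be : Fin g → Fin r → ℕ)
    (Z : Finset (Fin s)) (n' : Fin s → ℕ) (Ψ : ∀ k, Fin (M k) → MvPolynomial (Fin (n' k)) ℚ)
    (hΨ : ∀ k a, (Ψ k a).totalDegree ≤ 2) : Tm (CP N f J M D F e c' al be Z n' Ψ) := by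
  classical
  -- the big system
  let N' : Fin r ⊕ Fin s → ℕ := Sum.elim N n'
  let f' : ∀ i : Fin r ⊕ Fin s, MvPolynomial (Fin (N' i)) ℚ := fun i =>
    match i with
    | Sum.inl i => f i
    | Sum.inr k => if k ∈ Z then 1 else bind₁ (Ψ k) (F k)
  have hf' : ∀ i, (f' i).totalDegree ≤ 4 := by
    rintro (i | k)
    · exact hf i
    · show (if k ∈ Z then 1 else bind₁ (Ψ k) (F k) : MvPolynomial (Fin (n' k)) ℚ).totalDegree ≤ 4
      split_ifs
      · rw [totalDegree_one]; omega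
      · exact (quad_sub (F k) (hF k) (Ψ k) (hΨ k)).1
  have hl : ∀ i, (Sum.inl i : Fin r ⊕ Fin s) ∈ J.disjSum (Finset.univ : Finset (Fin s)) ↔ i ∈ J :=
    fun i => Finset.inl_mem_disjSum
  have hr : ∀ k, (Sum.inr k : Fin r ⊕ Fin s) ∈ J.disjSum (Finset.univ : Finset (Fin s)) := fun k =>
    Finset.inr_mem_disjSum.2 (Finset.mem_univ k)
  have hJ2 : ∀ i, i ∉ J.disjSum (Finset.univ : Finset (Fin s)) → Tm (QZ (f' i)) := by
    rintro (i | k) h
    · exact hJ i fun h' => h ((hl i).2 h')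
    · exact absurd (hr k) h
  have h1 := tmq_fintype N' f' hf' (J.disjSum Finset.univ) hJ2 e (fun k => if k ∈ Z then 0 else 1) c'
    (fun k => Sum.elim (al k) fun k' => if k' = k then 1 else 0)
    (fun q => Sum.elim (be q) fun _ => 0)
  -- the sets for `k ∈ Z`
  have h2 : Tm (pp fun k : Fin s => if k ∈ Z then QD (D k) (F k) else {0}) := by
    refine Tm.pi fun k => ?_
    show Tm (if k ∈ Z then QD (D k) (F k) else {0})
    split_ifs
    · exact tm_QD (hD k).totalDegree_le (hF k).totalDegree_le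
    · exact Tm.of_finite (Set.finite_singleton _)
  have h3 := h1.prod h2
  -- the map
  let pφ : (Σ i, Fin (N i)) ⊕ (Σ k, Fin (M k)) →
      MvPolynomial (((Σ i, Fin (N' i)) ⊕ Fin s) ⊕ (Σ k, Fin (M k))) ℝ :=
    Sum.elim (fun p => X (Sum.inl (Sum.inl ⟨Sum.inl p.1, p.2⟩)))
      (fun p => if p.1 ∈ Z then X (Sum.inr p) else
        X (Sum.inl (Sum.inr p.1)) * aeval (fun j => X (Sum.inl (Sum.inl ⟨Sum.inr p.1, j⟩)) :
          Fin (n' p.1) → MvPolynomial (((Σ i, Fin (N' i)) ⊕ Fin s) ⊕ (Σ k, Fin (M k))) ℝ) (Ψ p.1 p.2))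
  have hev1 : ∀ (w : ((Σ i, Fin (N' i)) ⊕ Fin s) ⊕ (Σ k, Fin (M k)) → ℝ) (p : Σ i, Fin (N i)),
      pm pφ w (Sum.inl p) = w (Sum.inl (Sum.inl ⟨Sum.inl p.1, p.2⟩)) := fun w p => eval_X _
  have hev2 : ∀ (w : ((Σ i, Fin (N' i)) ⊕ Fin s) ⊕ (Σ k, Fin (M k)) → ℝ) (k : Fin s) (a : Fin (M k))
      (y : Fin (n' k) → ℚ), (∀ j, w (Sum.inl (Sum.inl ⟨Sum.inr k, j⟩)) = (y j : ℝ)) →
      pm pφ w (Sum.inr ⟨k, a⟩) = if k ∈ Z then w (Sum.inr ⟨k, a⟩) else
        w (Sum.inl (Sum.inr k)) * ((eval y (Ψ k a) : ℚ) : ℝ) := fun w k a y hy =>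
    ev_comp w (k ∈ Z) (Sum.inr ⟨k, a⟩) (Sum.inl (Sum.inr k))
      (fun j => Sum.inl (Sum.inl ⟨Sum.inr k, j⟩)) (Ψ k a) y fun _ => hy
  clear_value pφ
  have hprod : ∀ (x : ∀ i, Fin (N' i) → ℚ) (k : Fin s),
      ∏ i, eval (x i) (f' i) ^ (Sum.elim (al k) (fun k' => if k' = k then 1 else 0) :
        Fin r ⊕ Fin s → ℕ) i =
      (∏ i, eval (x (Sum.inl i)) (f i) ^ al k i) * eval (x (Sum.inr k)) (f' (Sum.inr k)) := by
    intro x k
    rw [Fintype.prod_sum_type]
    congr 1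
    rw [Finset.prod_eq_single k]
    · show eval (x (Sum.inr k)) (f' (Sum.inr k)) ^ (if k = k then 1 else 0) = _
      rw [if_pos rfl, pow_one]
    · intro k' _ hk
      show eval (x (Sum.inr k')) (f' (Sum.inr k')) ^ (if k' = k then 1 else 0) = _
      rw [if_neg hk, pow_zero]
    · intro hk
      exact absurd (Finset.mem_univ k) hk
  have hprod2 : ∀ (x : ∀ i, Fin (N' i) → ℚ) (q : Fin g),
      ∏ i, eval (x i) (f' i) ^ (Sum.elim (be q) (fun _ => 0) : Fin r ⊕ Fin s → ℕ) i =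
      ∏ i, eval (x (Sum.inl i)) (f i) ^ be q i := by
    intro x q
    rw [Fintype.prod_sum_type]
    have h1 : ∏ k : Fin s, eval (x (Sum.inr k)) (f' (Sum.inr k)) ^
        (Sum.elim (be q) (fun _ => 0) : Fin r ⊕ Fin s → ℕ) (Sum.inr k) = 1 :=
      Finset.prod_eq_one fun k _ => pow_zero _
    rw [h1, mul_one]
    rfl
  have key := h3.image pφ
  convert key using 1
  ext z
  constructor
  · rintro ⟨x, u, h0, hZ, hN, h1, rfl⟩
    choose! t y hu hy using hN
    let x' : ∀ i : Fin r ⊕ Fin s, Fin (N' i) → ℚ := fun i =>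
      match i with
      | Sum.inl i => x i
      | Sum.inr k => y k
    refine ⟨Sum.elim (Sum.elim (fun p => (x' p.1 p.2 : ℝ)) (fun k => (t k : ℝ)))
      (fun p => if p.1 ∈ Z then (u p.1 p.2 : ℝ) else 0), ⟨⟨x', t, ?_, ?_, rfl⟩, ?_⟩, ?_⟩
    · rintro (i | k) hi
      · exact h0 i ((hl i).1 hi)
      · show eval (y k) (if k ∈ Z then 1 else bind₁ (Ψ k) (F k) : MvPolynomial (Fin (n' k)) ℚ) ≠ 0
        split_ifs with hk
        · simp
        · exact hy k hk
    · intro q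
      rw [hprod2 x' q]
      refine Eq.trans ?_ (h1 q)
      refine Finset.sum_congr rfl fun k _ => ?_
      rw [hprod x' k]
      show (if k ∈ Z then (0 : ℚ) else 1) * ((∏ i, eval (x i) (f i) ^ al k i) *
        eval (y k) (if k ∈ Z then 1 else bind₁ (Ψ k) (F k) : MvPolynomial (Fin (n' k)) ℚ)) * t k ^ 2 = _
      split_ifs with hk
      · rw [(hZ k hk).2]; ring
      · rw [hu k hk, (quad_sub (F k) (hF k) (Ψ k) (hΨ k)).2]
        ring
    · intro k
      show (fun j => (if k ∈ Z then (u k j : ℝ) else 0)) ∈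
        (if k ∈ Z then QD (D k) (F k) else {0} : Set (Fin (M k) → ℝ))
      split_ifs with hk
      · exact ⟨u k, (hZ k hk).1, (hZ k hk).2, rfl⟩
      · rfl
    · funext p
      rcases p with p | ⟨k, a⟩
      · rw [hev1]
        rfl
      · rw [hev2 _ k a (y k) fun j => rfl]
        by_cases hk : k ∈ Z
        · rw [if_pos hk]
          show (if k ∈ Z then (u k a : ℝ) else 0) = (u k a : ℝ)
          rw [if_pos hk]
        · rw [if_neg hk]
          show (t k : ℝ) * ((eval (y k) (Ψ k a) : ℚ) : ℝ) = (u k a : ℝ)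
          rw [hu k hk]
          push_cast
          rfl
  · rintro ⟨w, ⟨⟨x, v, h0, h1, hw⟩, hw2⟩, rfl⟩
    have hw1 : ∀ p, w (Sum.inl (Sum.inl p)) = (x p.1 p.2 : ℝ) := fun p => congrFun hw (Sum.inl p)
    have hw1' : ∀ k, w (Sum.inl (Sum.inr k)) = (v k : ℝ) := fun k => congrFun hw (Sum.inr k)
    have hw3 : ∀ k, k ∈ Z → ∃ q : Fin (M k) → ℚ, eval q (D k) = 0 ∧ eval q (F k) = 0 ∧
        ∀ j, w (Sum.inr ⟨k, j⟩) = (q j : ℝ) := by
      intro k hk
      have h := hw2 k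
      have h' : (fun j => w (Sum.inr ⟨k, j⟩)) ∈
        (if k ∈ Z then QD (D k) (F k) else {0} : Set (Fin (M k) → ℝ)) := h
      rw [if_pos hk] at h'
      obtain ⟨q, hq1, hq2, hq3⟩ := h'
      exact ⟨q, hq1, hq2, fun j => congrFun hq3 j⟩
    choose! q hq1 hq2 hq3 using hw3
    obtain ⟨y, hy⟩ : ∃ y : ∀ k, Fin (n' k) → ℚ, ∀ k, y k = x (Sum.inr k) := ⟨fun k => x (Sum.inr k), fun k => rfl⟩
    refine ⟨fun i => x (Sum.inl i), fun k => if k ∈ Z then q k else
      fun a => v k * eval (y k) (Ψ k a), ?_, ?_, ?_, ?_, ?_⟩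
    · intro i hi
      exact h0 (Sum.inl i) ((hl i).2 hi)
    · intro k hk
      simp only [if_pos hk]
      exact ⟨hq1 k hk, hq2 k hk⟩
    · intro k hk
      refine ⟨v k, y k, ?_, ?_⟩
      · exact if_neg hk
      · rw [hy k]
        have h := h0 (Sum.inr k) (hr k)
        have h' : eval (x (Sum.inr k)) (if k ∈ Z then 1 else bind₁ (Ψ k) (F k) :
          MvPolynomial (Fin (n' k)) ℚ) ≠ 0 := h
        rw [if_neg hk] at h'
        exact h'
    · intro j
      have h2 := h1 j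
      rw [hprod2 x j] at h2
      refine Eq.trans ?_ h2
      refine Finset.sum_congr rfl fun k _ => ?_
      have e2 : eval (x (Sum.inr k)) (f' (Sum.inr k)) =
          eval (y k) (if k ∈ Z then 1 else bind₁ (Ψ k) (F k) : MvPolynomial (Fin (n' k)) ℚ) := by
        rw [hy k]
        rfl
      rw [hprod x k, e2]
      by_cases hk : k ∈ Z
      · simp only [if_pos hk]
        rw [hq2 k hk]; ring
      · simp only [if_neg hk]
        rw [(quad_sub (F k) (hF k) (Ψ k) (hΨ k)).2 (v k) (y k)]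
        have e3 : ∀ A B t : ℚ, A * (t ^ 2 * B) = 1 * (A * B) * t ^ 2 := by
          intro A B t
          ring
        exact e3 _ _ _
    · funext p
      rcases p with p | ⟨k, a⟩
      · rw [hev1]
        exact hw1 ⟨Sum.inl p.1, p.2⟩
      · rw [hev2 w k a (x (Sum.inr k)) fun j => hw1 _]
        show _ = (((if k ∈ Z then q k else fun a => v k * eval (y k) (Ψ k a)) a : ℚ) : ℝ)
        by_cases hk : k ∈ Z
        · rw [if_pos hk, if_pos hk, hq3 k hk]
        · rw [if_neg hk, if_neg hk, hw1', hy k]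
          push_cast
          rfl

/-- quadratic forms on quadric cones -/
theorem tm_CB {r s g : ℕ} (N : Fin r → ℕ) (f : ∀ i, MvPolynomial (Fin (N i)) ℚ)
    (hf : ∀ i, (f i).totalDegree ≤ 4) (J : Finset (Fin r))
    (hJ : ∀ i, i ∉ J → (f i).totalDegree ≤ 3 ∨ N i ≤ 1)
    (M : Fin s → ℕ) (D F : ∀ k, MvPolynomial (Fin (M k)) ℚ)
    (hD : ∀ k, (D k).IsHomogeneous 2) (hF : ∀ k, (F k).IsHomogeneous 2)
    (e : Fin s → Fin g) (c' : Fin g → ℚ) (al : Fin s → Fin r → ℕ) (be : Fin g → Fin r → ℕ) :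
    Tm (CB N f J M D F e c' al be) := by
  classical
  choose L m ψ hψ1 hψ2 hψ3 using fun k => quad_cone (D k) (hD k)
  let dat : ∀ k, Option (Fin (L k)) → Σ n, (Fin (M k) → MvPolynomial (Fin n) ℚ) := fun k o =>
    match o with
    | none => ⟨0, fun _ => 0⟩
    | some l => ⟨m k l, ψ k l⟩
  have hdat : ∀ k o a, ((dat k o).2 a).totalDegree ≤ 2 := by
    rintro k (_ | l) a
    · show (0 : MvPolynomial (Fin 0) ℚ).totalDegree ≤ 2
      simp
    · exact hψ1 k l a
  have hd1 : ∀ (k : Fin s) (o : Option (Fin (L k))) (l : Fin (L k)), o = some l →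
      ∀ (v : Fin (M k) → ℚ) (t : ℚ) (y : Fin (m k l) → ℚ), (v = fun a => t * eval y (ψ k l a)) →
      eval v (F k) ≠ 0 → ∃ (t : ℚ) (y : Fin (dat k o).1 → ℚ),
        v = (fun a => t * eval y ((dat k o).2 a)) ∧ eval y (bind₁ (dat k o).2 (F k)) ≠ 0 := by
    rintro k o l rfl v t y hv h
    refine ⟨t, y, hv, ?_⟩
    intro h3
    apply h
    rw [hv, (quad_sub (F k) (hF k) (ψ k l) (hψ1 k l)).2 t y]
    have h5 : eval y (bind₁ (ψ k l) (F k)) = 0 := h3
    rw [h5, mul_zero]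
  have hd2 : ∀ (k : Fin s) (o : Option (Fin (L k))), o ≠ none → ∀ (v : Fin (M k) → ℚ),
      (∃ (t : ℚ) (y : Fin (dat k o).1 → ℚ), v = (fun a => t * eval y ((dat k o).2 a)) ∧
        eval y (bind₁ (dat k o).2 (F k)) ≠ 0) → eval v (D k) = 0 := by
    rintro k (_ | l) ho v ⟨t, y, hv, -⟩
    · exact absurd rfl ho
    · rw [hv]
      exact hψ2 k l t y
  have hU : CB N f J M D F e c' al be = ⋃ lam : ∀ k, Option (Fin (L k)),
      CP N f J M D F e c' al be (Finset.univ.filter fun k => lam k = none)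
        (fun k => (dat k (lam k)).1) (fun k => (dat k (lam k)).2) := by
    ext z
    rw [mem_iUnion]
    constructor
    · rintro ⟨x, u, h0, h1, h2, rfl⟩
      choose l t y hly using fun k => hψ3 k (u k) (h1 k)
      have hlam : ∃ lam : ∀ k, Option (Fin (L k)), ∀ k, (eval (u k) (F k) = 0 → lam k = none) ∧
          (eval (u k) (F k) ≠ 0 → lam k = some (l k)) := by
        refine ⟨fun k => if eval (u k) (F k) = 0 then none else some (l k), fun k => ⟨?_, ?_⟩⟩
        · intro h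
          exact if_pos h
        · intro h
          exact if_neg h
      obtain ⟨lam, hlam⟩ := hlam
      refine ⟨lam, x, u, h0, ?_, ?_, h2, rfl⟩
      · intro k hk
        refine ⟨h1 k, ?_⟩
        by_contra h
        have h3 := (Finset.mem_filter.1 hk).2
        rw [(hlam k).2 h] at h3
        exact absurd h3 (by simp)
      · intro k hk
        have h : eval (u k) (F k) ≠ 0 := fun h =>
          hk (Finset.mem_filter.2 ⟨Finset.mem_univ k, (hlam k).1 h⟩)
        exact hd1 k (lam k) (l k) ((hlam k).2 h) (u k) (t k) (y k) (hly k) h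
    · rintro ⟨lam, x, u, h0, h1, h2, h3, rfl⟩
      refine ⟨x, u, h0, ?_, h3, rfl⟩
      intro k
      by_cases hk : k ∈ Finset.univ.filter fun k => lam k = none
      · exact (h1 k hk).1
      · have hk' : lam k ≠ none := fun h => hk (Finset.mem_filter.2 ⟨Finset.mem_univ k, h⟩)
        exact hd2 k (lam k) hk' (u k) (h2 k hk)
  rw [hU]
  refine Tm.iUnion fun lam => ?_
  exact tm_CP N f hf J (fun i hi => tm_small (hJ i hi)) M D F hD hF e c' al be _ _ _ fun k a => hdat k _ a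

end Pool.Agent.MZT
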